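import Pool.Agent.Lib.MP_b54217_ag.A.Grow

/-!
# THEOREM B.  More on `kap`
-/

set_option autoImplicit false

namespace Pool.Agent.SV.A

open MvPolynomial Module Pool.Agent.SV.E

variable {σ : Type}

/-- Dropping `j` points. -/
theorem kap_drop' (V : Submodule ℂ (MvPolynomial σ ℂ)) [FiniteDimensional ℂ V]
    (J : Finset σ) (r j : ℕ) : kap V J r ≤ kap V J (r + j) + (J.card + 1) * j := by
  induction j with
  | zero => simp
  | succ j ih =>
    have h1 := kap_drop V J (r + j)
    have h2 : (J.card + 1) * (j + 1) = (J.card + 1) * j + (J.card + 1) := by ring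
    rw [h2, ← add_assoc r j 1]
    omega

/-- GROW, refined: superabundance `B` at `j` gives superabundance `B - (j - i)` at `i ≤ j`. -/
theorem grow_plus (V : Submodule ℂ (MvPolynomial σ ℂ)) [FiniteDimensional ℂ V]
    (J : Finset σ) {i j B : ℕ} (hij : i ≤ j)
    (hB : kap V J j + (J.card + 1) * j ≤ finrank ℂ V + B) :
    kap V J i + (J.card + 1) * i ≤ finrank ℂ V + (B - (j - i)) := by
  by_contra hcon
  push Not at hcon
  -- some step before `i` drops by at most `|J|`
  obtain ⟨t, hti, ht⟩ : ∃ t < i, kap V J t ≤ kap V J (t + 1) + J.card := by
    by_contra hno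
    push Not at hno
    have : ∀ t ≤ i, kap V J t + (J.card + 1) * t ≤ finrank ℂ V := by
      intro t
      induction t with
      | zero =>
        intro _
        rw [kap_zero]
        omega
      | succ t ih =>
        intro ht
        have h1 := ih (by omega)
        have h2 := hno t (by omega)
        have h3 : (J.card + 1) * (t + 1) = (J.card + 1) * t + (J.card + 1) := by ring
        omega
    have := this i le_rfl
    omega
  -- all later steps too
  have hlate : ∀ s, i ≤ s → kap V J s ≤ kap V J (s + 1) + J.card := by
    intro s hs
    have := kap_slope V J (i := t) (j := s) (by omega)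
    omega
  have hsum : ∀ s, kap V J i ≤ kap V J (i + s) + J.card * s := by
    intro s
    induction s with
    | zero => simp
    | succ s ih =>
      have h1 := hlate (i + s) (by omega)
      have h2 : J.card * (s + 1) = J.card * s + J.card := by ring
      rw [← add_assoc]
      omega
  obtain ⟨c, rfl⟩ : ∃ c, j = i + c := ⟨j - i, by omega⟩
  have h1 := hsum c
  have h2 : (J.card + 1) * (i + c) = (J.card + 1) * i + J.card * c + c := by ring
  rw [h2] at hB
  omega

end Pool.Agent.SV.A
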