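import Pool.Agent.Lib.MP_b54217_ag.A.DefsA
import Pool.Agent.Lib.MP_b54217_ag.A.Kap2

/-!
# THEOREM B.  Consequences of a bound of the superabundance
-/

set_option autoImplicit false

namespace Pool.Agent.SV.A

open MvPolynomial Module Pool.Agent.SV.E
open Pool.Agent.SV.G (Sg DD mem_DD)

variable {k : ℕ} {M : Fin k → ℕ}

theorem Adm.mono {j : Fin k} {d0 d1 : ℕ} (h : d0 ≤ d1) {δ : Fin k → ℕ} (hδ : Adm j d1 δ) :
    Adm j d0 δ :=
  ⟨h.trans hδ.1, hδ.2⟩

/-- Lowering a degree by one. -/
theorem Adm.low {j i : Fin k} {d0 : ℕ} {δ : Fin k → ℕ} (hδ : Adm j (d0 + 1) δ) (hi : 2 ≤ δ i) :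
    Adm j d0 (dm i δ) := by
  obtain ⟨h1, h2⟩ := hδ
  refine ⟨?_, fun i' => ?_⟩
  · unfold dm
    split_ifs <;> omega
  · unfold dm
    split_ifs with h
    · subst h
      omega
    · exact h2 i'

/-- Lowering the degree of another block by one. -/
theorem Adm.low_ne {j i : Fin k} {d0 : ℕ} {δ : Fin k → ℕ} (hδ : Adm j d0 δ) (hij : i ≠ j)
    (hi : 2 ≤ δ i) : Adm j d0 (dm i δ) := by
  obtain ⟨h1, h2⟩ := hδ
  refine ⟨?_, fun i' => ?_⟩
  · unfold dm
    rw [if_neg hij]
    exact h1
  · unfold dm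
    split_ifs with h
    · subst h
      omega
    · exact h2 i'

/-- `|DS S δ|` is large if `S` meets a block of large degree: the exponents `t • e_x`. -/
theorem card_ge {S : Finset (Sg M)} {δ : Fin k → ℕ} {x : Sg M} (hx : x ∈ S) :
    δ x.1 + 1 ≤ (DS S δ).card := by
  classical
  have h1 : ((Finset.range (δ x.1 + 1)).image fun t => (Finsupp.single x t : Sg M →₀ ℕ)) ⊆
      DS S δ := by
    intro a ha
    obtain ⟨t, ht, rfl⟩ := Finset.mem_image.1 ha
    rw [Finset.mem_range] at ht
    rw [mem_DS]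
    refine ⟨fun i => ?_, fun y hy => ?_⟩
    · by_cases hi : x.1 = i
      · subst hi
        rw [Finset.sum_eq_single x.2]
        · rw [show (⟨x.1, x.2⟩ : Sg M) = x from rfl, Finsupp.single_eq_same]
          omega
        · intro b _ hb
          rw [Finsupp.single_apply, if_neg]
          intro h
          exact hb (eq_of_heq (Sigma.mk.inj_iff.1
            (show (⟨x.1, x.2⟩ : Sg M) = ⟨x.1, b⟩ from h)).2).symm
        · simp
      · rw [Finset.sum_eq_zero]
        · exact Nat.zero_le _
        · intro b _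
          rw [Finsupp.single_apply, if_neg]
          intro h
          exact hi (congrArg Sigma.fst h)
    · rw [Finsupp.single_apply, if_neg]
      rintro rfl
      exact hy hx
  have h2 := Finset.card_le_card h1
  rwa [Finset.card_image_of_injective _ (Finsupp.single_injective x), Finset.card_range] at h2

theorem card_pos (S : Finset (Sg M)) (δ : Fin k → ℕ) : 0 < (DS S δ).card := by
  refine Finset.card_pos.2 ⟨0, ?_⟩
  rw [mem_DS]
  simp

variable {S : Finset (Sg M)} {δ : Fin k → ℕ} {K : ℕ}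

theorem SB.mono {K' : ℕ} (h : SB S δ K) (hK : K ≤ K') : SB S δ K' := by
  intro r
  have := h r
  omega

/-- The trivial bound. -/
theorem SB.triv (S : Finset (Sg M)) (δ : Fin k → ℕ) : SB S δ (DS S δ).card := by
  intro r
  have h1 := kap_antitone (H (DS S δ)) S (Nat.zero_le r)
  rw [kap_zero, finrank_H] at h1
  unfold kS
  omega

/-- It is enough to know the critical value. -/
theorem SB.of_crit (h : kS S δ ((DS S δ).card / (S.card + 1)) ≤
      (DS S δ).card - (S.card + 1) * ((DS S δ).card / (S.card + 1)) + K) :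
    SB S δ (K + (S.card + 1)) := by
  intro r
  set A := (DS S δ).card with hA
  set τ := S.card + 1 with hτ
  set r0 := A / τ with hr0
  have hτ0 : 0 < τ := by omega
  have h1 : τ * r0 ≤ A := Nat.mul_div_le A τ
  have h2 : A < τ * (r0 + 1) := Nat.lt_mul_div_succ A hτ0
  rw [mul_add, mul_one] at h2
  unfold kS at h ⊢
  rcases le_total r r0 with hr | hr
  · obtain ⟨c, hc⟩ := Nat.exists_eq_add_of_le hr
    have h3 := kap_drop' (H (DS S δ)) S r c
    rw [← hc, ← hτ] at h3
    have h4 : τ * r0 = τ * r + τ * c := by rw [hc]; ring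
    omega
  · have h3 := kap_antitone (H (DS S δ)) S hr
    omega

/-- It is enough to bound the superabundance for `(|S| + 1) r ≤ |A|`. -/
theorem SB.of_le (h : ∀ r, (S.card + 1) * r ≤ (DS S δ).card →
      kS S δ r ≤ (DS S δ).card - (S.card + 1) * r + K) : SB S δ (K + (S.card + 1)) :=
  SB.of_crit (h _ (Nat.mul_div_le _ _))

/-- Bounded superabundance below the critical value. -/
theorem SB.sup (h : SB S δ K) {j : ℕ} (hj : (S.card + 1) * j ≤ (DS S δ).card) :
    kS S δ j + (S.card + 1) * j ≤ (DS S δ).card + K := by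
  have := h j
  omega

/-- Below the critical value the superabundance decreases (`grow_plus`). -/
theorem SB.sub (h : SB S δ K) {i j : ℕ} (hij : i ≤ j) (hj : (S.card + 1) * j ≤ (DS S δ).card) :
    kS S δ i + (S.card + 1) * i ≤ (DS S δ).card + (K - (j - i)) := by
  have h1 := grow_plus (H (DS S δ)) S hij (B := K) (by
    rw [finrank_H]
    exact h.sup hj)
  rwa [finrank_H] at h1

/-- Above the critical value the kernel decreases (`kap_antitone`). -/
theorem SB.super (h : SB S δ K) {i j : ℕ} (hji : j ≤ i) (hj : (DS S δ).card ≤ (S.card + 1) * j) :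
    kS S δ i ≤ K - (i - j) := by
  have h1 := h j
  have h2 := kap_antitone (H (DS S δ)) S hji
  unfold kS at h1 ⊢
  omega

/-- Exactness away from the critical value. -/
theorem SB.exact (h : SB S δ K) {i : ℕ} (hi : (S.card + 1) * (i + K) ≤ (DS S δ).card) :
    kS S δ i + (S.card + 1) * i = (DS S δ).card := by
  refine le_antisymm ?_ ?_
  · have := h.sub (Nat.le_add_right i K) hi
    omega
  · have := kap_lower (H (DS S δ)) S i
    rwa [finrank_H] at this

/-- Everything is killed above the critical value. -/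
theorem SB.kill (h : SB S δ K) {r : ℕ}
    (hr : (DS S δ).card + (S.card + 1) * (K + 1) ≤ (S.card + 1) * r) : kS S δ r = 0 := by
  have hr1 : K + 1 ≤ r := by
    by_contra hcon
    have : (S.card + 1) * r ≤ (S.card + 1) * (K + 1) := Nat.mul_le_mul_left _ (by omega)
    have h2 := card_pos S δ
    omega
  obtain ⟨c, rfl⟩ := Nat.exists_eq_add_of_le hr1
  have h1 := h.super (i := K + 1 + c) (j := c) (by omega) (by
    rw [mul_add (S.card + 1) (K + 1) c] at hr
    omega)
  omega

/-- `SB.exact` and `card_ge`. -/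
theorem W.psub {j : Fin k} (h : W j S) (hS : ∃ x ∈ S, x.1 = j) : Psub j S := by
  obtain ⟨K, d0, h⟩ := h
  obtain ⟨x, hx, rfl⟩ := hS
  refine ⟨max d0 ((S.card + 1) * (S.card + 2) * (K + 1)), fun δ hδ h' hh => ?_⟩
  refine (h δ (hδ.mono (le_max_left _ _))).exact ?_
  have h1 := card_ge (δ := δ) hx
  have h2 := (le_max_right _ _).trans hδ.1
  -- `(s+1)(s+2)(h' + K) ≤ (s+2)|A|`
  have h3 : (S.card + 2) * ((S.card + 1) * (h' + K)) ≤ (S.card + 2) * (DS S δ).card := by
    have e1 : (S.card + 2) * ((S.card + 1) * (h' + K)) =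
        (S.card + 1) * ((S.card + 2) * h') + (S.card + 1) * (S.card + 2) * K := by ring
    have e2 : (S.card + 1) * ((S.card + 2) * h') ≤
        (S.card + 1) * ((DS S δ).card + (S.card + 2)) := Nat.mul_le_mul_left _ hh
    have e3 : (S.card + 1) * ((DS S δ).card + (S.card + 2)) =
        (S.card + 1) * (DS S δ).card + (S.card + 1) * (S.card + 2) := by ring
    have e4 : (S.card + 1) * (S.card + 2) * (K + 1) =
        (S.card + 1) * (S.card + 2) * K + (S.card + 1) * (S.card + 2) := by ring
    have e5 : (S.card + 2) * (DS S δ).card = (S.card + 1) * (DS S δ).card + (DS S δ).card := by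
      ring
    omega
  exact Nat.le_of_mul_le_mul_left h3 (by omega)

/-- A block of degree zero is not used. -/
theorem DS_wb (S : Finset (Sg M)) (i : Fin k) {δ : Fin k → ℕ} (hi : δ i = 0) :
    DS S δ = DS (wb S i) δ := by
  ext a
  rw [mem_DS, mem_DS]
  refine and_congr_right fun h1 => ⟨fun h2 x hx => ?_, fun h2 x hx => h2 x fun h3 =>
    hx (Finset.mem_of_mem_filter x h3)⟩
  by_cases hxS : x ∈ S
  · have hxi : x.1 = i := by
      by_contra hne
      exact hx (Finset.mem_filter.2 ⟨hxS, hne⟩)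
    subst hxi
    have h3 := h1 x.1
    rw [hi] at h3
    have h4 := Finset.single_le_sum (f := fun j => a ⟨x.1, j⟩) (fun _ _ => Nat.zero_le _)
      (Finset.mem_univ x.2)
    have h5 : a ⟨x.1, x.2⟩ ≤ 0 := h4.trans h3
    exact Nat.le_zero.1 h5
  · exact h2 x hxS

/-- `DS S δ` depends only on the degrees of the blocks which meet `S`. -/
theorem DS_congr {δ' : Fin k → ℕ} (h : ∀ x ∈ S, δ x.1 = δ' x.1) : DS S δ = DS S δ' := by
  have key : ∀ (δ δ' : Fin k → ℕ), (∀ x ∈ S, δ x.1 = δ' x.1) → ∀ a, a ∈ DS S δ → a ∈ DS S δ' := by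
    intro δ δ' h a ha
    rw [mem_DS] at ha ⊢
    refine ⟨fun i => ?_, ha.2⟩
    by_cases hi : ∃ x ∈ S, x.1 = i
    · obtain ⟨x, hx, rfl⟩ := hi
      rw [← h x hx]
      exact ha.1 _
    · rw [Finset.sum_eq_zero]
      · exact Nat.zero_le _
      · intro y _
        exact ha.2 _ fun hy => hi ⟨_, hy, rfl⟩
  exact Finset.Subset.antisymm (key δ δ' h) (key δ' δ fun x hx => (h x hx).symm)

theorem mem_wb {i : Fin k} {x : Sg M} : x ∈ wb S i ↔ x ∈ S ∧ x.1 ≠ i := Finset.mem_filter

/-- `|S| = |S without block i| + bs S i`. -/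
theorem card_wb (S : Finset (Sg M)) (i : Fin k) : (wb S i).card + bs S i = S.card := by
  classical
  have h1 : bs S i = (S.filter fun x => ¬ x.1 ≠ i).card := by
    unfold bs
    refine Finset.card_nbij (fun j => (⟨i, j⟩ : Sg M)) ?_ ?_ ?_
    · intro j hj
      rw [Finset.mem_coe, Finset.mem_filter] at hj
      rw [Finset.mem_coe, Finset.mem_filter]
      exact ⟨hj.2, fun h => h rfl⟩
    · intro j _ j' _ h
      exact eq_of_heq (Sigma.mk.inj_iff.1 h).2
    · rintro ⟨i', j⟩ hx
      rw [Finset.mem_coe, Finset.mem_filter, not_not] at hx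
      obtain ⟨hx1, hx2⟩ := hx
      simp only at hx2
      subst hx2
      refine ⟨j, ?_, rfl⟩
      rw [Finset.mem_coe, Finset.mem_filter]
      exact ⟨Finset.mem_univ _, hx1⟩
  rw [h1, wb]
  exact Finset.card_filter_add_card_filter_not _

end Pool.Agent.SV.A
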