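import Pool.Agent.Lib.MP_b54217_ag.A.ZHW

/-!
# THEOREM B.  One variable
-/

set_option autoImplicit false

namespace Pool.Agent.SV.A

open MvPolynomial Module Pool.Agent.SV.E
open Pool.Agent.SV.G (Sg DD mem_DD)

variable {k : ℕ} {M : Fin k → ℕ}

theorem sum_one {o : Sg M} {a : Sg M →₀ ℕ} (h : ∀ x, x ∉ ({o} : Finset (Sg M)) → a x = 0)
    (i : Fin k) : ∑ j, a ⟨i, j⟩ = if o.1 = i then a o else 0 := by
  split_ifs with hi
  · subst hi
    rw [Finset.sum_eq_single o.2]
    · intro b _ hb
      refine h _ fun h' => hb ?_
      rw [Finset.mem_singleton] at h'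
      exact eq_of_heq (Sigma.mk.inj_iff.1 (show (⟨o.1, b⟩ : Sg M) = ⟨o.1, o.2⟩ from h')).2
    · simp
  · refine Finset.sum_eq_zero fun b _ => h _ fun h' => hi ?_
    rw [Finset.mem_singleton] at h'
    rw [← h']

/-- `|DS {o} δ| = δ + 1`. -/
theorem card_one (o : Sg M) (δ : Fin k → ℕ) : (DS {o} δ).card = δ o.1 + 1 := by
  classical
  have h1 : DS {o} δ = (Finset.range (δ o.1 + 1)).image fun t =>
      (Finsupp.single o t : Sg M →₀ ℕ) := by
    ext a
    rw [mem_DS, Finset.mem_image]
    constructor
    · rintro ⟨h1, h2⟩
      refine ⟨a o, ?_, ?_⟩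
      · have := h1 o.1
        rw [sum_one h2, if_pos rfl] at this
        rw [Finset.mem_range]
        omega
      · ext x
        by_cases hx : x = o
        · rw [hx, Finsupp.single_eq_same]
        · rw [Finsupp.single_apply, if_neg (Ne.symm hx), h2 x (by simpa using hx)]
    · rintro ⟨t, ht, rfl⟩
      rw [Finset.mem_range] at ht
      have h2 : ∀ x, x ∉ ({o} : Finset (Sg M)) → (Finsupp.single o t : Sg M →₀ ℕ) x = 0 := by
        intro x hx
        rw [Finset.mem_singleton] at hx
        rw [Finsupp.single_apply, if_neg (Ne.symm hx)]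
      refine ⟨fun i => ?_, h2⟩
      rw [sum_one h2]
      split_ifs with hi
      · subst hi
        rw [Finsupp.single_eq_same]
        omega
      · exact Nat.zero_le _
  rw [h1, Finset.card_image_of_injective _ (Finsupp.single_injective o), Finset.card_range]

/-- Double points on the line: no superabundance.  Strong induction on `δ o.1` with `zh`, `a = 1`
(`kap (H (lo o A)) ∅ 1 = 0` and `kap (H ∅) _ _ = 0`). -/
theorem base1 (o : Sg M) (δ : Fin k → ℕ) : SB {o} δ 0 := by
  classical
  have key : ∀ (t : ℕ) (δ : Fin k → ℕ), δ o.1 = t → ∀ r, kS {o} δ r ≤ t + 1 - 2 * r := by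
    intro t
    induction t using Nat.strong_induction_on with
    | _ t ih =>
      intro δ hδ r
      have hcard := card_one o δ
      rcases Nat.eq_zero_or_pos r with hr | hr
      · subst hr
        unfold kS
        rw [kap_zero, finrank_H, hcard]
        omega
      rcases Nat.eq_zero_or_pos t with ht | ht
      · have h1 := kap_antitone (H (DS {o} δ)) {o} (Nat.zero_le r)
        rw [kap_zero, finrank_H, hcard] at h1
        unfold kS
        omega
      have hd1 : dw o (DS {o} δ) = DS {o} (dm o.1 δ) :=
        dw_DS (Finset.mem_singleton_self o) (by omega)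
      have hdm1 : dm o.1 δ o.1 = t - 1 := by rw [dm_self, hδ]
      have h1 := zh (DS {o} δ) {o} {o} (Finset.mem_singleton_self o) (Finset.Subset.refl _) 1
        (r - 1)
      have h2 : kap (H (lo o (DS {o} δ))) (({o} : Finset (Sg M)).erase o) 1 ≤ 0 := by
        have h3 := kap_antitone (H (lo o (DS {o} δ))) (({o} : Finset (Sg M)).erase o)
          (Nat.zero_le 1)
        rw [kap_zero, finrank_H] at h3
        have h4 := card_lo_add_card_dw o (DS {o} δ)
        rw [hd1, hcard, card_one, hdm1] at h4
        omega
      have h5 : kap (H (dw o (DS {o} δ))) {o} (r - 1) ≤ t - 1 + 1 - 2 * (r - 1) := by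
        rw [hd1]
        exact ih (t - 1) (by omega) (dm o.1 δ) hdm1 (r - 1)
      have h6 : kap (H (dw o (dw o (DS {o} δ)))) {o} (r - 1) ≤ t - 1 - 2 * (r - 1) := by
        rw [hd1]
        rcases Nat.eq_zero_or_pos (t - 1) with ht1 | ht1
        · have h7 : (dw o (DS {o} (dm o.1 δ))).card = 0 := by
            rw [Finset.card_eq_zero, Finset.eq_empty_iff_forall_notMem]
            intro a ha
            rw [mem_dw, mem_DS] at ha
            have h8 := ha.1 o.1
            rw [hdm1, ht1, sum_one ha.2, if_pos rfl] at h8
            simp at h8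
          have h3 := kap_antitone (H (dw o (DS {o} (dm o.1 δ)))) {o} (Nat.zero_le (r - 1))
          rw [kap_zero, finrank_H, h7] at h3
          omega
        · rw [dw_DS (Finset.mem_singleton_self o) (by omega)]
          have := ih (t - 2) (by omega) (dm o.1 (dm o.1 δ)) (by rw [dm_self, hdm1]; omega) (r - 1)
          refine le_trans this ?_
          omega
      have e : 1 + (r - 1) = r := by omega
      rw [e] at h1
      unfold kS
      omega
  intro r
  have := key _ δ rfl r
  rw [card_one, Finset.card_singleton]
  omega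

end Pool.Agent.SV.A
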