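import Pool.Agent.Lib.MP_b54217_ag.A.WInd

/-!
# THEOREM B.  Uniformly bounded superabundance for all degrees
-/

set_option autoImplicit false

namespace Pool.Agent.SV.A

open MvPolynomial Module Pool.Agent.SV.E
open Pool.Agent.SV.G (Sg DD mem_DD)

variable {k : ℕ}

/-- `W_all` for every block `j` with `M j ≥ 1`; the remaining `δ` have `δ j < d0` for all `j` with
`M j ≥ 1`, so that `|DD M δ| ≤ |DD M (fun _ => d0)|` (`SB.triv`). -/
theorem SB_univ (M : Fin k → ℕ) :
    ∃ K, ∀ δ : Fin k → ℕ, (∀ i, 1 ≤ δ i) → SB (Finset.univ : Finset (Sg M)) δ K := by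
  classical
  have hW : ∀ j : Fin k, ∃ K d0 : ℕ, 1 ≤ M j → ∀ δ, Adm j d0 δ →
      SB (Finset.univ : Finset (Sg M)) δ K := by
    intro j
    by_cases hj : 1 ≤ M j
    · obtain ⟨K, d0, h⟩ := W_all j (Finset.univ : Finset (Sg M))
        ⟨⟨j, ⟨0, hj⟩⟩, Finset.mem_univ _, rfl⟩
      exact ⟨K, d0, fun _ => h⟩
    · exact ⟨0, 0, fun h => absurd h hj⟩
  choose Kj dj hWj using hW
  let d0 := Finset.univ.sup dj
  let K0 := Finset.univ.sup Kj
  refine ⟨max K0 (DS (Finset.univ : Finset (Sg M)) (fun _ => d0)).card, fun δ hδ => ?_⟩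
  by_cases h : ∃ j, 1 ≤ M j ∧ d0 ≤ δ j
  · obtain ⟨j, hj, hdj⟩ := h
    refine (hWj j hj δ ⟨le_trans (Finset.le_sup (f := dj) (Finset.mem_univ j)) hdj, hδ⟩).mono ?_
    exact le_trans (Finset.le_sup (f := Kj) (Finset.mem_univ j)) (le_max_left _ _)
  · push Not at h
    refine (SB.triv _ δ).mono (le_trans (Finset.card_le_card ?_) (le_max_right _ _))
    intro a ha
    rw [mem_DS] at ha ⊢
    refine ⟨fun i => ?_, ha.2⟩
    by_cases hi : 1 ≤ M i
    · exact (ha.1 i).trans (h i hi).le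
    · have hi0 : M i = 0 := by omega
      have : IsEmpty (Fin (M i)) := by rw [hi0]; infer_instance
      rw [Finset.univ_eq_empty, Finset.sum_empty]
      exact Nat.zero_le _

/-- Bounded superabundance, and none away from the critical value. -/
theorem bdd (M : Fin k → ℕ) : ∃ K, ∀ δ : Fin k → ℕ, (∀ i, 1 ≤ δ i) → ∀ r,
    kap (H (DD M δ)) Finset.univ r ≤ (DD M δ).card - (∑ i, M i + 1) * r + K ∧
    ((∑ i, M i + 1) * r + K ≤ (DD M δ).card ∨ (DD M δ).card + K ≤ (∑ i, M i + 1) * r →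
      kap (H (DD M δ)) Finset.univ r ≤ (DD M δ).card - (∑ i, M i + 1) * r) := by
  obtain ⟨K, hK⟩ := SB_univ M
  refine ⟨(∑ i, M i + 1) * K, fun δ hδ r => ?_⟩
  have hS := hK δ hδ
  have hcard : (Finset.univ : Finset (Sg M)).card = ∑ i, M i := by
    rw [Finset.card_univ, Fintype.card_sigma]
    simp
  have h1 := hS r
  have hKK : K ≤ (∑ i, M i + 1) * K := Nat.le_mul_of_pos_left _ (by omega)
  unfold kS at h1
  rw [DS_univ, hcard] at h1
  refine ⟨by omega, ?_⟩
  rintro (h | h)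
  · have h2 := hS.sub (i := r) (j := r + K) (by omega) (by
      rw [DS_univ, hcard, mul_add]
      exact h)
    unfold kS at h2
    rw [DS_univ, hcard] at h2
    omega
  · have hr : K ≤ r := by
      by_contra hcon
      have h3 : (∑ i, M i + 1) * r ≤ (∑ i, M i + 1) * K := Nat.mul_le_mul_left _ (by omega)
      have h4 := card_pos (Finset.univ : Finset (Sg M)) δ
      rw [DS_univ] at h4
      omega
    obtain ⟨c, rfl⟩ := Nat.exists_eq_add_of_le hr
    have h2 := hS.super (i := K + c) (j := c) (by omega) (by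
      rw [DS_univ, hcard]
      rw [mul_add] at h
      omega)
    unfold kS at h2
    rw [DS_univ] at h2
    omega

end Pool.Agent.SV.A
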