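import Pool.Agent.Lib.MP_b54217_ag.A.Kap
import Pool.Agent.Lib.MP_b54217_ag.I.Conv
import Pool.Agent.Lib.MP_b54217_ag.I.CardB
import Pool.Agent.Lib.MP_b54217_ag.I.Tran
import Pool.Agent.Lib.MP_b54217_ag.I.Low
import Pool.Agent.Lib.MP_b54217_ag.I.Up

/-!
# THEOREM B.  Interface: from `kap` to the dimension of the secant variety

The case `n = 1` of the interface of PROJECT G: the first factor is a point.
-/

set_option autoImplicit false

namespace Pool.Agent.SV.A

open MvPolynomial Module Pool.Agent.SV.E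
open Pool.Agent.SV.G (Sg DD mem_DD nn dd TT)

variable {k : ℕ}

/-- One polynomial: the double points of `kap` are full points for `n = 1` (`u = 1`);
`G.tt_of_full`. -/
theorem tt_of_kap {σ : Type} [Fintype σ] (D : Finset (σ →₀ ℕ)) (r : ℕ) :
    ∃ (u : ℕ → Fin 1 → ℂ) (p : ℕ → σ → ℂ),
      finrank ℂ (TT 1 D r u p) ≤ kap (H D) Finset.univ r := by
  obtain ⟨y, hy⟩ := kap_attained (H D) Finset.univ r
  refine G.tt_of_full (n := 1) D (fun _ _ => 1) y ?_
  rw [← hy]
  have key : ∀ F : Z (HN 1 D) (full (fun _ _ => 1) y), ((F : EN 1 σ) 0) ∈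
      Z (H D) (rowf Finset.univ Finset.univ y) := by
    intro F
    have hF := F.2
    rw [mem_Z_full, mem_HN] at hF
    obtain ⟨h1, h2, h3⟩ := hF
    rw [mem_Z_rowf]
    refine ⟨h1 0, fun a => h2 a 0, fun a _ j _ => ?_⟩
    have h4 := h3 a j
    rw [Fin.sum_univ_one, one_mul] at h4
    exact h4
  let f : Z (HN 1 D) (full (fun _ _ => 1) y) →ₗ[ℂ]
      Z (H D) (rowf Finset.univ Finset.univ y) :=
    { toFun := fun F => ⟨_, key F⟩
      map_add' := fun F G => rfl
      map_smul' := fun c F => rfl }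
  refine LinearMap.finrank_le_finrank_of_injective (f := f) ?_
  intro F G hFG
  apply Subtype.ext
  funext l
  have h1 : (F : EN 1 σ) 0 = (G : EN 1 σ) 0 := congrArg Subtype.val hFG
  rw [Subsingleton.elim l 0]
  exact h1

/-- Lower bound (`secDim_G`, `lowG`). -/
theorem secDim_low1 (M d : Fin k → ℕ) (r : ℕ) :
    (((DD M d).card - kap (H (DD M d)) Finset.univ r : ℕ) : WithBot ℕ∞) ≤
      secDim (nn 1 M) (dd d) r := by
  obtain ⟨u, p, h⟩ := tt_of_kap (DD M d) r
  rw [G.secDim_G]
  refine le_trans ?_ (G.lowG 1 M d r u p)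
  have h1 : (DD M d).card - kap (H (DD M d)) Finset.univ r ≤
      1 * (DD M d).card - finrank ℂ (TT 1 (DD M d) r u p) := by omega
  exact_mod_cast h1

/-- Upper bound (`upG_par`, `upG_amb`). -/
theorem secDim_up1 (M d : Fin k → ℕ) (r : ℕ) :
    secDim (nn 1 M) (dd d) r ≤
      ((min (r * (∑ i, M i + 1)) (DD M d).card : ℕ) : WithBot ℕ∞) := by
  rw [G.secDim_G]
  rcases le_total (r * (∑ i, M i + 1)) (DD M d).card with h2 | h2
  · rw [min_eq_left h2, add_comm]
    exact G.upG_par 1 M d r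
  · rw [min_eq_right h2]
    have h := G.upG_amb 1 M d r
    rw [one_mul] at h
    exact h

end Pool.Agent.SV.A
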