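import Pool.Agent.Lib.MP_b54217_ag.A.Grow

/-!
# THEOREM B.  Cutting down to a bad subspace, maps and kernels
-/

set_option autoImplicit false

namespace Pool.Agent.SV.A

open MvPolynomial Module Pool.Agent.SV.E

/-- `e` general functionals of a family cut the dimension one by one until only the elements
which are killed by the whole family (contained in `U`) are left. -/
theorem cut2 {E P : Type*} [AddCommGroup E] [Module ℂ E] [Nonempty P] (V U : Submodule ℂ E)
    [FiniteDimensional ℂ V] [FiniteDimensional ℂ U] (φ : P → E →ₗ[ℂ] ℂ)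
    (h : ∀ v ∈ V, (∀ p, φ p v = 0) → v ∈ U) (e : ℕ) :
    ∃ p : Fin e → P, finrank ℂ (Z V fun k => φ (p k)) ≤ max (finrank ℂ V - e) (finrank ℂ U) := by
  induction e with
  | zero =>
    refine ⟨fun k => k.elim0, ?_⟩
    simpa using Or.inl (Submodule.finrank_mono (Z_le V _))
  | succ e ih =>
    obtain ⟨p, hp⟩ := ih
    by_cases h0 : ∀ v ∈ Z V (fun k => φ (p k)), ∀ q, φ q v = 0
    · obtain ⟨a⟩ := ‹Nonempty P›
      refine ⟨Fin.cons a p, ?_⟩
      have hle : Z V (fun k => φ ((Fin.cons a p : Fin (e + 1) → P) k)) ≤ U := by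
        intro v hv
        have hv1 : v ∈ Z V (fun k => φ (p k)) := by
          rw [mem_Z] at hv ⊢
          refine ⟨hv.1, fun k => ?_⟩
          have := hv.2 k.succ
          simpa using this
        exact h v (Z_le _ _ hv) (h0 v hv1)
      exact le_max_of_le_right (Submodule.finrank_mono hle)
    · push Not at h0
      obtain ⟨v, hv, a, ha⟩ := h0
      refine ⟨Fin.cons a p, ?_⟩
      have hlt : Z V (fun k => φ ((Fin.cons a p : Fin (e + 1) → P) k)) <
          Z V (fun k => φ (p k)) := by
        refine lt_of_le_of_ne ?_ ?_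
        · refine Z_le_Z _ _ _ fun v _ hv k => ?_
          have := hv k.succ
          simpa using this
        · intro he
          rw [← he, mem_Z] at hv
          have := hv.2 0
          simp at this
          exact ha this
      have := Submodule.finrank_lt_finrank_of_lt hlt
      omega

/-- Rank and kernel on a subspace. -/
theorem finrank_le_map_add {E F : Type*} [AddCommGroup E] [Module ℂ E] [AddCommGroup F]
    [Module ℂ F] (V : Submodule ℂ E) [FiniteDimensional ℂ V] (f : E →ₗ[ℂ] F) :
    finrank ℂ V = finrank ℂ (V.map f) + finrank ℂ (V ⊓ LinearMap.ker f : Submodule ℂ E) := by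
  have h1 := LinearMap.finrank_range_add_finrank_ker (f.domRestrict V)
  have h2 : LinearMap.range (f.domRestrict V) = V.map f := by
    ext x
    simp [Submodule.mem_map]
  have h3 : finrank ℂ (LinearMap.ker (f.domRestrict V)) =
      finrank ℂ (V ⊓ LinearMap.ker f : Submodule ℂ E) := by
    have h4 : (LinearMap.ker (f.domRestrict V)).map V.subtype = V ⊓ LinearMap.ker f := by
      ext x
      simp only [Submodule.mem_map, LinearMap.mem_ker, LinearMap.domRestrict_apply,
        Submodule.subtype_apply, Subtype.exists, exists_and_left, exists_prop,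
        Submodule.mem_inf]
      constructor
      · rintro ⟨y, hy, hyV, rfl⟩
        exact ⟨hyV, hy⟩
      · rintro ⟨h5, h6⟩
        exact ⟨x, h6, h5, rfl⟩
    rw [← h4]
    exact (Submodule.equivMapOfInjective _ V.injective_subtype _).finrank_eq
  rw [h2, h3] at h1
  exact h1.symm

/-- The part of `F` without `x_o`: `th o 0` (E/Jets) fixes the polynomials without `x_o` and kills
the multiples of `x_o`. -/
theorem th_lo {σ : Type} [DecidableEq σ] {o : σ} {D : Finset (σ →₀ ℕ)} {G : MvPolynomial σ ℂ}
    (hG : G ∈ H (lo o D)) : th o 0 G = G := by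
  refine MvPolynomial.funext fun y => ?_
  have h1 : eval y (th o 0 G) = eval (Function.update y o 0) G := by
    have h2 : ∀ F : MvPolynomial σ ℂ, eval y (th o 0 F) = eval (Function.update y o 0) F := by
      intro F
      induction F using MvPolynomial.induction_on with
      | C a => simp [th]
      | add f g hf hg => simp only [map_add, hf, hg]
      | mul_X f i hf =>
        rw [map_mul, map_mul, map_mul, hf, eval_X]
        congr 1
        by_cases h : i = o
        · subst h
          simp [th]
        · simp [th, h]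
    exact h2 G
  rw [h1, ← ev_apply, ← ev_apply, ev_update hG]

theorem th_mul {σ : Type} [DecidableEq σ] (o : σ) (F : MvPolynomial σ ℂ) :
    th o 0 (X o * F) = 0 := by
  rw [map_mul]
  simp [th]

/-- Points on `T = {x_o = 0}`. -/
def onT {σ I : Type} [DecidableEq σ] (o : σ) (p : I × σ → ℂ) (k : I) : σ → ℂ :=
  Function.update (fun i => p (k, i)) o 0

theorem isPol_onT {σ I : Type} [DecidableEq σ] (o : σ) (k : I) (i : σ) :
    IsPol fun p : I × σ → ℂ => onT o p k i := by
  by_cases h : i = o
  · subst h
    simpa [onT] using IsPol.const 0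
  · simpa [onT, h] using IsPol.coord (k, i)

theorem onT_o {σ I : Type} [DecidableEq σ] (o : σ) (p : I × σ → ℂ) (k : I) : onT o p k o = 0 := by
  simp [onT]

theorem onT_ev {σ I : Type} [DecidableEq σ] {o : σ} {D : Finset (σ →₀ ℕ)}
    {G : MvPolynomial σ ℂ} (hG : G ∈ H (lo o D)) (p : I × σ → ℂ) (k : I) :
    ev (onT o p k) G = ev (fun i => p (k, i)) G := ev_update hG _ _

theorem onT_dv {σ I : Type} [DecidableEq σ] {o : σ} {D : Finset (σ →₀ ℕ)}
    {G : MvPolynomial σ ℂ} (hG : G ∈ H (lo o D)) (i : σ) (p : I × σ → ℂ) (k : I) :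
    dv i (onT o p k) G = dv i (fun i => p (k, i)) G := dv_update hG _ _ _

/-- An element which vanishes on `T` and is double at points off `T` is `x_o F''`. -/
theorem of_T {σ : Type} [DecidableEq σ] (o : σ) (D : Finset (σ →₀ ℕ)) (J : Finset σ)
    {I : Type} (c : I → σ → ℂ) (hc : ∀ k, c k o ≠ 0) {F : MvPolynomial σ ℂ} (hF : F ∈ H D)
    (h1 : ∀ k, ev (c k) F = 0) (h2 : ∀ k, ∀ i ∈ J, dv i (c k) F = 0)
    (h3 : ∀ y : σ → ℂ, ev (Function.update y o 0) F = 0) :
    ∃ F'' ∈ H (dw o D), F = X o * F'' ∧ (∀ k, ev (c k) F'' = 0) ∧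
      ∀ k, ∀ i ∈ J, dv i (c k) F'' = 0 := by
  obtain ⟨G, hG, F'', hF'', hFG⟩ := exists_decomp o hF
  have hG0 : G = 0 := by
    by_contra hG0
    obtain ⟨y, hy⟩ := exists_ev_ne hG0
    apply hy
    have := h3 y
    rw [hFG, map_add, ev_Xmul, Function.update_self, zero_mul, add_zero, ev_update hG] at this
    exact this
  rw [hG0, zero_add] at hFG
  have hev : ∀ k, ev (c k) F'' = 0 := by
    intro k
    have := h1 k
    rw [hFG, ev_Xmul] at this
    exact (mul_eq_zero.1 this).resolve_left (hc k)
  refine ⟨F'', hF'', hFG, hev, fun k i hi => ?_⟩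
  have := h2 k i hi
  rw [hFG, dv_Xmul, hev k, ite_self, zero_add] at this
  exact (mul_eq_zero.1 this).resolve_left (hc k)

end Pool.Agent.SV.A
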