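import Pool.Agent.Lib.MP_b54217_ag.A.Grow
import Pool.Agent.Lib.MP_b54217_ag.E.Cnt

/-!
# THEOREM B.  Bounded superabundance `W`, subcritical independence `Psub`

Blocks `i : Fin k`, variables `Sg M`.  `DS S δ`: exponents in the variables `S` with block sums
`≤ δ i`.  One block `j` has a large degree, all the other degrees are arbitrary, at least one.
-/

set_option autoImplicit false

namespace Pool.Agent.SV.A

open MvPolynomial Module Pool.Agent.SV.E
open Pool.Agent.SV.G (Sg DD mem_DD)

variable {k : ℕ} {M : Fin k → ℕ}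

/-- Admissible degrees: all at least one, the degree of the block `j` at least `d0`. -/
def Adm (j : Fin k) (d0 : ℕ) (δ : Fin k → ℕ) : Prop := d0 ≤ δ j ∧ ∀ i, 1 ≤ δ i

/-- The minimal kernel of `r` double points (directions `S`) on `H (DS S δ)`. -/
noncomputable def kS (S : Finset (Sg M)) (δ : Fin k → ℕ) (r : ℕ) : ℕ :=
  kap (H (DS S δ)) S r

/-- The superabundance of double points on `H (DS S δ)` is at most `K`. -/
def SB (S : Finset (Sg M)) (δ : Fin k → ℕ) (K : ℕ) : Prop :=
  ∀ r, kS S δ r ≤ (DS S δ).card - (S.card + 1) * r + K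

/-- `W`: the superabundance is bounded, uniformly in the admissible degrees. -/
def W (j : Fin k) (S : Finset (Sg M)) : Prop :=
  ∃ K d0 : ℕ, ∀ δ, Adm j d0 δ → SB S δ K

/-- `Psub`: independence of `h ≤ |A| / (|S| + 2) + 1` double points. -/
def Psub (j : Fin k) (S : Finset (Sg M)) : Prop :=
  ∃ d0 : ℕ, ∀ δ, Adm j d0 δ → ∀ h, (S.card + 2) * h ≤ (DS S δ).card + (S.card + 2) →
    kS S δ h + (S.card + 1) * h = (DS S δ).card

/-- `S` without the block `i`. -/
def wb (S : Finset (Sg M)) (i : Fin k) : Finset (Sg M) := S.filter fun x => x.1 ≠ i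

end Pool.Agent.SV.A
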