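import Pool.Agent.Lib.MP_b54217_ag.Defs

/-!
# THEOREM B.  A factor `P^0` of degree one does not matter
-/

set_option autoImplicit false

namespace Pool.Agent.SV.A

open MvPolynomial

variable {k : ℕ}

/-- The coordinate of a vector of length one. -/
private def z1 (f : Fin 1 → ℂ) : ℂ := f 0

/-- Forget the first factor. -/
private def tl (n d : Fin k → ℕ) (m : Idx (Fin.cons 1 n : Fin (k + 1) → ℕ) (Fin.cons 1 d)) :
    Idx n d := fun j => m j.succ

/-- The exponent of the first factor. -/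
private theorem idx_one (a : {m : Fin 1 → ℕ // m ∈ Finset.Nat.antidiagonalTuple 1 1}) :
    a.1 = fun _ => 1 := by
  have h : ∑ i : Fin 1, a.1 i = 1 := Finset.Nat.mem_antidiagonalTuple.1 a.2
  rw [Fin.sum_univ_one] at h
  funext i
  rw [Subsingleton.elim i 0]
  exact h

/-- The factor of `pt` for the first factor. -/
private theorem fac_one (a : {m : Fin 1 → ℕ // m ∈ Finset.Nat.antidiagonalTuple 1 1})
    (f : Fin 1 → ℂ) :
    (Nat.multinomial Finset.univ a.1 : ℂ) * ∏ i : Fin 1, f i ^ a.1 i = z1 f := by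
  rw [idx_one a]
  simp [z1]

private theorem tl_bij (n d : Fin k → ℕ) : Function.Bijective (tl n d) := by
  constructor
  · intro m m' h
    funext j
    refine Fin.cases (motive := fun j => m j = m' j) ?_ (fun i => ?_) j
    · apply Subtype.ext
      exact (idx_one (m 0)).trans (idx_one (m' 0)).symm
    · exact congrFun h i
  · intro m
    refine ⟨Fin.cases (motive := fun j => {m : Fin ((Fin.cons 1 n : Fin (k + 1) → ℕ) j) → ℕ //
      m ∈ Finset.Nat.antidiagonalTuple ((Fin.cons 1 n : Fin (k + 1) → ℕ) j)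
        ((Fin.cons 1 d : Fin (k + 1) → ℕ) j)})
      (⟨(fun _ => 1 : Fin 1 → ℕ), by
        change (fun _ => 1 : Fin 1 → ℕ) ∈ Finset.Nat.antidiagonalTuple 1 1
        rw [Finset.Nat.mem_antidiagonalTuple]; simp⟩) (fun i => m i), ?_⟩
    rfl

/-- The value of `pt`. -/
private theorem pt_cons (n d : Fin k → ℕ)
    (l : (j : Fin (k + 1)) → Fin ((Fin.cons 1 n : Fin (k + 1) → ℕ) j) → ℂ)
    (m : Idx (Fin.cons 1 n : Fin (k + 1) → ℕ) (Fin.cons 1 d)) :
    pt (Fin.cons 1 n : Fin (k + 1) → ℕ) (Fin.cons 1 d) l m =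
      z1 (l 0) * pt n d (fun j => l j.succ) (tl n d m) := by
  rw [pt, pt, Fin.prod_univ_succ]
  exact congrArg₂ (· * ·) (fac_one (m 0) (l 0)) rfl

/-- `Idx (1, n) (1, d) ≃ Idx n d`. -/
theorem idx_cons (n d : Fin k → ℕ) :
    ∃ e : Idx (Fin.cons 1 n : Fin (k + 1) → ℕ) (Fin.cons 1 d) ≃ Idx n d,
      ∀ r, rankLocus (Fin.cons 1 n : Fin (k + 1) → ℕ) (Fin.cons 1 d) r =
        (fun w => w ∘ e) '' rankLocus n d r := by
  refine ⟨Equiv.ofBijective _ (tl_bij n d), fun r => ?_⟩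
  ext w
  constructor
  · rintro ⟨c, l, rfl⟩
    obtain ⟨c', hc'⟩ : ∃ c' : Fin r → ℂ, ∀ i, c' i = c i * z1 (l i 0) := ⟨_, fun _ => rfl⟩
    refine ⟨∑ i, c' i • pt n d (fun j => l i j.succ), ⟨_, _, rfl⟩, ?_⟩
    funext m
    change (∑ i, c' i • pt n d (fun j => l i j.succ)) (tl n d m) = _
    rw [Finset.sum_apply, Finset.sum_apply]
    refine Finset.sum_congr rfl fun i _ => ?_
    rw [Pi.smul_apply, Pi.smul_apply, smul_eq_mul, smul_eq_mul, pt_cons, hc', mul_assoc]
  · rintro ⟨w, ⟨c, l, rfl⟩, rfl⟩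
    refine ⟨c, fun i => Fin.cases (motive := fun j =>
      Fin ((Fin.cons 1 n : Fin (k + 1) → ℕ) j) → ℂ) (fun _ : Fin 1 => (1 : ℂ)) (l i), ?_⟩
    funext m
    change (∑ i, c i • pt n d (l i)) (tl n d m) = _
    rw [Finset.sum_apply, Finset.sum_apply]
    refine Finset.sum_congr rfl fun i _ => ?_
    rw [Pi.smul_apply, Pi.smul_apply, smul_eq_mul, smul_eq_mul, pt_cons]
    congr 1
    exact (one_mul _).symm

/-- Renaming the coordinates. -/
theorem krull_reindex {ι ι' : Type} (e : ι ≃ ι') (V : Set (ι' → ℂ)) :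
    ringKrullDim (MvPolynomial ι ℂ ⧸ vanishingIdeal ℂ ((fun w => w ∘ e) '' V)) =
      ringKrullDim (MvPolynomial ι' ℂ ⧸ vanishingIdeal ℂ V) := by
  have h1 : vanishingIdeal ℂ ((fun w : ι' → ℂ => w ∘ e) '' V) =
      (vanishingIdeal ℂ V).comap ((renameEquiv ℂ e).toRingEquiv : MvPolynomial ι ℂ →+*
        MvPolynomial ι' ℂ) := by
    ext p
    rw [Ideal.mem_comap, mem_vanishingIdeal_iff, mem_vanishingIdeal_iff, Set.forall_mem_image]
    refine forall₂_congr fun w _ => ?_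
    have h2 : aeval w ((renameEquiv ℂ e) p) = aeval (w ∘ e) p := by
      rw [renameEquiv_apply, aeval_rename]
    change _ ↔ aeval w ((renameEquiv ℂ e) p) = 0
    rw [h2]
  refine ringKrullDim_eq_of_ringEquiv (Ideal.quotientEquiv _ _ (renameEquiv ℂ e).toRingEquiv ?_)
  rw [h1]
  exact (Ideal.map_comap_of_surjective _ (renameEquiv ℂ e).toRingEquiv.surjective _).symm

theorem secDim_cons (n d : Fin k → ℕ) (r : ℕ) :
    secDim (Fin.cons 1 n : Fin (k + 1) → ℕ) (Fin.cons 1 d) r = secDim n d r := by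
  obtain ⟨e, he⟩ := idx_cons n d
  rw [secDim, secDim, he r]
  exact krull_reindex e _

end Pool.Agent.SV.A
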