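import Pool.Agent.Lib.MP_b54217_ag.A.MainW
import Pool.Agent.Lib.MP_b54217_ag.A.Bdd
import Pool.Agent.Lib.MP_b54217_ag.A.ConvB
import Pool.Agent.Lib.MP_b54217_ag.A.PZero

/-!
# THEOREM B
-/

set_option autoImplicit false

namespace Pool.Agent.SV.A

open MvPolynomial Module Pool.Agent.SV.E
open Pool.Agent.SV.G (Sg DD mem_DD nn dd)

variable {k : ℕ}

theorem card_IdxB (M d : Fin k → ℕ) :
    Fintype.card (Idx (fun i => M i + 1) d) = (DD M d).card := by
  rw [G.card_Idx, G.card_DD]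
  exact Finset.prod_congr rfl fun i _ => G.card_tuple _ _

theorem svDimB (M : Fin k → ℕ) {d : Fin k → ℕ} (hd : ∀ i, 1 ≤ d i) :
    svDim (fun i => M i + 1) d = ∑ i, M i := by
  unfold svDim
  refine Finset.sum_congr rfl fun i _ => ?_
  have h := hd i
  rw [if_neg (by omega)]
  exact Nat.add_sub_cancel _ _

theorem secDim_low (M d : Fin k → ℕ) (r : ℕ) :
    (((DD M d).card - kap (H (DD M d)) Finset.univ r : ℕ) : WithBot ℕ∞) ≤
      secDim (fun i => M i + 1) d r := by
  rw [← secDim_cons (fun i => M i + 1) d r]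
  exact secDim_low1 M d r

theorem secDim_up (M d : Fin k → ℕ) (r : ℕ) :
    secDim (fun i => M i + 1) d r ≤
      ((min (r * (∑ i, M i + 1)) (DD M d).card : ℕ) : WithBot ℕ∞) := by
  rw [← secDim_cons (fun i => M i + 1) d r]
  exact secDim_up1 M d r

/-- The case of the expected kernel. -/
theorem secDim_exact (M : Fin k → ℕ) {d : Fin k → ℕ} (hd : ∀ i, 1 ≤ d i) (r : ℕ)
    (h : kap (H (DD M d)) Finset.univ r ≤ (DD M d).card - (∑ i, M i + 1) * r) :
    secDim (fun i => M i + 1) d r =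
      ((min (r * (svDim (fun i => M i + 1) d + 1))
        (Fintype.card (Idx (fun i => M i + 1) d)) : ℕ) : WithBot ℕ∞) ∧
    ¬ Defective (fun i => M i + 1) d r := by
  have h1 : secDim (fun i => M i + 1) d r =
      ((min (r * (svDim (fun i => M i + 1) d + 1))
        (Fintype.card (Idx (fun i => M i + 1) d)) : ℕ) : WithBot ℕ∞) := by
    rw [svDimB M hd, card_IdxB]
    refine le_antisymm (secDim_up M d r) (le_trans ?_ (secDim_low M d r))
    have h2 : min (r * (∑ i, M i + 1)) (DD M d).card ≤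
        (DD M d).card - kap (H (DD M d)) Finset.univ r := by
      rw [mul_comm] at h
      rcases le_total (r * (∑ i, M i + 1)) (DD M d).card with h3 | h3
      · rw [min_eq_left h3]
        omega
      · rw [min_eq_right h3]
        omega
    exact_mod_cast h2
  refine ⟨h1, ?_⟩
  rw [Defective, h1]
  exact lt_irrefl _

/-- (1), in terms of `M`. -/
theorem finB_one (M : Fin k → ℕ) : ∃ K : ℕ, ∀ d : Fin k → ℕ, (∀ i, 1 ≤ d i) → ∀ r : ℕ,
    ((min (r * (svDim (fun i => M i + 1) d + 1))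
      (Fintype.card (Idx (fun i => M i + 1) d)) - K : ℕ) : WithBot ℕ∞) ≤
        secDim (fun i => M i + 1) d r ∧
    (Defective (fun i => M i + 1) d r →
      r * (svDim (fun i => M i + 1) d + 1) < Fintype.card (Idx (fun i => M i + 1) d) + K ∧
      Fintype.card (Idx (fun i => M i + 1) d) < r * (svDim (fun i => M i + 1) d + 1) + K) := by
  obtain ⟨K, hK⟩ := bdd M
  refine ⟨K, fun d hd r => ?_⟩
  obtain ⟨h1, h2⟩ := hK d hd r
  refine ⟨?_, fun hdef => ?_⟩
  · rw [svDimB M hd, card_IdxB]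
    refine le_trans ?_ (secDim_low M d r)
    have h3 : min (r * (∑ i, M i + 1)) (DD M d).card - K ≤
        (DD M d).card - kap (H (DD M d)) Finset.univ r := by
      rw [mul_comm] at h1
      rcases le_total (r * (∑ i, M i + 1)) (DD M d).card with h3 | h3
      · rw [min_eq_left h3]
        omega
      · rw [min_eq_right h3]
        omega
    exact_mod_cast h3
  · by_contra hcon
    refine (secDim_exact M hd r (h2 ?_)).2 hdef
    rw [svDimB M hd, card_IdxB, mul_comm] at hcon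
    rw [mul_comm] at hcon
    rw [mul_comm]
    omega

/-- (2), in terms of `M`. -/
theorem finB_two (M : Fin k → ℕ) : ∃ d0 : ℕ, ∀ d : Fin k → ℕ, (∀ i, 1 ≤ d i) → ∀ j, d0 ≤ d j →
    (3 ≤ M j + 1 ∨ (M j + 1 = 2 ∧ ∃ i, i ≠ j ∧ 2 ≤ M i + 1 ∧
      (3 ≤ d i ∨ (d i = 2 ∧ M i + 1 + 1 ≤ svDim (fun i => M i + 1) d)))) →
    ∀ r : ℕ, secDim (fun i => M i + 1) d r =
      ((min (r * (svDim (fun i => M i + 1) d + 1))
        (Fintype.card (Idx (fun i => M i + 1) d)) : ℕ) : WithBot ℕ∞) ∧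
      ¬ Defective (fun i => M i + 1) d r := by
  obtain ⟨d0, h0⟩ := mainW M
  refine ⟨d0, fun d hd j hj hcase r => secDim_exact M hd r (h0 d hd j hj ?_ r)⟩
  rcases hcase with h | ⟨h, i, hij, hi, h'⟩
  · exact Or.inl (by omega)
  · refine Or.inr ⟨by omega, i, hij, by omega, ?_⟩
    rcases h' with h' | ⟨h', h''⟩
    · exact Or.inl h'
    · rw [svDimB M hd] at h''
      exact Or.inr ⟨h', h''⟩

/-- (1) The defects are bounded and the defective `r` lie in a bounded window around the critical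
value, uniformly in the multidegree.  (2) No defect for large degrees.  (3) Finiteness. -/
theorem finB {k : ℕ} (n : Fin k → ℕ) (hn : ∀ i, 1 ≤ n i) :
    (∃ K : ℕ, ∀ d : Fin k → ℕ, (∀ i, 1 ≤ d i) → ∀ r : ℕ,
      ((min (r * (svDim n d + 1)) (Fintype.card (Idx n d)) - K : ℕ) : WithBot ℕ∞) ≤
        secDim n d r ∧
      (Defective n d r → r * (svDim n d + 1) < Fintype.card (Idx n d) + K ∧
        Fintype.card (Idx n d) < r * (svDim n d + 1) + K)) ∧
    (∃ d0 : ℕ, ∀ d : Fin k → ℕ, (∀ i, 1 ≤ d i) → ∀ j, d0 ≤ d j →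
      (3 ≤ n j ∨ (n j = 2 ∧ ∃ i, i ≠ j ∧ 2 ≤ n i ∧
        (3 ≤ d i ∨ (d i = 2 ∧ n i + 1 ≤ svDim n d)))) →
      ∀ r : ℕ, secDim n d r =
        ((min (r * (svDim n d + 1)) (Fintype.card (Idx n d)) : ℕ) : WithBot ℕ∞) ∧
        ¬ Defective n d r) ∧
    ((∀ i, 3 ≤ n i) →
      {d : Fin k → ℕ | (∀ i, 1 ≤ d i) ∧ ∃ r, Defective n d r}.Finite) := by
  obtain ⟨M, rfl⟩ : ∃ M : Fin k → ℕ, n = fun i => M i + 1 := by
    refine ⟨fun i => n i - 1, funext fun i => ?_⟩
    have h := hn i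
    show n i = n i - 1 + 1
    omega
  refine ⟨finB_one M, finB_two M, fun h3 => ?_⟩
  obtain ⟨d0, h0⟩ := finB_two M
  refine (Set.finite_Iic (fun _ : Fin k => d0)).subset ?_
  rintro d ⟨hd, r, hr⟩
  rw [Set.mem_Iic]
  intro j
  by_contra hcon
  exact (h0 d hd j (not_le.1 hcon).le (Or.inl (h3 j)) r).2 hr

end Pool.Agent.SV.A
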