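import Pool.Agent.Lib.MP_b54217_ag.A.Kap

/-!
# THEOREM A.  `kap` is convex in `r`; superabundance grows
-/

set_option autoImplicit false

namespace Pool.Agent.SV.A

open MvPolynomial Module Pool.Agent.SV.E

variable {σ : Type}

/-- CONVEXITY. -/
theorem kap_convex (V : Submodule ℂ (MvPolynomial σ ℂ)) [FiniteDimensional ℂ V]
    (J : Finset σ) (r : ℕ) : 2 * kap V J (r + 1) ≤ kap V J r + kap V J (r + 2) := by
  classical
  -- parameters: `r + 2` points
  let y0 : (Fin (r + 2) × σ → ℂ) → Fin r → σ → ℂ := fun p k i => p (k.castSucc.castSucc, i)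
  let y1 : (Fin (r + 2) × σ → ℂ) → Fin (r + 1) → σ → ℂ := fun p k i => p (k.castSucc, i)
  let y2 : (Fin (r + 2) × σ → ℂ) → Fin (r + 2) → σ → ℂ := fun p k i => p (k, i)
  have hs0 : ∀ z : Fin r → σ → ℂ, ∃ p, y0 p = z := fun z =>
    ⟨fun x => if h : (x.1 : ℕ) < r then z ⟨x.1, h⟩ x.2 else 0, by
      funext k i
      simp [y0]⟩
  have hs2 : ∀ z : Fin (r + 2) → σ → ℂ, ∃ p, y2 p = z := fun z => ⟨fun x => z x.1 x.2, rfl⟩
  obtain ⟨p, hp0, hp2⟩ := ((kap_gen V J (Fintype.card_fin r) y0 (fun k i => IsPol.coord _)
    hs0).and (kap_gen V J (Fintype.card_fin (r + 2)) y2 (fun k i => IsPol.coord _) hs2)).exists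
  -- the two kernels
  let X := Z V (rowf J Finset.univ (y1 p))
  let Y := Z V (rowf J Finset.univ (fun k : Fin (r + 1) => y2 p (Fin.lastCases (Fin.last (r + 1))
    (fun k : Fin r => k.castSucc.castSucc) k)))
  have hX : kap V J (r + 1) ≤ finrank ℂ X := kap_le V J _
  have hY : kap V J (r + 1) ≤ finrank ℂ Y := kap_le V J _
  have hinf : X ⊓ Y ≤ Z V (rowf J Finset.univ (y2 p)) := by
    rintro f ⟨h1, h2⟩
    have h1' : f ∈ Z V (rowf J Finset.univ (y1 p)) := h1
    have h2' : f ∈ Z V (rowf J Finset.univ (fun k : Fin (r + 1) => y2 p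
      (Fin.lastCases (Fin.last (r + 1)) (fun k : Fin r => k.castSucc.castSucc) k))) := h2
    rw [mem_Z_rowf] at h1' h2' ⊢
    refine ⟨h1'.1, fun k => ?_, fun k _ j hj => ?_⟩
    · refine Fin.lastCases (motive := fun k => ev (y2 p k) f = 0) ?_ (fun k => ?_) k
      · have := h2'.2.1 (Fin.last r)
        simpa using this
      · exact h1'.2.1 k
    · refine Fin.lastCases (motive := fun k => dv j (y2 p k) f = 0) ?_ (fun k => ?_) k
      · have := h2'.2.2 (Fin.last r) (Finset.mem_univ _) j hj
        simpa using this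
      · exact h1'.2.2 k (Finset.mem_univ _) j hj
  have hsup : X ⊔ Y ≤ Z V (rowf J Finset.univ (y0 p)) := by
    refine sup_le (fun f hf => ?_) (fun f hf => ?_)
    · have hf' : f ∈ Z V (rowf J Finset.univ (y1 p)) := hf
      rw [mem_Z_rowf] at hf' ⊢
      exact ⟨hf'.1, fun k => hf'.2.1 k.castSucc, fun k _ j hj =>
        hf'.2.2 k.castSucc (Finset.mem_univ _) j hj⟩
    · have hf' : f ∈ Z V (rowf J Finset.univ (fun k : Fin (r + 1) => y2 p
        (Fin.lastCases (Fin.last (r + 1)) (fun k : Fin r => k.castSucc.castSucc) k))) := hf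
      rw [mem_Z_rowf] at hf' ⊢
      refine ⟨hf'.1, fun k => ?_, fun k _ j hj => ?_⟩
      · have := hf'.2.1 k.castSucc
        simpa using this
      · have := hf'.2.2 k.castSucc (Finset.mem_univ _) j hj
        simpa using this
  have hXfd : FiniteDimensional ℂ X := inferInstanceAs (FiniteDimensional ℂ (Z V _))
  have hYfd : FiniteDimensional ℂ Y := inferInstanceAs (FiniteDimensional ℂ (Z V _))
  have h1 := Submodule.finrank_sup_add_finrank_inf_eq X Y
  have h2 := Submodule.finrank_mono hinf
  have h3 := Submodule.finrank_mono hsup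
  omega

/-- The step from `i` to `i + 1` drops at least as much as the later ones. -/
theorem kap_slope (V : Submodule ℂ (MvPolynomial σ ℂ)) [FiniteDimensional ℂ V]
    (J : Finset σ) {i j : ℕ} (h : i ≤ j) :
    kap V J (i + 1) + kap V J j ≤ kap V J i + kap V J (j + 1) := by
  induction j, h using Nat.le_induction with
  | base => omega
  | succ j _ ih =>
    have h1 := kap_convex V J j
    have e : j + 1 + 1 = j + 2 := rfl
    rw [e]
    omega

/-- GROW: bounded superabundance at `j` gives independence at `i ≤ j - B`. -/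
theorem grow (V : Submodule ℂ (MvPolynomial σ ℂ)) [FiniteDimensional ℂ V]
    (J : Finset σ) {i j B : ℕ} (hij : i + B ≤ j)
    (hB : kap V J j + (J.card + 1) * j ≤ finrank ℂ V + B) :
    kap V J i + (J.card + 1) * i = finrank ℂ V := by
  refine le_antisymm ?_ (kap_lower V J i)
  by_contra hcon
  push Not at hcon
  -- some step before `i` drops by at most `|J|`
  obtain ⟨t, hti, ht⟩ : ∃ t < i, kap V J t ≤ kap V J (t + 1) + J.card := by
    by_contra hno
    push Not at hno
    have : ∀ t ≤ i, kap V J t + (J.card + 1) * t ≤ finrank ℂ V := by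
      intro t
      induction t with
      | zero =>
        intro _
        rw [kap_zero]
        omega
      | succ t ih =>
        intro ht
        have h1 := ih (by omega)
        have h2 := hno t (by omega)
        have h3 : (J.card + 1) * (t + 1) = (J.card + 1) * t + (J.card + 1) := by ring
        omega
    have := this i le_rfl
    omega
  -- all later steps too
  have hlate : ∀ s, i ≤ s → kap V J s ≤ kap V J (s + 1) + J.card := by
    intro s hs
    have := kap_slope V J (i := t) (j := s) (by omega)
    omega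
  have hsum : ∀ s, kap V J i ≤ kap V J (i + s) + J.card * s := by
    intro s
    induction s with
    | zero => simp
    | succ s ih =>
      have h1 := hlate (i + s) (by omega)
      have h2 : J.card * (s + 1) = J.card * s + J.card := by ring
      rw [← add_assoc]
      omega
  have h1 := hsum (j - i)
  rw [Nat.add_sub_cancel' (by omega)] at h1
  obtain ⟨c, rfl⟩ : ∃ c, j = i + c := ⟨j - i, by omega⟩
  rw [Nat.add_sub_cancel_left] at h1
  have h2 : (J.card + 1) * (i + c) = (J.card + 1) * i + J.card * c + c := by ring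
  omega

end Pool.Agent.SV.A
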