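import Pool.Agent.Lib.MP_b54217_ag.E.Lo

/-!
# THEOREM A.  The minimal kernel `kap V J r` of `r` double points
-/

set_option autoImplicit false

namespace Pool.Agent.SV.A

open MvPolynomial Module Pool.Agent.SV.E

variable {σ : Type}

/-- The minimal dimension of the space of all elements of `V` which are double (value and
derivatives in the directions of `J`) at `r` points. -/
noncomputable def kap (V : Submodule ℂ (MvPolynomial σ ℂ)) (J : Finset σ) (r : ℕ) : ℕ :=
  sInf {c | ∃ y : Fin r → σ → ℂ, finrank ℂ (Z V (rowf J Finset.univ y)) = c}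

theorem kap_attained (V : Submodule ℂ (MvPolynomial σ ℂ)) (J : Finset σ) (r : ℕ) :
    ∃ y : Fin r → σ → ℂ, finrank ℂ (Z V (rowf J Finset.univ y)) = kap V J r :=
  Nat.sInf_mem (s := {c | ∃ y : Fin r → σ → ℂ, finrank ℂ (Z V (rowf J Finset.univ y)) = c})
    ⟨_, fun _ _ => 0, rfl⟩

theorem kap_le (V : Submodule ℂ (MvPolynomial σ ℂ)) (J : Finset σ) {r : ℕ}
    (y : Fin r → σ → ℂ) : kap V J r ≤ finrank ℂ (Z V (rowf J Finset.univ y)) :=
  Nat.sInf_le ⟨y, rfl⟩

/-- Reindexing. -/
theorem Z_rowf_equiv (V : Submodule ℂ (MvPolynomial σ ℂ)) (J : Finset σ) {I I' : Type}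
    [Fintype I] [Fintype I'] (e : I ≃ I') (y : I' → σ → ℂ) :
    Z V (rowf J Finset.univ (fun k => y (e k))) = Z V (rowf J Finset.univ y) := by
  ext f
  rw [mem_Z_rowf, mem_Z_rowf]
  refine and_congr_right fun _ => and_congr ?_ ?_
  · exact e.forall_congr_left.trans (by simp)
  · constructor
    · intro h k _ j hj
      have := h (e.symm k) (Finset.mem_univ _) j hj
      rwa [Equiv.apply_symm_apply] at this
    · intro h k _ j hj
      exact h (e k) (Finset.mem_univ _) j hj

theorem kap_le' (V : Submodule ℂ (MvPolynomial σ ℂ)) (J : Finset σ) {I : Type} [Fintype I]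
    (y : I → σ → ℂ) {r : ℕ} (hr : Fintype.card I = r) :
    kap V J r ≤ finrank ℂ (Z V (rowf J Finset.univ y)) := by
  let e := (Fintype.equivFinOfCardEq hr).symm
  rw [← Z_rowf_equiv V J e y]
  exact kap_le V J _

theorem kap_attained' (V : Submodule ℂ (MvPolynomial σ ℂ)) (J : Finset σ) {I : Type}
    [Fintype I] {r : ℕ} (hr : Fintype.card I = r) :
    ∃ y : I → σ → ℂ, finrank ℂ (Z V (rowf J Finset.univ y)) = kap V J r := by
  obtain ⟨y, hy⟩ := kap_attained V J r
  let e := Fintype.equivFinOfCardEq hr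
  exact ⟨fun k => y (e k), by rw [Z_rowf_equiv V J e y, hy]⟩

/-- General position: `kap` is attained in general position, for every polynomial family of
configurations which contains all of them. -/
theorem kap_gen (V : Submodule ℂ (MvPolynomial σ ℂ)) [FiniteDimensional ℂ V] (J : Finset σ)
    {I τ : Type} [Fintype I] {r : ℕ} (hr : Fintype.card I = r) (y : (τ → ℂ) → I → σ → ℂ)
    (hy : ∀ k i, IsPol fun p => y p k i) (hs : ∀ y0 : I → σ → ℂ, ∃ p, y p = y0) :
    Gen fun p => finrank ℂ (Z V (rowf J Finset.univ (y p))) ≤ kap V J r := by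
  obtain ⟨y0, hy0⟩ := kap_attained' V J hr
  obtain ⟨p0, hp0⟩ := hs y0
  refine semi_rowf J Finset.univ V y hy p0 (kap V J r) ?_
  rw [hp0, hy0]

/-- General position for polynomials without the variable `o`: the coordinates `o` of the points
may be anything. -/
theorem kap_gen_lo [DecidableEq σ] (o : σ) (A : Finset (σ →₀ ℕ)) (J : Finset σ) {I τ : Type}
    [Fintype I] {r : ℕ} (hr : Fintype.card I = r) (y : (τ → ℂ) → I → σ → ℂ)
    (hy : ∀ k i, IsPol fun p => y p k i)
    (hs : ∀ y0 : I → σ → ℂ, ∃ p, ∀ k i, i ≠ o → y p k i = y0 k i) :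
    Gen fun p => finrank ℂ (Z (H (lo o A)) (rowf J Finset.univ (y p))) ≤
      kap (H (lo o A)) J r := by
  obtain ⟨y0, hy0⟩ := kap_attained' (H (lo o A)) J hr
  obtain ⟨p0, hp0⟩ := hs y0
  refine semi_rowf J Finset.univ (H (lo o A)) y hy p0 (kap (H (lo o A)) J r) ?_
  rw [← hy0]
  refine Submodule.finrank_mono fun f hf => ?_
  rw [mem_Z_rowf] at hf ⊢
  obtain ⟨h1, h2, h3⟩ := hf
  have hupd : ∀ k, y p0 k = Function.update (y0 k) o (y p0 k o) := by
    intro k
    funext i
    by_cases h : i = o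
    · subst h
      simp
    · rw [Function.update_of_ne h, hp0 k i h]
  refine ⟨h1, fun k => ?_, fun k hk j hj => ?_⟩
  · have := h2 k
    rw [hupd k, ev_update h1] at this
    exact this
  · have := h3 k hk j hj
    rw [hupd k, dv_update h1] at this
    exact this

theorem kap_zero (V : Submodule ℂ (MvPolynomial σ ℂ)) (J : Finset σ) :
    kap V J 0 = finrank ℂ V := by
  obtain ⟨y, hy⟩ := kap_attained V J 0
  have h : Z V (rowf J Finset.univ y) = V := by
    apply le_antisymm (Z_le _ _)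
    intro f hf
    rw [mem_Z_rowf]
    exact ⟨hf, fun k => k.elim0, fun k => k.elim0⟩
  rw [← hy, h]

theorem kap_mono {V W : Submodule ℂ (MvPolynomial σ ℂ)} [FiniteDimensional ℂ W] (h : V ≤ W)
    (J : Finset σ) (r : ℕ) : kap V J r ≤ kap W J r := by
  obtain ⟨y, hy⟩ := kap_attained W J r
  rw [← hy]
  exact (kap_le V J y).trans (Submodule.finrank_mono (Z_mono h _))

/-- Fewer directions, larger kernel. -/
theorem kap_anti_dir (V : Submodule ℂ (MvPolynomial σ ℂ)) [FiniteDimensional ℂ V]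
    {J J' : Finset σ} (h : J' ⊆ J) (r : ℕ) : kap V J r ≤ kap V J' r := by
  obtain ⟨y, hy⟩ := kap_attained V J' r
  rw [← hy]
  refine (kap_le V J y).trans (Submodule.finrank_mono fun f hf => ?_)
  rw [mem_Z_rowf] at hf ⊢
  exact ⟨hf.1, hf.2.1, fun k hk j hj => hf.2.2 k hk j (h hj)⟩

theorem kap_lower (V : Submodule ℂ (MvPolynomial σ ℂ)) [FiniteDimensional ℂ V]
    (J : Finset σ) (r : ℕ) : finrank ℂ V ≤ kap V J r + (J.card + 1) * r := by
  obtain ⟨y, hy⟩ := kap_attained V J r
  have := le_finrank_Z V (rowf J Finset.univ y)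
  rw [hy, Fintype.card_sum, Fintype.card_prod, Fintype.card_fin, Fintype.card_coe,
    Fintype.card_coe, Finset.card_univ, Fintype.card_fin] at this
  have h2 : (J.card + 1) * r = r + r * J.card := by ring
  omega

/-- `h` double points and `e` simple points. -/
theorem kap_simple (V : Submodule ℂ (MvPolynomial σ ℂ)) [FiniteDimensional ℂ V]
    (J : Finset σ) {I : Type} [Fintype I] (B : Finset I) :
    ∃ y : I → σ → ℂ, finrank ℂ (Z V (rowf J B y)) ≤
      kap V J B.card - (Fintype.card I - B.card) := by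
  classical
  obtain ⟨y1, hy1⟩ := kap_attained V J B.card
  obtain ⟨y2, hy2⟩ := cut (P := σ → ℂ) (Z V (rowf J Finset.univ y1)) ev
    (fun f _ hf0 => exists_ev_ne hf0) Bᶜ.card
  let y : I → σ → ℂ := fun k =>
    if hk : k ∈ B then y1 (B.equivFin ⟨k, hk⟩)
    else y2 (Bᶜ.equivFin ⟨k, Finset.mem_compl.2 hk⟩)
  refine ⟨y, ?_⟩
  have hle : Z V (rowf J B y) ≤ Z (Z V (rowf J Finset.univ y1)) (fun k => ev (y2 k)) := by
    intro f hf
    rw [mem_Z_rowf] at hf
    obtain ⟨hf1, hf2, hf3⟩ := hf
    have hB : ∀ k : Fin B.card, y ((B.equivFin.symm k : B) : I) = y1 k := by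
      intro k
      simp [y]
    rw [mem_Z, mem_Z_rowf]
    refine ⟨⟨hf1, fun k => ?_, fun k _ j hj => ?_⟩, fun k => ?_⟩
    · rw [← hB k]
      exact hf2 _
    · rw [← hB k]
      exact hf3 _ (Subtype.property _) j hj
    · have hk : ((Bᶜ.equivFin.symm k : (Bᶜ : Finset I)) : I) ∉ B :=
        Finset.mem_compl.1 (Subtype.property _)
      have : y ((Bᶜ.equivFin.symm k : (Bᶜ : Finset I)) : I) = y2 k := by
        simp only [y, dif_neg hk]
        simp
      rw [← this]
      exact hf2 _
  have h1 := Submodule.finrank_mono hle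
  have h2 : Bᶜ.card = Fintype.card I - B.card := Finset.card_compl B
  rw [hy1] at hy2
  omega

/-- One more double point cuts the kernel. -/
theorem kap_succ_le (V : Submodule ℂ (MvPolynomial σ ℂ)) [FiniteDimensional ℂ V]
    (J : Finset σ) (r : ℕ) : kap V J (r + 1) ≤ kap V J r - 1 := by
  obtain ⟨y1, hy1⟩ := kap_attained V J r
  obtain ⟨y2, hy2⟩ := cut (P := σ → ℂ) (Z V (rowf J Finset.univ y1)) ev
    (fun f _ hf0 => exists_ev_ne hf0) 1
  rw [hy1] at hy2
  refine le_trans (kap_le V J (Fin.cons (y2 0) y1 : Fin (r + 1) → σ → ℂ)) (le_trans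
    (Submodule.finrank_mono fun f hf => ?_) hy2)
  rw [mem_Z_rowf] at hf
  obtain ⟨hf1, hf2, hf3⟩ := hf
  rw [mem_Z, mem_Z_rowf]
  refine ⟨⟨hf1, fun k => by simpa using hf2 k.succ, fun k _ j hj => by
    simpa using hf3 k.succ (Finset.mem_univ _) j hj⟩, fun k => ?_⟩
  rw [Subsingleton.elim k 0]
  simpa using hf2 0

theorem kap_add_le (V : Submodule ℂ (MvPolynomial σ ℂ)) [FiniteDimensional ℂ V]
    (J : Finset σ) (r j : ℕ) : kap V J (r + j) ≤ kap V J r - j := by
  induction j with
  | zero => simp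
  | succ j ih =>
    have := kap_succ_le V J (r + j)
    rw [← add_assoc]
    omega

theorem kap_antitone (V : Submodule ℂ (MvPolynomial σ ℂ)) [FiniteDimensional ℂ V]
    (J : Finset σ) {r r' : ℕ} (h : r ≤ r') : kap V J r' ≤ kap V J r - (r' - r) := by
  have := kap_add_le V J r (r' - r)
  rwa [Nat.add_sub_cancel' h] at this

/-- Dropping one point. -/
theorem kap_drop (V : Submodule ℂ (MvPolynomial σ ℂ)) [FiniteDimensional ℂ V]
    (J : Finset σ) (r : ℕ) : kap V J r ≤ kap V J (r + 1) + (J.card + 1) := by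
  classical
  obtain ⟨y, hy⟩ := kap_attained V J (r + 1)
  let W := Z V (rowf J Finset.univ (fun k : Fin r => y k.castSucc))
  have h1 : kap V J r ≤ finrank ℂ W := kap_le V J _
  have h2 := le_finrank_Z W (fun x : Option J =>
    match x with | none => ev (y (Fin.last r)) | some j => dv j.1 (y (Fin.last r)))
  rw [Fintype.card_option, Fintype.card_coe] at h2
  have h3 : Z W (fun x : Option J =>
      match x with | none => ev (y (Fin.last r)) | some j => dv j.1 (y (Fin.last r))) ≤
      Z V (rowf J Finset.univ y) := by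
    intro f hf
    rw [mem_Z] at hf
    obtain ⟨hf1, hf2⟩ := hf
    have hf1' : f ∈ Z V (rowf J Finset.univ (fun k : Fin r => y k.castSucc)) := hf1
    rw [mem_Z_rowf] at hf1'
    obtain ⟨g1, g2, g3⟩ := hf1'
    rw [mem_Z_rowf]
    refine ⟨g1, fun k => ?_, fun k _ j hj => ?_⟩
    · refine Fin.lastCases ?_ (fun k => ?_) k
      · exact hf2 none
      · exact g2 k
    · refine Fin.lastCases (motive := fun k => dv j (y k) f = 0) ?_ (fun k => ?_) k
      · exact hf2 (some ⟨j, hj⟩)
      · exact g3 k (Finset.mem_univ _) j hj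
  have h4 := Submodule.finrank_mono h3
  omega

end Pool.Agent.SV.A
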