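import Pool.Agent.Lib.MP_b54217_ag.A.LinD

/-!
# THEOREM B.  A linear block: rows
-/

set_option autoImplicit false

namespace Pool.Agent.SV.A

open MvPolynomial Module Pool.Agent.SV.E
open Pool.Agent.SV.G (Sg DD mem_DD)

variable {k : ℕ} {M : Fin k → ℕ}

/-- The special value of the coordinates of the block `i`: `0` for `none`, the unit vector for
`some x`. -/
noncomputable def vl {S : Finset (Sg M)} {i : Fin k} : Option (Vi S i) → Sg M → ℂ
  | none => 0
  | some x => Pi.single x.1 1

/-- The point with block coordinates `vl l` and the other coordinates of `y`. -/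
noncomputable def pl {S : Finset (Sg M)} {i : Fin k} (l : Option (Vi S i)) (y : Sg M → ℂ) :
    Sg M → ℂ :=
  fun x => if x.1 = i then vl l x else y x

/-- The substitution of `vl l` for the block `i`. -/
private noncomputable def sbl {S : Finset (Sg M)} {i : Fin k} (l : Option (Vi S i)) :
    MvPolynomial (Sg M) ℂ →ₐ[ℂ] MvPolynomial (Sg M) ℂ :=
  aeval fun x => if x.1 = i then C (vl l x) else X x

private theorem ev_sbl {S : Finset (Sg M)} {i : Fin k} (l : Option (Vi S i)) (y : Sg M → ℂ)
    (F : MvPolynomial (Sg M) ℂ) : ev y (sbl l F) = ev (pl l y) F := by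
  rw [ev_apply, ev_apply]
  induction F using MvPolynomial.induction_on with
  | C a => simp [sbl]
  | add f g hf hg => rw [map_add, map_add, map_add, hf, hg]
  | mul_X f x hf =>
    rw [map_mul, map_mul, map_mul, hf]
    congr 1
    rw [sbl, aeval_X, eval_X]
    by_cases h : x.1 = i
    · simp [pl, h]
    · simp [pl, h]

private theorem pl_of_ne {S : Finset (Sg M)} {i : Fin k} (l : Option (Vi S i)) (y : Sg M → ℂ)
    {x : Sg M} (hx : x.1 ≠ i) : pl l y x = y x := by
  rw [pl, if_neg hx]

private theorem pl_of_eq {S : Finset (Sg M)} {i : Fin k} (l : Option (Vi S i)) (y : Sg M → ℂ)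
    {x : Sg M} (hx : x.1 = i) : pl l y x = vl l x := by
  rw [pl, if_pos hx]

private theorem sbl_eq {S : Finset (Sg M)} {δ : Fin k → ℕ} {i : Fin k} (l : Option (Vi S i))
    {G : MvPolynomial (Sg M) ℂ} (hG : G ∈ H (DS (wb S i) δ)) : sbl l G = G := by
  refine MvPolynomial.funext fun y => ?_
  rw [← ev_apply, ← ev_apply, ev_sbl]
  exact ev_congr_wb hG fun x hx => pl_of_ne l y hx

/-- The rows. -/
private theorem sbl_decomp {S : Finset (Sg M)} {δ : Fin k → ℕ} {i : Fin k}
    (l : Option (Vi S i)) {F G : MvPolynomial (Sg M) ℂ} {f : Vi S i → MvPolynomial (Sg M) ℂ}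
    (hG : G ∈ H (DS (wb S i) δ)) (hf : ∀ x, f x ∈ H (DS (wb S i) δ))
    (hF : F = G + ∑ x, X x.1 * f x) : sbl l F = G + ∑ x : Vi S i, vl l x.1 • f x := by
  rw [hF, map_add, sbl_eq l hG, map_sum]
  congr 1
  refine Finset.sum_congr rfl fun x _ => ?_
  rw [map_mul, sbl_eq l (hf x), sbl, aeval_X, if_pos x.2.2, C_mul']

/-- The rows `F_l = F |_(block i = v_l)`: `F_none = G`, `F_(some x) = G + f x`; the kernel of the
double points `(v_(l k), y k)` is contained in the image of the product of the rows: `F_l` double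
(directions `wb S i`) at the own points, simple at the others. -/
theorem lin_config (S : Finset (Sg M)) (δ : Fin k → ℕ) (i : Fin k) (hδ : δ i = 1) {I : Type}
    [Fintype I] [DecidableEq (Option (Vi S i))] (l : I → Option (Vi S i)) (y : I → Sg M → ℂ) :
    finrank ℂ (Z (H (DS S δ)) (rowf S Finset.univ fun a => pl (l a) (y a))) ≤
      ∑ c : Option (Vi S i), finrank ℂ (Z (H (DS (wb S i) δ))
        (rowf (wb S i) (Finset.univ.filter fun a => l a = c) y)) := by
  have hmem : ∀ (c : Option (Vi S i)) (F : MvPolynomial (Sg M) ℂ),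
      F ∈ Z (H (DS S δ)) (rowf S Finset.univ fun a => pl (l a) (y a)) →
      sbl c F ∈ Z (H (DS (wb S i) δ))
        (rowf (wb S i) (Finset.univ.filter fun a => l a = c) y) := by
    intro c F hF
    rw [mem_Z_rowf] at hF
    obtain ⟨hF1, hF2, hF3⟩ := hF
    obtain ⟨G, hG, f, hf, hFG⟩ := lin_decomp S δ i hδ hF1
    have hdec := sbl_decomp c hG hf hFG
    -- the derivative in a direction of the block
    have hfx : ∀ (a : I) (x : Vi S i), ev (y a) (f x) = 0 := by
      intro a x
      have h1 := hF3 a (Finset.mem_univ _) x.1 x.2.1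
      rw [hFG, map_add, map_sum, dv_wb_zero hG x.2.2, zero_add,
        Finset.sum_eq_single x] at h1
      · rw [dv_Xmul, if_pos rfl, dv_wb_zero (hf x) x.2.2, mul_zero, add_zero] at h1
        rw [← h1]
        exact (ev_congr_wb (hf x) fun z hz => pl_of_ne _ _ hz).symm
      · intro x' _ hx'
        rw [dv_Xmul, if_neg, dv_wb_zero (hf x') x.2.2, mul_zero, add_zero]
        intro h
        exact hx' (Subtype.ext h.symm)
      · intro h
        exact absurd (Finset.mem_univ _) h
    have hGx : ∀ a : I, ev (y a) G = 0 := by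
      intro a
      have h1 := hF2 a
      rw [← ev_sbl, sbl_decomp (l a) hG hf hFG, map_add, map_sum,
        Finset.sum_eq_zero, add_zero] at h1
      · exact h1
      · intro x _
        rw [map_smul, hfx, smul_zero]
    rw [mem_Z_rowf]
    refine ⟨?_, fun a => ?_, fun a ha j hj => ?_⟩
    · rw [hdec]
      exact Submodule.add_mem _ hG (Submodule.sum_mem _ fun x _ => Submodule.smul_mem _ _ (hf x))
    · rw [hdec, map_add, map_sum, hGx, zero_add]
      exact Finset.sum_eq_zero fun x _ => by rw [map_smul, hfx, smul_zero]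
    · have hla : l a = c := (Finset.mem_filter.1 ha).2
      have hj' := mem_wb.1 hj
      have h1 := hF3 a (Finset.mem_univ _) j hj'.1
      rw [hFG, map_add, map_sum] at h1
      rw [hdec, map_add, map_sum, ← h1]
      congr 1
      · exact dv_congr_wb hG j fun z hz => (pl_of_ne _ _ hz).symm
      · refine Finset.sum_congr rfl fun x _ => ?_
        rw [map_smul, dv_Xmul, if_neg, zero_add, pl_of_eq _ _ x.2.2, hla, smul_eq_mul]
        · congr 1
          exact dv_congr_wb (hf x) j fun z hz => (pl_of_ne _ _ hz).symm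
        · intro h
          exact hj'.2 (h ▸ x.2.2)
  let Φ : Z (H (DS S δ)) (rowf S Finset.univ fun a => pl (l a) (y a)) →ₗ[ℂ]
      ((c : Option (Vi S i)) → Z (H (DS (wb S i) δ))
        (rowf (wb S i) (Finset.univ.filter fun a => l a = c) y)) :=
    LinearMap.pi fun c => LinearMap.restrict (sbl c).toLinearMap (hmem c)
  have hinj : Function.Injective Φ := by
    rw [← LinearMap.ker_eq_bot, LinearMap.ker_eq_bot']
    rintro ⟨F, hF⟩ h0
    obtain ⟨G, hG, f, hf, hFG⟩ := lin_decomp S δ i hδ (mem_Z_rowf.1 hF).1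
    have h1 : ∀ c : Option (Vi S i), sbl c F = 0 := fun c =>
      congrArg Subtype.val (congrFun h0 c)
    have hG0 : G = 0 := by
      have h2 := h1 none
      rw [sbl_decomp none hG hf hFG] at h2
      simpa [vl] using h2
    have hf0 : ∀ x, f x = 0 := by
      intro x
      have h2 := h1 (some x)
      rw [sbl_decomp (some x) hG hf hFG, hG0, zero_add, Finset.sum_eq_single x] at h2
      · simpa [vl] using h2
      · intro x' _ hx'
        have h3 : x'.1 ≠ x.1 := fun h => hx' (Subtype.ext h)
        rw [vl, Pi.single_eq_of_ne h3, zero_smul]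
      · intro h
        exact absurd (Finset.mem_univ _) h
    apply Subtype.ext
    change F = 0
    rw [hFG, hG0, zero_add]
    exact Finset.sum_eq_zero fun x _ => by rw [hf0, mul_zero]
  have h1 := LinearMap.finrank_le_finrank_of_injective hinj
  rw [finrank_pi_fintype] at h1
  exact h1

/-- `ρ l` points on the row `l`. -/
theorem lin (S : Finset (Sg M)) (δ : Fin k → ℕ) (i : Fin k) (hδ : δ i = 1)
    (ρ : Option (Vi S i) → ℕ) :
    kS S δ (∑ l, ρ l) ≤ ∑ l, (kS (wb S i) δ (ρ l) - (∑ l', ρ l' - ρ l)) := by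
  classical
  let I : Type := (l : Option (Vi S i)) × Fin (ρ l)
  have hI : Fintype.card I = ∑ l, ρ l := by
    simp [I]
  let B : Option (Vi S i) → Finset I := fun c => Finset.univ.filter fun a : I => a.1 = c
  have hB : ∀ c, (B c).card = ρ c := by
    intro c
    have h1 : B c = (Finset.univ : Finset (Fin (ρ c))).map
        ⟨fun t => (⟨c, t⟩ : I), fun a b h => by simpa using h⟩ := by
      ext ⟨c', t⟩
      simp only [B, Finset.mem_filter, Finset.mem_univ, true_and, Finset.mem_map,
        Function.Embedding.coeFn_mk]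
      constructor
      · rintro rfl
        exact ⟨t, rfl⟩
      · rintro ⟨t', h⟩
        exact (congrArg Sigma.fst h).symm
    rw [h1, Finset.card_map, Finset.card_univ, Fintype.card_fin]
  have hgen : Gen fun p : I × Sg M → ℂ => ∀ c : Option (Vi S i),
      finrank ℂ (Z (H (DS (wb S i) δ)) (rowf (wb S i) (B c) fun a x => p (a, x))) ≤
        kS (wb S i) δ (ρ c) - (∑ l', ρ l' - ρ c) := by
    refine Gen.forall fun c => ?_
    obtain ⟨y0, hy0⟩ := kap_simple (H (DS (wb S i) δ)) (wb S i) (B c)
    rw [hB, hI] at hy0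
    exact semi_rowf (wb S i) (B c) (H (DS (wb S i) δ)) (fun p a x => p (a, x))
      (fun a x => IsPol.coord _) (fun q => y0 q.1 q.2) _ hy0
  obtain ⟨p, hp⟩ := hgen.exists
  refine (kap_le' (H (DS S δ)) S (fun a : I => pl a.1 fun x => p (a, x)) hI).trans ?_
  refine (lin_config S δ i hδ (fun a : I => a.1) fun a x => p (a, x)).trans ?_
  exact Finset.sum_le_sum fun c _ => hp c

end Pool.Agent.SV.A
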