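import Pool.Agent.Lib.MP_b54217_ag.A.Bas

/-!
# THEOREM B.  A linear block: decomposition
-/

set_option autoImplicit false

namespace Pool.Agent.SV.A

open MvPolynomial Module Pool.Agent.SV.E
open Pool.Agent.SV.G (Sg DD mem_DD)

variable {k : ℕ} {M : Fin k → ℕ}

/-- The variables of `S` in the block `i`. -/
abbrev Vi (S : Finset (Sg M)) (i : Fin k) : Type := {x : Sg M // x ∈ S ∧ x.1 = i}

/-- Two variables of one block whose exponents sum to at most one. -/
private theorem eq_of_sum_le_one {a : Sg M →₀ ℕ} {i : Fin k} (h : ∑ j, a ⟨i, j⟩ ≤ 1)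
    {x y : Sg M} (hx : x.1 = i) (hy : y.1 = i) (hx0 : a x ≠ 0) (hy0 : a y ≠ 0) : x = y := by
  classical
  obtain ⟨i1, j1⟩ := x
  obtain ⟨i2, j2⟩ := y
  simp only at hx hy
  subst hx
  subst hy
  by_contra hne
  have hne' : j1 ≠ j2 := by
    rintro rfl
    exact hne rfl
  have h1 : ∑ j ∈ {j1, j2}, a ⟨_, j⟩ ≤ ∑ j, a ⟨_, j⟩ :=
    Finset.sum_le_sum_of_subset (Finset.subset_univ _)
  rw [Finset.sum_pair hne'] at h1
  omega

/-- Polynomials of degree `≤ 1` in the block `i`: `F = G + ∑ X_x F_x`. -/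
theorem lin_decomp (S : Finset (Sg M)) (δ : Fin k → ℕ) (i : Fin k) (hδ : δ i = 1)
    {F : MvPolynomial (Sg M) ℂ} (hF : F ∈ H (DS S δ)) :
    ∃ G ∈ H (DS (wb S i) δ), ∃ f : Vi S i → MvPolynomial (Sg M) ℂ,
      (∀ x, f x ∈ H (DS (wb S i) δ)) ∧ F = G + ∑ x, X x.1 * f x := by
  classical
  have hdm : dm i δ i = 0 := by simp [dm, hδ]
  refine ⟨F - ∑ x : Vi S i, X x.1 * F.divMonomial (Finsupp.single x.1 1), ?_,
    fun x => F.divMonomial (Finsupp.single x.1 1), fun x => ?_, by simp⟩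
  · rw [mem_H']
    rw [mem_H'] at hF
    intro a ha
    have hterm : ∀ x : Vi S i, coeff a (X x.1 * F.divMonomial (Finsupp.single x.1 1)) =
        if a x.1 ≠ 0 then coeff a F else 0 := by
      intro x
      rw [coeff_X_mul']
      by_cases hax : a x.1 = 0
      · rw [if_neg (by simpa using hax), if_neg (by simpa using hax)]
      · rw [if_pos (Finsupp.mem_support_iff.2 hax), if_pos hax, coeff_divMonomial]
        congr 1
        refine add_tsub_cancel_of_le ?_
        rw [Finsupp.single_le_iff]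
        exact Nat.one_le_iff_ne_zero.2 hax
    rw [coeff_sub, coeff_sum, Finset.sum_congr rfl fun x _ => hterm x]
    by_cases haS : a ∈ DS S δ
    · obtain ⟨y, hyS, hy0⟩ : ∃ y, y ∉ wb S i ∧ a y ≠ 0 := by
        by_contra hcon
        push Not at hcon
        exact ha (mem_DS.2 ⟨(mem_DS.1 haS).1, hcon⟩)
      have hyS' : y ∈ S := by
        by_contra h
        exact hy0 ((mem_DS.1 haS).2 y h)
      have hyi : y.1 = i := by
        by_contra h
        exact hyS (mem_wb.2 ⟨hyS', h⟩)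
      have hsum := (mem_DS.1 haS).1 i
      rw [hδ] at hsum
      rw [Finset.sum_eq_single (⟨y, hyS', hyi⟩ : Vi S i), if_pos hy0, sub_self]
      · intro x _ hx
        rw [if_neg]
        intro hx0
        exact hx (Subtype.ext (eq_of_sum_le_one hsum x.2.2 hyi hx0 hy0))
      · intro h
        exact absurd (Finset.mem_univ _) h
    · rw [hF a haS]
      simp
  · rw [mem_H']
    rw [mem_H'] at hF
    intro a ha
    rw [coeff_divMonomial]
    refine hF _ fun h' => ha ?_
    rw [add_comm, mem_DS_add x.2.1 (by rw [x.2.2, hδ]), x.2.2, DS_wb S i hdm] at h'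
    exact DS_mono (dm_le i δ) h'

/-- The value depends only on the coordinates which occur. -/
private theorem ev_congr_supp {G : MvPolynomial (Sg M) ℂ} {y z : Sg M → ℂ}
    (h : ∀ a ∈ G.support, ∀ x, a x ≠ 0 → y x = z x) : ev y G = ev z G := by
  rw [ev_apply, ev_apply, eval_eq, eval_eq]
  refine Finset.sum_congr rfl fun a ha => ?_
  congr 1
  refine Finset.prod_congr rfl fun x hx => ?_
  rw [h a ha x (Finsupp.mem_support_iff.1 hx)]

/-- The variables of the block `i` do not occur. -/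
private theorem ne_of_mem_wb {S : Finset (Sg M)} {δ : Fin k → ℕ} {i : Fin k}
    {G : MvPolynomial (Sg M) ℂ} (hG : G ∈ H (DS (wb S i) δ)) {a : Sg M →₀ ℕ}
    (ha : a ∈ G.support) {x : Sg M} (hx : a x ≠ 0) : x.1 ≠ i := by
  have h1 := mem_H.1 hG ha
  by_contra h
  exact hx ((mem_DS.1 h1).2 x fun h' => (mem_wb.1 h').2 h)

/-- The coordinates of the block `i` do not matter for polynomials in the variables `wb S i`. -/
theorem ev_congr_wb {S : Finset (Sg M)} {δ : Fin k → ℕ} {i : Fin k}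
    {G : MvPolynomial (Sg M) ℂ} (hG : G ∈ H (DS (wb S i) δ)) {y z : Sg M → ℂ}
    (h : ∀ x : Sg M, x.1 ≠ i → y x = z x) : ev y G = ev z G :=
  ev_congr_supp fun _ ha x hx => h x (ne_of_mem_wb hG ha hx)

theorem dv_congr_wb {S : Finset (Sg M)} {δ : Fin k → ℕ} {i : Fin k}
    {G : MvPolynomial (Sg M) ℂ} (hG : G ∈ H (DS (wb S i) δ)) {y z : Sg M → ℂ} (j : Sg M)
    (h : ∀ x : Sg M, x.1 ≠ i → y x = z x) : dv j y G = dv j z G := by
  rw [dv_apply, dv_apply, ← ev_apply, ← ev_apply]
  refine ev_congr_supp fun a ha x hx => h x ?_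
  rw [MvPolynomial.mem_support_iff, coeff_pderiv] at ha
  have h1 : a + Finsupp.single j 1 ∈ G.support :=
    MvPolynomial.mem_support_iff.2 (left_ne_zero_of_mul ha)
  refine ne_of_mem_wb hG h1 ?_
  rw [Finsupp.add_apply]
  omega

theorem dv_wb_zero {S : Finset (Sg M)} {δ : Fin k → ℕ} {i : Fin k}
    {G : MvPolynomial (Sg M) ℂ} (hG : G ∈ H (DS (wb S i) δ)) {j : Sg M} (hj : j.1 = i)
    (y : Sg M → ℂ) : dv j y G = 0 := by
  classical
  rw [dv_apply, pderiv_eq_zero_of_notMem_vars, map_zero]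
  rw [mem_vars_iff_mem_support]
  rintro ⟨a, ha, ho⟩
  exact ne_of_mem_wb hG ha (Finsupp.mem_support_iff.1 ho) hj

end Pool.Agent.SV.A
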