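import Pool.Agent.Lib.MP_b54217_ag.A.Lin

/-!
# THEOREM B.  A linear block: `Psub` without the block gives bounded superabundance
-/

set_option autoImplicit false

namespace Pool.Agent.SV.A

open MvPolynomial Module Pool.Agent.SV.E
open Pool.Agent.SV.G (Sg DD mem_DD)

variable {k : ℕ} {M : Fin k → ℕ}

/-- Distribution of `r` points on `|ι|` rows. -/
theorem exists_distr {ι : Type} [Fintype ι] [Nonempty ι] (r : ℕ) :
    ∃ ρ : ι → ℕ, ∑ l, ρ l = r ∧ ∀ l, r ≤ Fintype.card ι * ρ l + (Fintype.card ι - 1) ∧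
      Fintype.card ι * ρ l ≤ r + (Fintype.card ι - 1) := by
  classical
  have e := Fintype.equivFin ι
  have hn : 0 < Fintype.card ι := Fintype.card_pos
  generalize hN : Fintype.card ι = n at e hn ⊢
  have hdm : n * (r / n) + r % n = r := Nat.div_add_mod r n
  have hlt : r % n < n := Nat.mod_lt r hn
  refine ⟨fun l => r / n + if (e l : ℕ) < r % n then 1 else 0, ?_, fun l => ?_⟩
  · rw [Finset.sum_add_distrib, Finset.sum_const, Finset.card_univ, hN, smul_eq_mul,
      Equiv.sum_comp e (fun t : Fin n => if (t : ℕ) < r % n then 1 else 0),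
      Fin.sum_univ_eq_sum_range (fun t : ℕ => if t < r % n then 1 else 0) n,
      ← Finset.sum_filter, Finset.sum_const, smul_eq_mul, mul_one]
    have h1 : (Finset.range n).filter (fun t => t < r % n) = Finset.range (r % n) := by
      ext t
      simp only [Finset.mem_filter, Finset.mem_range]
      omega
    rw [h1, Finset.card_range, hdm]
  · dsimp only
    split_ifs with h
    · rw [mul_add, mul_one]
      omega
    · rw [add_zero]
      omega

/-- `|DS S δ| = (b + 1) |DS (wb S i) δ|`. -/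
theorem card_lin (S : Finset (Sg M)) (δ : Fin k → ℕ) (i : Fin k) (hδ : δ i = 1) :
    (DS S δ).card = (bs S i + 1) * (DS (wb S i) δ).card := by
  have h1 := ratio S δ i (by rw [hδ])
  have hdm : dm i δ i = 0 := by simp [dm, hδ]
  have h2 : DS S (dm i δ) = DS (wb S i) δ := by
    rw [DS_wb S i hdm]
    refine DS_congr fun x hx => ?_
    rw [dm, if_neg]
    rintro rfl
    exact (mem_wb.1 hx).2 rfl
  rw [hδ, mul_one, h2] at h1
  rw [h1, mul_comm]

/-- `SB.of_le`, `lin` with `exists_distr` (`|Option (Vi S i)| = bs S i + 1`), and `Psub`: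
`(|S⁻| + 2) (ρ l - 1) ≤ |A⁻|`.  Row `l` has dimension `(|A⁻| - |S⁻| ρ l - r)^+`, the sum of the
integers is `|A| - (|S| + 1) r ≥ 0`, and each of them is `≥ -(|S⁻| + 1)`. -/
theorem linSB {j i : Fin k} {S : Finset (Sg M)} (hne : ∃ x ∈ S, x.1 = i)
    (h : Psub j (wb S i)) :
    ∃ K d0, ∀ δ, Adm j d0 δ → δ i = 1 → SB S δ K := by
  classical
  obtain ⟨d0, h⟩ := h
  refine ⟨(bs S i + 1) * (wb S i).card + (S.card + 1), d0, fun δ hδ hi => ?_⟩
  refine SB.of_le fun r hr => ?_
  have hcl := card_lin S δ i hi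
  have hcw := card_wb S i
  have hVi : Fintype.card (Vi S i) = bs S i := by
    have h1 : Fintype.card (Vi S i) = (S.filter fun x => ¬ x.1 ≠ i).card := by
      rw [Fintype.card_subtype]
      congr 1
      ext x
      simp
    have h2 := Finset.card_filter_add_card_filter_not (s := S) (fun x : Sg M => x.1 ≠ i)
    rw [← h1] at h2
    have h3 : (wb S i).card = (S.filter fun x : Sg M => x.1 ≠ i).card := rfl
    omega
  have hcO : Fintype.card (Option (Vi S i)) = bs S i + 1 := by
    rw [Fintype.card_option, hVi]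
  have hb : 1 ≤ bs S i := by
    obtain ⟨x, hx, hxi⟩ := hne
    rw [← hVi]
    exact Fintype.card_pos_iff.2 ⟨⟨x, hx, hxi⟩⟩
  obtain ⟨ρ, hρs, hρ⟩ := exists_distr (ι := Option (Vi S i)) r
  rw [hcO] at hρ
  have hlin := lin S δ i hi ρ
  rw [hρs] at hlin
  set b := bs S i with hbdef
  set s := (wb S i).card with hs
  set A := (DS (wb S i) δ).card with hA
  have hScard : S.card = s + b := hcw.symm
  rw [hcl] at hr ⊢
  rw [hScard] at hr ⊢
  -- the rows
  have hrow : ∀ l, ((kS (wb S i) δ (ρ l) - (r - ρ l) : ℕ) : ℤ) ≤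
      ((A : ℤ) - s * ρ l - r) + s := by
    intro l
    obtain ⟨h1, h2⟩ := hρ l
    rw [Nat.add_sub_cancel] at h1 h2
    have hρr : ρ l ≤ r := by
      rw [← hρs]
      exact Finset.single_le_sum (f := ρ) (fun _ _ => Nat.zero_le _) (Finset.mem_univ l)
    have hP := h δ hδ (ρ l) (by
      rw [← hA]
      rcases Nat.eq_zero_or_pos (ρ l) with h0 | h0
      · rw [h0]
        omega
      · obtain ⟨c, hc⟩ : ∃ c, ρ l = c + 1 := ⟨ρ l - 1, by omega⟩
        rw [hc] at h2 ⊢
        have h3 : (b + 1) * c ≤ r := by nlinarith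
        have h4 : (b + 1) * ((s + b + 1) * c) ≤ (b + 1) * A := by
          calc (b + 1) * ((s + b + 1) * c) = (s + b + 1) * ((b + 1) * c) := by ring
            _ ≤ (s + b + 1) * r := Nat.mul_le_mul_left _ h3
            _ ≤ (b + 1) * A := hr
        have h5 : (s + b + 1) * c ≤ A := Nat.le_of_mul_le_mul_left h4 (by omega)
        have h6 : (s + 2) * c ≤ (s + b + 1) * c := Nat.mul_le_mul_right _ (by omega)
        calc (s + 2) * (c + 1) = (s + 2) * c + (s + 2) := by ring
          _ ≤ A + (s + 2) := by omega)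
    rw [← hA] at hP
    -- lower bound of the integer
    have h7 : (0 : ℤ) ≤ ((A : ℤ) - s * ρ l - r) + s := by
      have e1 : ((b : ℤ) + 1) * ρ l ≤ r + b := by exact_mod_cast h2
      have e2 : ((s : ℤ) + b + 1) * r ≤ (b + 1) * A := by exact_mod_cast hr
      have e3 : (0 : ℤ) ≤ (b + 1) * (((A : ℤ) - s * ρ l - r) + s) := by
        have e4 : (s : ℤ) * ((b + 1) * ρ l) ≤ s * (r + b) :=
          mul_le_mul_of_nonneg_left e1 (by positivity)
        nlinarith
      exact nonneg_of_mul_nonneg_right (by linarith : (0 : ℤ) ≤ (b + 1) * _) (by positivity)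
    have h8 : ((kS (wb S i) δ (ρ l) : ℕ) : ℤ) = A - (s + 1) * ρ l := by
      have : ((kS (wb S i) δ (ρ l) + (s + 1) * ρ l : ℕ) : ℤ) = A := by rw [hP]
      push_cast at this
      linarith
    rcases le_total (r - ρ l) (kS (wb S i) δ (ρ l)) with h9 | h9
    · rw [Nat.cast_sub h9, Nat.cast_sub hρr, h8]
      have : (0 : ℤ) ≤ s := by positivity
      linarith
    · rw [Nat.sub_eq_zero_of_le h9]
      exact_mod_cast h7
  have hsum : ((∑ l, (kS (wb S i) δ (ρ l) - (r - ρ l)) : ℕ) : ℤ) ≤
      (b + 1) * A - (s + b + 1) * r + (b + 1) * s := by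
    rw [Nat.cast_sum]
    refine (Finset.sum_le_sum fun l _ => hrow l).trans (le_of_eq ?_)
    have hρz : ∑ l, (ρ l : ℤ) = r := by exact_mod_cast hρs
    rw [Finset.sum_add_distrib, Finset.sum_sub_distrib, Finset.sum_sub_distrib,
      ← Finset.mul_sum, hρz]
    simp only [Finset.sum_const, Finset.card_univ, hcO, nsmul_eq_mul]
    push_cast
    ring
  have hfin : ((kS S δ r : ℕ) : ℤ) ≤ (b + 1) * A - (s + b + 1) * r + (b + 1) * s :=
    le_trans (by exact_mod_cast hlin) hsum
  zify [hr]
  linarith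

end Pool.Agent.SV.A
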