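import Pool.Agent.Lib.MP_b54217_ag.A.One

/-!
# THEOREM B.  The main step
-/

set_option autoImplicit false

namespace Pool.Agent.SV.A

open MvPolynomial Module Pool.Agent.SV.E

/-- An element which vanishes on `T` and is double at points off `T`. -/
theorem eq_zero_of_T {σ : Type} [DecidableEq σ] (o : σ) (D : Finset (σ →₀ ℕ))
    {I : Type} (c : I → σ → ℂ) (hc : ∀ k, c k o ≠ 0) {F : MvPolynomial σ ℂ} (hF : F ∈ H D)
    (h1 : ∀ k, ev (c k) F = 0) (h2 : ∀ k i, dv i (c k) F = 0)
    (h3 : ∀ y : σ → ℂ, ev (Function.update y o 0) F = 0)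
    (h5 : ∀ F'' ∈ H (dw o D), (∀ k, ev (c k) F'' = 0) → (∀ k i, dv i (c k) F'' = 0) → F'' = 0) :
    F = 0 := by
  obtain ⟨G, hG, F'', hF'', hFG⟩ := exists_decomp o hF
  have hG0 : G = 0 := by
    by_contra hG0
    obtain ⟨y, hy⟩ := exists_ev_ne hG0
    apply hy
    have := h3 y
    rw [hFG, map_add, ev_Xmul, Function.update_self, zero_mul, add_zero, ev_update hG] at this
    exact this
  rw [hG0, zero_add] at hFG
  have hev : ∀ k, ev (c k) F'' = 0 := by
    intro k
    have := h1 k
    rw [hFG, ev_Xmul] at this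
    exact (mul_eq_zero.1 this).resolve_left (hc k)
  have := h5 F'' hF'' hev fun k i => by
    have := h2 k i
    rw [hFG, dv_Xmul, hev k, ite_self, zero_add] at this
    exact (mul_eq_zero.1 this).resolve_left (hc k)
  rw [hFG, this, mul_zero]

/-- `b` (`β` points on `T`): `kap_gen_lo` for `H (lo o (dw o A))`, and the trace for one fixed
choice of the `a` points (`kap_gen_lo` for `H (lo o A)`, then `β` simple points, `m a + β = |A0|`).
`V_T = Z (H (dw o A)) (rowf (J0 o) univ b)` has dimension `|A'| - m β` (`finrank_Z_add_le_of_le`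
with `H (lo o (dw o A)) ≤ H (dw o A)`).  `c`: `kap_gen` for `V_T`, `univ`, `γ` (`grow` on `V_T`
with `kap_mono`: `kap V_T univ γ + (m+1) γ = dim V_T`), `kap_gen` for `H (dw o (dw o A))`, and
`c_o ≠ 0`.  Then `a`: the trace is zero for general `a`, and the values at `a` cut the residual
space one by one (an element which vanishes on `T` is `x_o F''`, `F''` double at `c`: zero).
`step1`. -/
theorem mainA {σ : Type} [DecidableEq σ] [Fintype σ] (o : σ) (A : Finset (σ →₀ ℕ))
    {m a β γ j K : ℕ} (hm : Fintype.card σ = m) (ha : m * a + β = (lo o A).card)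
    (h1 : kap (H (lo o A)) (J0 o) a ≤ β)
    (h2 : kap (H (lo o (dw o A))) (J0 o) β + m * β ≤ (lo o (dw o A)).card)
    (hj : γ + (m * β + K) ≤ j)
    (h3 : kap (H (dw o A)) Finset.univ j + (m + 1) * j ≤ (dw o A).card + K)
    (h4 : kap (H (dw o (dw o A))) Finset.univ γ = 0) :
    kap (H A) Finset.univ (a + β + γ) ≤ A.card - (m + 1) * (a + β + γ) := by
  classical
  have huniv : (Finset.univ : Finset σ).card = m := by rw [Finset.card_univ, hm]
  have hJ0 : (J0 o).card + 1 = m := by rw [card_J0, hm]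
  -- one choice of the points `a`
  obtain ⟨a0, ha0⟩ := kap_attained (H (lo o A)) (J0 o) a
  let pa0 : Fin a × σ → ℂ := fun x => a0 x.1 x.2
  have hVA : finrank ℂ (Z (H (lo o A)) (rowf (J0 o) Finset.univ (onT o pa0))) ≤ β := by
    refine le_trans (le_trans (Submodule.finrank_mono fun f hf => ?_) ha0.le) h1
    rw [mem_Z_rowf] at hf ⊢
    obtain ⟨g1, g2, g3⟩ := hf
    refine ⟨g1, fun k => ?_, fun k hk i hi => ?_⟩
    · have := g2 k
      rwa [onT_ev g1] at this
    · have := g3 k hk i hi
      rwa [onT_dv g1] at this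
  set VA := Z (H (lo o A)) (rowf (J0 o) Finset.univ (onT o pa0)) with hVAdef
  -- the points `b`
  obtain ⟨b0, hb0⟩ := cut (P := σ → ℂ) VA ev (fun f _ hf0 => exists_ev_ne hf0) β
  have G1 : Gen fun p : Fin β × σ → ℂ => finrank ℂ (Z VA fun k => ev (onT o p k)) ≤ 0 := by
    refine semi_gen VA (fun k (p : Fin β × σ → ℂ) => ev (onT o p k))
      (fun k f _ => IsPol.ev f fun i => isPol_onT o k i) (fun x => b0 x.1 x.2) 0 ?_
    refine le_trans (Submodule.finrank_mono fun f hf => ?_) (hb0.trans (by omega))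
    rw [mem_Z] at hf ⊢
    refine ⟨hf.1, fun k => ?_⟩
    have := hf.2 k
    rwa [onT_ev (Z_le _ _ hf.1)] at this
  have G2 : Gen fun p : Fin β × σ → ℂ => finrank ℂ (Z (H (lo o (dw o A)))
      (rowf (J0 o) Finset.univ (onT o p))) ≤ kap (H (lo o (dw o A))) (J0 o) β := by
    refine kap_gen_lo o (dw o A) (J0 o) (Fintype.card_fin β) (fun p => onT o p)
      (fun k i => isPol_onT o k i) fun y0 => ⟨fun x => y0 x.1 x.2, fun k i hi => ?_⟩
    simp [onT, hi]
  obtain ⟨pb, hpb1, hpb2⟩ := (G1.and G2).exists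
  set b := onT o pb with hb
  -- the space `V_T`
  set VT := Z (H (dw o A)) (rowf (J0 o) Finset.univ b) with hVT
  have hle : H (lo o (dw o A)) ≤ H (dw o A) := by
    intro f hf
    rw [mem_H] at hf ⊢
    exact hf.trans (Finset.filter_subset _ _)
  have hVT1 : finrank ℂ VT + m * β ≤ (dw o A).card := by
    have := finrank_Z_add_le_of_le hle (rowf (J0 o) Finset.univ b) (c := m * β) (by
      rw [finrank_H]
      omega)
    rwa [finrank_H] at this
  have hVT2 : (dw o A).card ≤ finrank ℂ VT + m * β := by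
    have := le_finrank_Z (H (dw o A)) (rowf (J0 o) Finset.univ b)
    rw [← hVT, finrank_H, Fintype.card_sum, Fintype.card_prod, Fintype.card_fin, Fintype.card_coe,
      Fintype.card_coe, Finset.card_univ, Fintype.card_fin] at this
    have e1 : m * β = β + β * (J0 o).card := by
      rw [← hJ0]
      ring
    omega
  have hgrow : kap VT Finset.univ γ + (m + 1) * γ = finrank ℂ VT := by
    have := grow VT Finset.univ (i := γ) (j := j) (B := m * β + K) hj (by
      rw [huniv]
      have := kap_mono (show VT ≤ H (dw o A) from Z_le _ _) Finset.univ j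
      omega)
    rwa [huniv] at this
  -- the points `c`
  have G3 : Gen fun p : Fin γ × σ → ℂ => finrank ℂ (Z VT (rowf Finset.univ Finset.univ
      fun (k : Fin γ) i => p (k, i))) ≤ kap VT Finset.univ γ :=
    kap_gen VT Finset.univ (Fintype.card_fin γ) (fun p k i => p (k, i)) (fun k i => IsPol.coord _)
      fun y0 => ⟨fun x => y0 x.1 x.2, rfl⟩
  have G4 : Gen fun p : Fin γ × σ → ℂ => finrank ℂ (Z (H (dw o (dw o A)))
      (rowf Finset.univ Finset.univ fun (k : Fin γ) i => p (k, i))) ≤
        kap (H (dw o (dw o A))) Finset.univ γ :=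
    kap_gen _ Finset.univ (Fintype.card_fin γ) (fun p k i => p (k, i)) (fun k i => IsPol.coord _)
      fun y0 => ⟨fun x => y0 x.1 x.2, rfl⟩
  have G5 : Gen fun p : Fin γ × σ → ℂ => ∀ k : Fin γ, p (k, o) ≠ 0 :=
    Gen.forall fun k => ⟨fun p => p (k, o), IsPol.coord _, ⟨fun _ => 1, one_ne_zero⟩,
      fun p hp => hp⟩
  obtain ⟨pc, hpc1, hpc2, hpc3⟩ := (G3.and (G4.and G5)).exists
  set c : Fin γ → σ → ℂ := fun k i => pc (k, i) with hc
  set R := Z VT (rowf Finset.univ Finset.univ c) with hR
  have h5 : Z (H (dw o (dw o A))) (rowf Finset.univ Finset.univ c) = ⊥ :=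
    Submodule.finrank_eq_zero.1 (Nat.le_zero.1 (hpc2.trans h4.le))
  -- the values on `T` cut `R`
  obtain ⟨a1, ha1⟩ := cut (P := σ → ℂ) R (fun y => ev (Function.update y o 0))
    (fun F hF hF0 => by
      by_contra hcon
      push Not at hcon
      apply hF0
      have hF1 : F ∈ Z VT (rowf Finset.univ Finset.univ c) := hF
      rw [mem_Z_rowf] at hF1
      refine eq_zero_of_T o (dw o A) c hpc3 (Z_le _ _ hF1.1) hF1.2.1
        (fun k i => hF1.2.2 k (Finset.mem_univ _) i (Finset.mem_univ _)) hcon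
        fun F'' h6 h7 h8 => ?_
      have : F'' ∈ Z (H (dw o (dw o A))) (rowf Finset.univ Finset.univ c) := by
        rw [mem_Z_rowf]
        exact ⟨h6, h7, fun k _ i _ => h8 k i⟩
      rw [h5, Submodule.mem_bot] at this
      exact this) a
  -- general points `a`
  have G6 : Gen fun p : Fin a × σ → ℂ => finrank ℂ (Z R fun k => ev (onT o p k)) ≤
      finrank ℂ R - a := by
    refine semi_gen R (fun k (p : Fin a × σ → ℂ) => ev (onT o p k))
      (fun k f _ => IsPol.ev f fun i => isPol_onT o k i) (fun x => a1 x.1 x.2)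
      (finrank ℂ R - a) ?_
    exact ha1
  have G7 : Gen fun p : Fin a × σ → ℂ => finrank ℂ (Z (H (lo o A))
      (Sum.elim (rowf (J0 o) Finset.univ (onT o p)) fun k : Fin β => ev (b k))) ≤ 0 := by
    refine semi_gen (H (lo o A)) (fun r (p : Fin a × σ → ℂ) =>
      Sum.elim (rowf (J0 o) Finset.univ (onT o p)) (fun k : Fin β => ev (b k)) r) ?_ pa0 0 ?_
    · intro r f _
      rcases r with r | r
      · exact isPol_rowf (J0 o) Finset.univ (fun k i => isPol_onT o k i) r f
      · exact IsPol.const _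
    · have e : Z (H (lo o A)) (fun r => Sum.elim (rowf (J0 o) Finset.univ (onT o pa0))
          (fun k : Fin β => ev (b k)) r) = Z VA fun k => ev (b k) := by
        rw [hVAdef, Z_Z]
      rw [e]
      exact hpb1
  obtain ⟨pa, hpa1, hpa2⟩ := (G6.and G7).exists
  have hcard := card_lo_add_card_dw o A
  refine step1 o A (onT o pa) (fun k => onT_o o pa k) b (fun k => onT_o o pb k) c hpc3 _ ?_ ?_
    (r := a + β + γ) (by simp only [Fintype.card_fin])
  · rw [Z_Z]
    exact Submodule.finrank_eq_zero.1 (Nat.le_zero.1 hpa2)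
  · refine le_trans hpa1 ?_
    have e1 : (m + 1) * (a + β + γ) = m * a + a + (m * β + β) + (m + 1) * γ := by ring
    omega

end Pool.Agent.SV.A
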