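import Pool.Agent.Lib.MP_b54217_ag.A.Kap2

/-!
# THEOREM B.  All `r` from the critical values
-/

set_option autoImplicit false

namespace Pool.Agent.SV.A

open MvPolynomial Module Pool.Agent.SV.E

/-- All `r` from the two critical values (`kap_drop'`, `kap_antitone`). -/
theorem all_of_crit {σ : Type} [Fintype σ] (A : Finset (σ →₀ ℕ)) {m : ℕ}
    (hm : Fintype.card σ = m)
    (h : ∀ r, (r = A.card / (m + 1) ∨ r = A.card / (m + 1) + 1) →
      kap (H A) Finset.univ r ≤ A.card - (m + 1) * r) (r : ℕ) :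
    kap (H A) Finset.univ r ≤ A.card - (m + 1) * r := by
  set n := A.card with hn
  set r0 := n / (m + 1) with hr0
  have h1 : (m + 1) * r0 ≤ n := Nat.mul_div_le n (m + 1)
  have h2 : n < (m + 1) * (r0 + 1) := Nat.lt_mul_div_succ n (by omega)
  have hc : (Finset.univ : Finset σ).card = m := by rw [Finset.card_univ, hm]
  rcases le_or_gt r r0 with hr | hr
  · obtain ⟨c, hc1⟩ := Nat.exists_eq_add_of_le hr
    have h3 := kap_drop' (H A) (Finset.univ : Finset σ) r c
    have h4 := h r0 (Or.inl rfl)
    rw [← hc1, hc] at h3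
    have h5 : (m + 1) * r0 = (m + 1) * r + (m + 1) * c := by rw [hc1, mul_add]
    omega
  · have h3 := kap_antitone (H A) (Finset.univ : Finset σ) (show r0 + 1 ≤ r by omega)
    have h4 := h (r0 + 1) (Or.inr rfl)
    omega

end Pool.Agent.SV.A
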