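import Mathlib

/-!
# THEOREM B.  Arithmetic of the main step

`A, A0, A1, A10, A2` = numbers of exponents of `A`, `lo o A`, `dw o A`, `lo o (dw o A)`,
`dw o (dw o A)`; `m = |σ|`; `K` = all the constants (exactness, superabundance, kill).
`a = A0 / m - K`, `β = A0 - m a`, `γ = r - a - β`, `j = A1 / (m + 1)`.
-/

set_option autoImplicit false

namespace Pool.Agent.SV.A

/-- Degree at least three. -/
theorem mainN3 (m K : ℕ) (hm : 2 ≤ m) : ∃ B : ℕ, ∀ A A0 A1 A10 A2 r : ℕ,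
    A0 + A1 = A → A10 + A2 = A1 → B ≤ A0 → 3 * A0 ≤ 2 * m * A10 →
    (r = A / (m + 1) ∨ r = A / (m + 1) + 1) →
    ∃ a β γ j : ℕ, a + β + γ = r ∧ m * a + β = A0 ∧ m * (a + K) ≤ A0 ∧
      m * (β + K) ≤ A10 ∧ γ + (m * β + K) ≤ j ∧ (m + 1) * j ≤ A1 ∧
      A2 + K ≤ (m + 1) * γ := by
  refine ⟨m * (2 * ((m + 1) * (m * (m * (K + 1)) + m * K + K + m + 1))) + m * (K + 1), ?_⟩
  intro A A0 A1 A10 A2 r h0 h1 hB h3 hr
  have hm0 : 0 < m := by omega
  obtain ⟨q, ρ, hq, hρ⟩ : ∃ q ρ, A0 = m * q + ρ ∧ ρ < m :=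
    ⟨A0 / m, A0 % m, (Nat.div_add_mod A0 m).symm, Nat.mod_lt _ hm0⟩
  have hKq : K ≤ q := by
    have h4 : m * K ≤ m * q + ρ := by
      have : m * (K + 1) = m * K + m := by ring
      omega
    by_contra hcon
    have h5 : m * (q + 1) ≤ m * K := Nat.mul_le_mul_left _ (by omega)
    rw [mul_add, mul_one] at h5
    omega
  obtain ⟨a, rfl⟩ := Nat.exists_eq_add_of_le hKq
  obtain ⟨β, hβ⟩ : ∃ β, β = m * K + ρ := ⟨_, rfl⟩
  have hA0 : A0 = m * a + β := by rw [hq, hβ]; ring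
  have hβ1 : β ≤ m * (K + 1) := by
    have : m * (K + 1) = m * K + m := by ring
    omega
  have ha : 2 * ((m + 1) * (m * (m * (K + 1)) + m * K + K + m + 1)) ≤ a := by
    refine Nat.le_of_mul_le_mul_left ?_ hm0
    omega
  have hX : m * β ≤ m * (m * (K + 1)) := Nat.mul_le_mul_left _ hβ1
  have h2 : 3 * a ≤ 2 * A10 := by
    refine Nat.le_of_mul_le_mul_left ?_ hm0
    have e1 : m * (3 * a) = 3 * (m * a) := by ring
    have e2 : m * (2 * A10) = 2 * m * A10 := by ring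
    omega
  obtain ⟨Y, hY⟩ : ∃ Y, Y = m * β + m * K + K + m + 1 := ⟨_, rfl⟩
  have hW : 2 * ((m + 1) * Y) ≤ a := by
    refine le_trans (Nat.mul_le_mul_left _ (Nat.mul_le_mul_left _ ?_)) ha
    omega
  have hW1 : (m + 1) * Y = m * Y + Y := by ring
  have hW2 : (m + 1) * (m * β + K) ≤ (m + 1) * Y := Nat.mul_le_mul_left _ (by omega)
  have hW3 : m + 1 ≤ (m + 1) * Y := Nat.le_mul_of_pos_right _ (by omega)
  have hr1 : A < (m + 1) * r + (m + 1) := by
    have := Nat.lt_mul_div_succ A (show 0 < m + 1 by omega)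
    rcases hr with hr | hr
    · rw [hr]
      rw [mul_add, mul_one] at this
      exact this
    · rw [hr, mul_add, mul_one]
      rw [mul_add, mul_one] at this
      omega
  have hr2 : (m + 1) * r ≤ A + (m + 1) := by
    have := Nat.mul_div_le A (m + 1)
    rcases hr with hr | hr
    · rw [hr]
      omega
    · rw [hr, mul_add, mul_one]
      omega
  have e3 : (m + 1) * (a + β) = m * a + β + a + m * β := by ring
  have hle : a + β ≤ r := by
    refine Nat.le_of_lt_succ (Nat.lt_of_mul_lt_mul_left (a := m + 1) ?_)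
    rw [Nat.succ_eq_add_one, mul_add (m + 1) r 1, mul_one]
    omega
  obtain ⟨γ, hγ⟩ := Nat.exists_eq_add_of_le hle
  have e4 : (m + 1) * r = (m + 1) * (a + β) + (m + 1) * γ := by rw [hγ, mul_add]
  refine ⟨a, β, γ, A1 / (m + 1), hγ.symm, hA0.symm, ?_, ?_, ?_, Nat.mul_div_le _ _, ?_⟩
  · rw [hA0, hβ, mul_add]
    omega
  · rw [mul_add]
    have : m * K ≤ Y := by omega
    omega
  · rw [Nat.le_div_iff_mul_le (by omega), mul_comm, mul_add]
    have e5 : (m + 1) * Y + (m + 1) ≤ 2 * ((m + 1) * Y) := by omega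
    omega
  · omega

end Pool.Agent.SV.A
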