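import Mathlib

/-!
# THEOREM B.  Arithmetic of the main step

`A, A0, A1, A10, A2` = numbers of exponents of `A`, `lo o A`, `dw o A`, `lo o (dw o A)`,
`dw o (dw o A)`; `m = |σ|`; `K` = all the constants (exactness, superabundance, kill).
`a = A0 / m - K`, `β = A0 - m a`, `γ = r - a - β`, `j = A1 / (m + 1)`.
-/

set_option autoImplicit false

namespace Pool.Agent.SV.A

/-- The gain of the last inequality is positive. -/
theorem mainN2_delta (m b : ℕ) (hb : 1 ≤ b) (hm : b + 2 ≤ m) :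
    0 < ((m : ℚ) - b + 1) * (((b : ℚ) + 2) / (b * (m + 1)) - 1 / m) - 2 / (b * (b + 1)) := by
  obtain ⟨t, rfl⟩ := Nat.exists_eq_add_of_le hm
  obtain ⟨c, rfl⟩ := Nat.exists_eq_add_of_le hb
  have h : (((1 + c + 2 + t : ℕ) : ℚ) - ((1 + c : ℕ) : ℚ) + 1) *
      ((((1 + c : ℕ) : ℚ) + 2) / (((1 + c : ℕ) : ℚ) * (((1 + c + 2 + t : ℕ) : ℚ) + 1)) -
        1 / ((1 + c + 2 + t : ℕ) : ℚ)) - 2 / (((1 + c : ℕ) : ℚ) * (((1 + c : ℕ) : ℚ) + 1)) =
      (((1 + c : ℚ)) ^ 2 + 5 * (1 + c) + 7 * t * (1 + c) + t * (1 + c) ^ 2 +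
        2 * t ^ 2 * (1 + c)) /
        ((1 + c) * (1 + c + 1) * (1 + c + 2 + t) * (1 + c + 2 + t + 1)) := by
    push_cast
    have h1 : (1 + (c : ℚ)) ≠ 0 := by positivity
    have h2 : (1 + (c : ℚ) + 1) ≠ 0 := by positivity
    have h3 : (1 + (c : ℚ) + 2 + t) ≠ 0 := by positivity
    have h4 : (1 + (c : ℚ) + 2 + t + 1) ≠ 0 := by positivity
    field_simp
    ring
  rw [h]
  positivity

/-- Degree two, `b` variables in the block: the last system has lost the block.
`(m - b + 1) (2 m - b) (b + 1) > 2 m (m + 1)` for `m ≥ b + 2`. -/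
theorem mainN2 (m b K : ℕ) (hb : 1 ≤ b) (hm : b + 2 ≤ m) : ∃ B : ℕ, ∀ A A0 A1 A10 A2 r : ℕ,
    A0 + A1 = A → A * 2 = A1 * (b + 2) → A1 = A2 * (b + 1) → A0 * 2 = A10 * (b + 1) →
    B ≤ A0 → (r = A / (m + 1) ∨ r = A / (m + 1) + 1) →
    ∃ a β γ j : ℕ, a + β + γ = r ∧ m * a + β = A0 ∧ m * (a + K) ≤ A0 ∧
      m * (β + K) ≤ A10 ∧ γ + (m * β + K) ≤ j ∧ (m + 1) * j ≤ A1 ∧
      A2 + K ≤ (m - b + 1) * γ := by
  have hδ := mainN2_delta m b hb hm
  set δ : ℚ := ((m : ℚ) - b + 1) * (((b : ℚ) + 2) / (b * (m + 1)) - 1 / m) - 2 / (b * (b + 1))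
    with hδd
  have hbQ : (1 : ℚ) ≤ b := by exact_mod_cast hb
  have hmQ : (b : ℚ) + 2 ≤ m := by exact_mod_cast hm
  have hm0 : (0 : ℚ) < m := by linarith
  have hK0 : (0 : ℚ) ≤ K := Nat.cast_nonneg K
  obtain ⟨B, hB⟩ := exists_nat_ge ((m * (m + 1)) * (3 + 2 * K + m * (m + m * K) + K) +
    (((m : ℚ) - b + 1) * (1 + m + m * K) + K) / δ + m * (m + m * K + K) * (b + 1) +
    m * K : ℚ)
  have hp1 : (0 : ℚ) ≤ (m * (m + 1)) * (3 + 2 * K + m * (m + m * K) + K) := by positivity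
  have hp2 : (0 : ℚ) ≤ (((m : ℚ) - b + 1) * (1 + m + m * K) + K) / δ := by
    apply div_nonneg _ hδ.le
    have : (0 : ℚ) ≤ (m : ℚ) - b + 1 := by linarith
    positivity
  have hp3 : (0 : ℚ) ≤ m * (m + m * K + K) * (b + 1) := by positivity
  have hp4 : (0 : ℚ) ≤ (m : ℚ) * K := by positivity
  refine ⟨B, fun A A0 A1 A10 A2 r h1 h2 h3 h4 hA hr => ?_⟩
  have hAQ : (B : ℚ) ≤ A0 := by exact_mod_cast hA
  -- the divisions
  have hmpos : 0 < m := by omega
  have d1 := Nat.div_add_mod A0 m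
  have d1' := Nat.mod_lt A0 hmpos
  have d2 := Nat.div_add_mod A (m + 1)
  have d2' := Nat.mod_lt A (Nat.succ_pos m)
  have d3 := Nat.div_add_mod A1 (m + 1)
  have d3' := Nat.mod_lt A1 (Nat.succ_pos m)
  set a0 := A0 / m with ha0
  set ρ := A0 % m with hρ
  set rr := A / (m + 1) with hrr
  set j := A1 / (m + 1) with hj
  set s2 := A % (m + 1) with hs2
  set s3 := A1 % (m + 1) with hs3
  -- casts
  have e1 : (m : ℚ) * a0 + ρ = A0 := by exact_mod_cast d1
  have e1' : (ρ : ℚ) + 1 ≤ m := by exact_mod_cast d1'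
  have e2 : ((m : ℚ) + 1) * rr + s2 = A := by exact_mod_cast d2
  have e2' : (s2 : ℚ) ≤ m := by exact_mod_cast Nat.lt_succ_iff.1 d2'
  have e3 : ((m : ℚ) + 1) * j + s3 = A1 := by exact_mod_cast d3
  have e3' : (s3 : ℚ) ≤ m := by exact_mod_cast Nat.lt_succ_iff.1 d3'
  have f1 : (A0 : ℚ) + A1 = A := by exact_mod_cast h1
  have f2 : (A : ℚ) * 2 = A1 * (b + 2) := by exact_mod_cast h2
  have f3 : (A1 : ℚ) = A2 * (b + 1) := by exact_mod_cast h3
  have f4 : (A0 : ℚ) * 2 = A10 * (b + 1) := by exact_mod_cast h4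
  have hρ0 : (0 : ℚ) ≤ ρ := Nat.cast_nonneg ρ
  have hs20 : (0 : ℚ) ≤ s2 := Nat.cast_nonneg s2
  have hs30 : (0 : ℚ) ≤ s3 := Nat.cast_nonneg s3
  have hr1 : (rr : ℚ) ≤ r := by
    rcases hr with hr | hr
    · rw [hr]
    · rw [hr]; push_cast; linarith
  have hr2 : (r : ℚ) ≤ rr + 1 := by
    rcases hr with hr | hr
    · rw [hr]; linarith
    · rw [hr]; push_cast; linarith
  have g1 : (A1 : ℚ) = 2 * A0 / b := by
    field_simp
    linarith
  have g2 : (A : ℚ) = A0 * (b + 2) / b := by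
    rw [← f1, g1]
    field_simp
  have g3 : (A2 : ℚ) = A0 * (2 / (b * (b + 1))) := by
    have : (A2 : ℚ) = A1 / (b + 1) := by
      rw [f3]
      field_simp
    rw [this, g1]
    field_simp
  -- `a0 ≥ K`
  have haK : K ≤ a0 := by
    have : m * K ≤ A0 := by
      have : ((m * K : ℕ) : ℚ) ≤ A0 := by
        push_cast
        linarith
      exact_mod_cast this
    exact (Nat.le_div_iff_mul_le hmpos).2 (by rwa [mul_comm] at this)
  obtain ⟨a, ha⟩ := Nat.exists_eq_add_of_le haK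
  -- `β`
  have e4 : (a0 : ℚ) = K + a := by exact_mod_cast ha
  -- the last inequality in the rationals
  have key7 : (A2 : ℚ) + K ≤ ((m : ℚ) - b + 1) * (r - a - (ρ + m * K)) := by
    have hcc : (0 : ℚ) ≤ (m : ℚ) - b + 1 := by linarith
    have l1 : (r : ℚ) - a - (ρ + m * K) ≥
        A0 * (((b : ℚ) + 2) / (b * (m + 1)) - 1 / m) - (1 + m + m * K) := by
      have l2 : (rr : ℚ) ≥ A0 * (((b : ℚ) + 2) / (b * (m + 1))) - 1 := by
        have : (rr : ℚ) = (A - s2) / (m + 1) := by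
          rw [← e2]
          field_simp
          ring
        rw [this, g2, ge_iff_le, sub_le_iff_le_add]
        have l3 : A0 * (((b : ℚ) + 2) / (b * (m + 1))) = (A0 * (b + 2) / b) / (m + 1) := by
          field_simp
        rw [l3, sub_div]
        have l4 : (s2 : ℚ) / (m + 1) ≤ 1 := by
          rw [div_le_one (by positivity)]
          linarith
        linarith
      have l5 : (a0 : ℚ) ≤ A0 * (1 / m) := by
        rw [mul_one_div, le_div_iff₀ hm0]
        linarith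
      have l6 : A0 * (((b : ℚ) + 2) / (b * (m + 1)) - 1 / m) =
        A0 * (((b : ℚ) + 2) / (b * (m + 1))) - A0 * (1 / m) := by ring
      rw [l6]
      linarith
    have l7 := mul_le_mul_of_nonneg_left l1 hcc
    refine le_trans ?_ l7
    rw [g3]
    have l8 : ((m : ℚ) - b + 1) * (A0 * (((b : ℚ) + 2) / (b * (m + 1)) - 1 / m) -
        (1 + m + m * K)) = A0 * δ + A0 * (2 / (b * (b + 1))) -
        ((m : ℚ) - b + 1) * (1 + m + m * K) := by
      rw [hδd]
      ring
    rw [l8]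
    have l9 : (((m : ℚ) - b + 1) * (1 + m + m * K) + K) ≤ A0 * δ := by
      have : (((m : ℚ) - b + 1) * (1 + m + m * K) + K) / δ ≤ A0 := by linarith
      rwa [div_le_iff₀ hδ] at this
    linarith
  -- `γ`
  have hγ0 : (0 : ℚ) ≤ r - a - (ρ + m * K) := by
    by_contra hcon
    push Not at hcon
    have hcc : (0 : ℚ) < (m : ℚ) - b + 1 := by linarith
    have : ((m : ℚ) - b + 1) * (r - a - (ρ + m * K)) < 0 := mul_neg_of_pos_of_neg hcc hcon
    have hA2 : (0 : ℚ) ≤ A2 := Nat.cast_nonneg A2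
    linarith
  have hγ1 : a + (ρ + m * K) ≤ r := by
    have : ((a + (ρ + m * K) : ℕ) : ℚ) ≤ r := by
      push_cast
      linarith
    exact_mod_cast this
  obtain ⟨γ, hγ⟩ := Nat.exists_eq_add_of_le hγ1
  have eγ : (r : ℚ) = a + (ρ + m * K) + γ := by exact_mod_cast hγ
  refine ⟨a, ρ + m * K, γ, j, hγ.symm, ?_, ?_, ?_, ?_, ?_, ?_⟩
  · rw [← d1, ha]; ring
  · rw [← d1, ha]
    have : m * (a + K) = m * (K + a) := by ring
    omega
  · have : ((m * (ρ + m * K + K) : ℕ) : ℚ) ≤ A10 := by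
      push_cast
      have hb1 : (0 : ℚ) < (b : ℚ) + 1 := by positivity
      have k1 : (m : ℚ) * (ρ + m * K + K) * (b + 1) ≤ A10 * (b + 1) := by
        rw [← f4]
        have k2 : (m : ℚ) * (ρ + m * K + K) * (b + 1) ≤ m * (m + m * K + K) * (b + 1) := by
          apply mul_le_mul_of_nonneg_right _ hb1.le
          apply mul_le_mul_of_nonneg_left _ hm0.le
          linarith
        have k3 : (0 : ℚ) ≤ A0 := Nat.cast_nonneg A0
        linarith
      exact le_of_mul_le_mul_right k1 hb1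
    exact_mod_cast this
  · have : ((γ + (m * (ρ + m * K) + K) : ℕ) : ℚ) ≤ j := by
      push_cast
      have hmm : (0 : ℚ) < (m : ℚ) * (m + 1) := by positivity
      have k1 : (m : ℚ) * (m + 1) * (rr - a0 - j) ≤ -A0 + m * (m + 1) * 1 + m * m := by
        have q1 : (m : ℚ) * (m + 1) * rr = m * (A - s2) := by rw [← e2]; ring
        have q2 : (m : ℚ) * (m + 1) * a0 = (m + 1) * (A0 - ρ) := by rw [← e1]; ring
        have q3 : (m : ℚ) * (m + 1) * j = m * (A1 - s3) := by rw [← e3]; ring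
        have q4 : (m : ℚ) * (m + 1) * (rr - a0 - j) =
            m * (A - s2) - (m + 1) * (A0 - ρ) - m * (A1 - s3) := by
          rw [mul_sub, mul_sub, q1, q2, q3]
        rw [q4, ← f1]
        have q5 : (m : ℚ) * s3 ≤ m * m := mul_le_mul_of_nonneg_left e3' hm0.le
        have q6 : (0 : ℚ) ≤ m * s2 := by positivity
        have q7 : ((m : ℚ) + 1) * ρ ≤ (m + 1) * m := by
          apply mul_le_mul_of_nonneg_left _ (by positivity)
          linarith
        linarith
      have k2 : (γ : ℚ) + (m * (ρ + m * K) + K) - j ≤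
          (rr - a0 - j) + (1 + 2 * K + m * (m + m * K)) := by
        have q1 : (m : ℚ) * (ρ + m * K) ≤ m * (m + m * K) := by
          apply mul_le_mul_of_nonneg_left _ hm0.le
          linarith
        linarith
      have k3 : (m : ℚ) * (m + 1) * ((γ : ℚ) + (m * (ρ + m * K) + K) - j) ≤ 0 := by
        have q1 := mul_le_mul_of_nonneg_left k2 hmm.le
        have q2 : (m : ℚ) * (m + 1) * ((rr - a0 - j) + (1 + 2 * K + m * (m + m * K))) =
          m * (m + 1) * (rr - a0 - j) + m * (m + 1) * (1 + 2 * K + m * (m + m * K)) := by ring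
        have q3 : (m : ℚ) * m ≤ m * (m + 1) := by nlinarith
        have q4 : (m : ℚ) * (m + 1) * (3 + 2 * K + m * (m + m * K) + K) =
          m * (m + 1) * (1 + 2 * K + m * (m + m * K)) + m * (m + 1) * 1 + m * (m + 1) +
          m * (m + 1) * K := by ring
        have q5 : (0 : ℚ) ≤ m * (m + 1) * K := by positivity
        linarith
      have k4 : (γ : ℚ) + (m * (ρ + m * K) + K) - j ≤ 0 := by
        by_contra hcon
        push Not at hcon
        have := mul_pos hmm hcon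
        linarith
      linarith
    exact_mod_cast this
  · omega
  · have : ((A2 + K : ℕ) : ℚ) ≤ (((m - b + 1) * γ : ℕ) : ℚ) := by
      have hle : b ≤ m := by omega
      push_cast [Nat.cast_sub hle]
      have : (r : ℚ) - a - (ρ + m * K) = γ := by linarith
      rw [this] at key7
      exact key7
    exact_mod_cast this

end Pool.Agent.SV.A
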