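import Pool.Agent.Lib.MP_b54217_ag.A.MainW3
import Pool.Agent.Lib.MP_b54217_ag.A.MainN2

/-!
# THEOREM B.  Non-defectivity, degree two
-/

set_option autoImplicit false

namespace Pool.Agent.SV.A

open MvPolynomial Module Pool.Agent.SV.E
open Pool.Agent.SV.G (Sg DD mem_DD)

variable {k : ℕ} {M : Fin k → ℕ}

/-- Horace in the variable `o` of a block of degree two. `W j` for `univ` (degree one in the block
`o.1`), for `univ.erase o` and for `wb univ o.1`; `mainN2`, `mainA`. -/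
theorem mainW2 (o : Sg M) (j : Fin k) (hoj : o.1 ≠ j) (hj : 1 ≤ M j)
    (hm : M o.1 + 2 ≤ ∑ i, M i) :
    ∃ d0, ∀ δ, Adm j d0 δ → δ o.1 = 2 → ∀ r, kap (H (DD M δ)) Finset.univ r ≤
      (DD M δ).card - (∑ i, M i + 1) * r := by
  classical
  obtain ⟨x, hxj⟩ : ∃ x : Sg M, x.1 = j := ⟨⟨j, ⟨0, hj⟩⟩, rfl⟩
  have hx : x ∈ Finset.univ.erase o := Finset.mem_erase.2 ⟨by
    rintro rfl
    exact hoj hxj, Finset.mem_univ x⟩
  have hxw : x ∈ wb (Finset.univ : Finset (Sg M)) o.1 := mem_wb.2 ⟨Finset.mem_univ x, by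
    rw [hxj]
    exact Ne.symm hoj⟩
  set m := ∑ i, M i with hmdef
  have hcm : Fintype.card (Sg M) = m := card_SgA M
  have huniv : (Finset.univ : Finset (Sg M)).card = m := by rw [Finset.card_univ, hcm]
  have hJ0 : (J0 o).card + 1 = m := by rw [card_J0, hcm]
  have hJ : (Finset.univ.erase o : Finset (Sg M)) = J0 o := rfl
  have hb : 1 ≤ M o.1 := by
    have := o.2.2
    omega
  have hwb := card_wb (Finset.univ : Finset (Sg M)) o.1
  rw [bs_univ, huniv] at hwb
  obtain ⟨K1, d1, hW1⟩ := W_all j (Finset.univ : Finset (Sg M)) ⟨x, Finset.mem_univ x, hxj⟩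
  obtain ⟨K2, d2, hW2⟩ := W_all j (Finset.univ.erase o : Finset (Sg M)) ⟨x, hx, hxj⟩
  obtain ⟨K3, d3, hW3⟩ := W_all j (wb (Finset.univ : Finset (Sg M)) o.1) ⟨x, hxw, hxj⟩
  set K := K1 + K2 + (m + 1) * (K3 + 1) with hK
  obtain ⟨B, hB⟩ := mainN2 m (M o.1) K hb hm
  refine ⟨d1 + d2 + d3 + B, fun δ hδ h3 => ?_⟩
  have hA1 : Adm j (d1 + d2 + d3 + B) (dm o.1 δ) := hδ.low_ne hoj (by omega)
  -- the sets of exponents
  have e0 : lo o (DD M δ) = DS (Finset.univ.erase o) δ := lo_DD o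
  have e1 : dw o (DD M δ) = DD M (dm o.1 δ) := dw_DD o (by omega)
  have e10 : lo o (DD M (dm o.1 δ)) = DS (Finset.univ.erase o) (dm o.1 δ) := lo_DD o
  have hdm1 : dm o.1 δ o.1 = 1 := by rw [dm_self, h3]
  have e3 : DS (Finset.univ : Finset (Sg M)) (dm o.1 (dm o.1 δ)) =
      DS (wb (Finset.univ : Finset (Sg M)) o.1) δ := by
    rw [DS_wb _ o.1 (by rw [dm_self, hdm1])]
    refine DS_congr fun y hy => ?_
    have hy1 := (mem_wb.1 hy).2
    rw [dm_ne (Ne.symm hy1), dm_ne (Ne.symm hy1)]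
  have e2 : dw o (DD M (dm o.1 δ)) = DS (wb (Finset.univ : Finset (Sg M)) o.1) δ := by
    rw [dw_DD o (by omega), ← DS_univ, e3]
  have c0 := card_lo_add_card_dw o (DD M δ)
  rw [e0, e1] at c0
  have hBA : B ≤ (DS (Finset.univ.erase o) δ : Finset (Sg M →₀ ℕ)).card := by
    have h4 := card_ge (δ := δ) hx
    rw [hxj] at h4
    have h5 := hδ.1
    omega
  have r1 := ratio (Finset.univ : Finset (Sg M)) δ o.1 (by omega)
  rw [bs_univ, DS_univ, DS_univ, h3] at r1
  have r2 := ratio (Finset.univ : Finset (Sg M)) (dm o.1 δ) o.1 (by omega)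
  rw [bs_univ, DS_univ, e3, hdm1, mul_one] at r2
  have r3 := ratio (Finset.univ.erase o) δ o.1 (by omega)
  rw [bs_erase, if_pos rfl, h3, show M o.1 - 1 + 2 = M o.1 + 1 by omega] at r3
  refine all_of_crit (DD M δ) hcm fun r hr => ?_
  obtain ⟨a, β, γ, jj, n1, n2, n3, n4, n5, n6, n7⟩ := hB (DD M δ).card
    (DS (Finset.univ.erase o) δ : Finset (Sg M →₀ ℕ)).card (DD M (dm o.1 δ)).card
    (DS (Finset.univ.erase o) (dm o.1 δ) : Finset (Sg M →₀ ℕ)).card
    (DS (wb (Finset.univ : Finset (Sg M)) o.1) δ).card r c0 r1 r2 r3 hBA hr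
  have hS0 := hW2 δ (hδ.mono (by omega))
  have hS10 := hW2 (dm o.1 δ) (hA1.mono (by omega))
  have hS1 := hW1 (dm o.1 δ) (hA1.mono (by omega))
  have hS2 := hW3 δ (hδ.mono (by omega))
  rw [← n1]
  refine mainA o (DD M δ) (j := jj) (K := K) hcm (by rw [e0]; exact n2) ?_ ?_ n5 ?_ ?_
  · -- exactness on `T`
    have h4 := hS0.exact (i := a) (by
      rw [hJ, hJ0]
      refine le_trans (Nat.mul_le_mul_left _ ?_) n3
      omega)
    rw [e0]
    rw [hJ, hJ0] at h4
    unfold kS at h4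
    rw [hJ] at n2
    rw [hJ]
    omega
  · have h4 := hS10.exact (i := β) (by
      rw [hJ, hJ0]
      refine le_trans (Nat.mul_le_mul_left _ ?_) n4
      omega)
    rw [e1, e10]
    rw [hJ, hJ0] at h4
    unfold kS at h4
    rw [hJ]
    omega
  · rw [e1]
    have h4 := hS1.sup (j := jj) (by
      rw [huniv, DS_univ]
      exact n6)
    unfold kS at h4
    rw [huniv, DS_univ] at h4
    omega
  · rw [e1, e2]
    have hc : (wb (Finset.univ : Finset (Sg M)) o.1).card + 1 = m - M o.1 + 1 := by omega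
    have h4 := hS2.kill (r := γ) (by
      rw [hc]
      have h5 : (m - M o.1 + 1) * (K3 + 1) ≤ (m + 1) * (K3 + 1) :=
        Nat.mul_le_mul_right _ (by omega)
      omega)
    unfold kS at h4
    have h6 := kap_anti_dir (H (DS (wb (Finset.univ : Finset (Sg M)) o.1) δ))
      (Finset.subset_univ (wb (Finset.univ : Finset (Sg M)) o.1)) γ
    omega

end Pool.Agent.SV.A
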