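import Pool.Agent.Lib.MP_b54217_ag.A.MainW3
import Pool.Agent.Lib.MP_b54217_ag.A.MainW2

/-!
# THEOREM B.  Non-defectivity, in terms of `kap`
-/

set_option autoImplicit false

namespace Pool.Agent.SV.A

open MvPolynomial Module Pool.Agent.SV.E
open Pool.Agent.SV.G (Sg DD mem_DD)

variable {k : ℕ} {M : Fin k → ℕ}

/-- Summary.  `2 ≤ M j`: `mainW3` with `o = (j, 0)`. -/
theorem mainW (M : Fin k → ℕ) : ∃ d0, ∀ δ : Fin k → ℕ, (∀ i, 1 ≤ δ i) → ∀ j, d0 ≤ δ j →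
    (2 ≤ M j ∨ (1 ≤ M j ∧ ∃ i, i ≠ j ∧ 1 ≤ M i ∧
      (3 ≤ δ i ∨ (δ i = 2 ∧ M i + 2 ≤ ∑ l, M l)))) →
    ∀ r, kap (H (DD M δ)) Finset.univ r ≤ (DD M δ).card - (∑ i, M i + 1) * r := by
  classical
  have h3 : ∀ (o : Sg M) (j : Fin k), ∃ d0, (∃ x ∈ Finset.univ.erase o, x.1 = j) → ∀ δ,
      Adm j d0 δ → 3 ≤ δ o.1 → ∀ r, kap (H (DD M δ)) Finset.univ r ≤
        (DD M δ).card - (∑ i, M i + 1) * r := by
    intro o j
    by_cases h : ∃ x ∈ Finset.univ.erase o, x.1 = j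
    · obtain ⟨d0, h0⟩ := mainW3 o j h
      exact ⟨d0, fun _ => h0⟩
    · exact ⟨0, fun h' => absurd h' h⟩
  have h2 : ∀ (o : Sg M) (j : Fin k), ∃ d0, (o.1 ≠ j ∧ 1 ≤ M j ∧ M o.1 + 2 ≤ ∑ i, M i) → ∀ δ,
      Adm j d0 δ → δ o.1 = 2 → ∀ r, kap (H (DD M δ)) Finset.univ r ≤
        (DD M δ).card - (∑ i, M i + 1) * r := by
    intro o j
    by_cases h : o.1 ≠ j ∧ 1 ≤ M j ∧ M o.1 + 2 ≤ ∑ i, M i
    · obtain ⟨d0, h0⟩ := mainW2 o j h.1 h.2.1 h.2.2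
      exact ⟨d0, fun _ => h0⟩
    · exact ⟨0, fun h' => absurd h' h⟩
  choose D3 hD3 using h3
  choose D2 hD2 using h2
  set D := ∑ o : Sg M, ∑ j : Fin k, (D3 o j + D2 o j) + 3 with hD
  have hle : ∀ (o : Sg M) (j : Fin k), D3 o j + D2 o j + 3 ≤ D := by
    intro o j
    have h4 : D3 o j + D2 o j ≤ ∑ j : Fin k, (D3 o j + D2 o j) :=
      Finset.single_le_sum (f := fun j => D3 o j + D2 o j) (fun _ _ => Nat.zero_le _)
        (Finset.mem_univ j)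
    have h5 : ∑ j : Fin k, (D3 o j + D2 o j) ≤ ∑ o : Sg M, ∑ j : Fin k, (D3 o j + D2 o j) :=
      Finset.single_le_sum (f := fun o => ∑ j : Fin k, (D3 o j + D2 o j))
        (fun _ _ => Nat.zero_le _) (Finset.mem_univ o)
    omega
  refine ⟨D, fun δ hδ j hj hcase => ?_⟩
  rcases hcase with h | ⟨h, i, hij, hi, h'⟩
  · let o : Sg M := ⟨j, ⟨0, by omega⟩⟩
    have h4 := hle o j
    refine hD3 o j ⟨⟨j, ⟨1, by omega⟩⟩, Finset.mem_erase.2 ⟨?_, Finset.mem_univ _⟩, rfl⟩ δ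
      ⟨by omega, hδ⟩ (by
        change 3 ≤ δ j
        omega)
    intro h5
    have h6 := eq_of_heq (Sigma.mk.inj_iff.1 h5).2
    simp at h6
  · let o : Sg M := ⟨i, ⟨0, by omega⟩⟩
    have h4 := hle o j
    rcases h' with h' | h'
    · refine hD3 o j ⟨⟨j, ⟨0, by omega⟩⟩, Finset.mem_erase.2 ⟨?_, Finset.mem_univ _⟩, rfl⟩ δ
        ⟨by omega, hδ⟩ h'
      intro h5
      exact hij (Sigma.mk.inj_iff.1 h5).1.symm
    · exact hD2 o j ⟨hij, h, h'.2⟩ δ ⟨by omega, hδ⟩ h'.1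

end Pool.Agent.SV.A
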