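import Pool.Agent.Lib.MP_b54217_ag.A.WInd
import Pool.Agent.Lib.MP_b54217_ag.A.MainA
import Pool.Agent.Lib.MP_b54217_ag.A.MainN
import Pool.Agent.Lib.MP_b54217_ag.A.MainC

/-!
# THEOREM B.  Non-defectivity, degree at least three
-/

set_option autoImplicit false

namespace Pool.Agent.SV.A

open MvPolynomial Module Pool.Agent.SV.E
open Pool.Agent.SV.G (Sg DD mem_DD)

variable {k : ℕ} {M : Fin k → ℕ}

theorem card_SgA (M : Fin k → ℕ) : Fintype.card (Sg M) = ∑ i, M i := by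
  simp

theorem num_ratio3 {m b e : ℕ} (hm : 2 ≤ m) (hb : b ≤ m) (he : 3 ≤ e) :
    3 * (b - 1 + e) ≤ 2 * m * e := by
  obtain ⟨m', rfl⟩ : ∃ m', m = m' + 2 := ⟨m - 2, by omega⟩
  have h6 : 3 * m' ≤ e * m' := Nat.mul_le_mul_right _ he
  have h7 : 2 * (m' + 2) * e = 2 * (e * m') + 4 * e := by ring
  omega

/-- Horace in the variable `o` of a block of degree at least three (`j = o.1` is allowed). `W j` for
`univ` (degrees `δ - 1`, `δ - 2` in the block `o.1`) and for `univ.erase o`; `mainN3`, `mainA`. -/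
theorem mainW3 (o : Sg M) (j : Fin k) (hj : ∃ x ∈ Finset.univ.erase o, x.1 = j) :
    ∃ d0, ∀ δ, Adm j d0 δ → 3 ≤ δ o.1 → ∀ r, kap (H (DD M δ)) Finset.univ r ≤
      (DD M δ).card - (∑ i, M i + 1) * r := by
  classical
  obtain ⟨x, hx, hxj⟩ := hj
  set m := ∑ i, M i with hmdef
  have hcm : Fintype.card (Sg M) = m := card_SgA M
  have huniv : (Finset.univ : Finset (Sg M)).card = m := by rw [Finset.card_univ, hcm]
  have hJ0 : (J0 o).card + 1 = m := by rw [card_J0, hcm]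
  have hJ : (Finset.univ.erase o : Finset (Sg M)) = J0 o := rfl
  have hm2 : 2 ≤ m := by
    have : 1 ≤ (J0 o).card := Finset.card_pos.2 ⟨x, hx⟩
    omega
  obtain ⟨K1, d1, hW1⟩ := W_all j (Finset.univ : Finset (Sg M)) ⟨x, Finset.mem_univ x, hxj⟩
  obtain ⟨K2, d2, hW2⟩ := W_all j (Finset.univ.erase o : Finset (Sg M)) ⟨x, hx, hxj⟩
  set K := K1 + K2 + (m + 1) * (K1 + 1) with hK
  obtain ⟨B, hB⟩ := mainN3 m K hm2
  refine ⟨d1 + d2 + B + 2, fun δ hδ h3 => ?_⟩
  have hA1 : Adm j (d1 + d2 + B + 1) (dm o.1 δ) := hδ.low (by omega)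
  have hA2 : Adm j (d1 + d2 + B) (dm o.1 (dm o.1 δ)) := hA1.low (by rw [dm_self]; omega)
  -- the sets of exponents
  have e0 : lo o (DD M δ) = DS (Finset.univ.erase o) δ := lo_DD o
  have e1 : dw o (DD M δ) = DD M (dm o.1 δ) := dw_DD o (by omega)
  have e10 : lo o (DD M (dm o.1 δ)) = DS (Finset.univ.erase o) (dm o.1 δ) := lo_DD o
  have e2 : dw o (DD M (dm o.1 δ)) = DD M (dm o.1 (dm o.1 δ)) := dw_DD o (by rw [dm_self]; omega)
  have c0 := card_lo_add_card_dw o (DD M δ)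
  have c1 := card_lo_add_card_dw o (DD M (dm o.1 δ))
  rw [e0, e1] at c0
  rw [e10, e2] at c1
  have hBA : B ≤ (DS (Finset.univ.erase o) δ : Finset (Sg M →₀ ℕ)).card := by
    have h4 := card_ge (δ := δ) hx
    rw [hxj] at h4
    have h5 := hδ.1
    omega
  have hratio : 3 * (DS (Finset.univ.erase o) δ : Finset (Sg M →₀ ℕ)).card ≤
      2 * m * (DS (Finset.univ.erase o) (dm o.1 δ) : Finset (Sg M →₀ ℕ)).card := by
    have h4 := ratio (Finset.univ.erase o) δ o.1 (by omega)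
    rw [bs_erase, if_pos rfl] at h4
    have hMo : M o.1 ≤ m := Finset.single_le_sum (f := fun i => M i) (fun _ _ => Nat.zero_le _)
      (Finset.mem_univ o.1)
    set A0 := (DS (Finset.univ.erase o) δ : Finset (Sg M →₀ ℕ)).card
    set A10 := (DS (Finset.univ.erase o) (dm o.1 δ) : Finset (Sg M →₀ ℕ)).card
    have h5 : 3 * (M o.1 - 1 + δ o.1) ≤ 2 * m * δ o.1 := num_ratio3 hm2 hMo h3
    refine Nat.le_of_mul_le_mul_right ?_ (show 0 < δ o.1 by omega)
    calc 3 * A0 * δ o.1 = 3 * (A0 * δ o.1) := by ring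
      _ = A10 * (3 * (M o.1 - 1 + δ o.1)) := by rw [h4]; ring
      _ ≤ A10 * (2 * m * δ o.1) := Nat.mul_le_mul_left _ h5
      _ = 2 * m * A10 * δ o.1 := by ring
  refine all_of_crit (DD M δ) hcm fun r hr => ?_
  obtain ⟨a, β, γ, jj, n1, n2, n3, n4, n5, n6, n7⟩ := hB (DD M δ).card
    (DS (Finset.univ.erase o) δ : Finset (Sg M →₀ ℕ)).card (DD M (dm o.1 δ)).card
    (DS (Finset.univ.erase o) (dm o.1 δ) : Finset (Sg M →₀ ℕ)).card
    (DD M (dm o.1 (dm o.1 δ))).card r c0 c1 hBA hratio hr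
  have hS0 := hW2 δ (hδ.mono (by omega))
  have hS10 := hW2 (dm o.1 δ) (hA1.mono (by omega))
  have hS1 := hW1 (dm o.1 δ) (hA1.mono (by omega))
  have hS2 := hW1 (dm o.1 (dm o.1 δ)) (hA2.mono (by omega))
  rw [← n1]
  refine mainA o (DD M δ) (j := jj) (K := K) hcm (by rw [e0]; exact n2) ?_ ?_ n5 ?_ ?_
  · -- exactness on `T`
    have h4 := hS0.exact (i := a) (by
      rw [hJ, hJ0]
      refine le_trans (Nat.mul_le_mul_left _ ?_) n3
      omega)
    rw [e0]
    rw [hJ, hJ0] at h4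
    unfold kS at h4
    rw [hJ] at n2
    rw [hJ]
    omega
  · have h4 := hS10.exact (i := β) (by
      rw [hJ, hJ0]
      refine le_trans (Nat.mul_le_mul_left _ ?_) n4
      omega)
    rw [e1, e10]
    rw [hJ, hJ0] at h4
    unfold kS at h4
    rw [hJ]
    omega
  · rw [e1]
    have h4 := hS1.sup (j := jj) (by
      rw [huniv, DS_univ]
      exact n6)
    unfold kS at h4
    rw [huniv, DS_univ] at h4
    omega
  · rw [e1, e2]
    have h4 := hS2.kill (r := γ) (by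
      rw [huniv, DS_univ]
      omega)
    unfold kS at h4
    rw [DS_univ] at h4
    exact h4

end Pool.Agent.SV.A
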