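import Pool.Agent.Lib.MP_b54217_ag.A.Cut2
import Pool.Agent.Lib.MP_b54217_ag.E.GenN

/-!
# THEOREM B.  The differential step for one polynomial
-/

set_option autoImplicit false

namespace Pool.Agent.SV.A

open MvPolynomial Module Pool.Agent.SV.E

/-- `E.step` with `n = 1`.  `a` double points on `T = {x_o = 0}`, points `b` on `T` moved to the
height `s`, `c` double points off `T`.  If the trace (double at `a`, simple at `b`) is zero and the
limit residual space (`F'` zero at `a`, double in the directions of `T` at `b`, double at `c`) has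
dimension `≤ δ` then so has the space of the elements of `H A` double at the `a + b + c` points. -/
theorem step1 {σ IA IB IC : Type} [DecidableEq σ] [Fintype σ] [Fintype IA] [Fintype IB]
    [Fintype IC] (o : σ) (A : Finset (σ →₀ ℕ)) (a : IA → σ → ℂ) (ha : ∀ k, a k o = 0)
    (b : IB → σ → ℂ) (hb : ∀ k, b k o = 0) (c : IC → σ → ℂ) (hc : ∀ k, c k o ≠ 0) (δ : ℕ)
    (hTr : Z (Z (H (lo o A)) (rowf (J0 o) Finset.univ a)) (fun k => ev (b k)) = ⊥)
    (hRes : finrank ℂ (Z (Z (Z (H (dw o A)) (rowf (J0 o) Finset.univ b))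
      (rowf Finset.univ Finset.univ c)) (fun k => ev (a k))) ≤ δ) {r : ℕ}
    (hr : Fintype.card IA + Fintype.card IB + Fintype.card IC = r) :
    kap (H A) Finset.univ r ≤ δ := by
  let e : EN 1 σ ≃ₗ[ℂ] MvPolynomial σ ℂ := LinearEquiv.funUnique (Fin 1) ℂ (MvPolynomial σ ℂ)
  have he : ∀ F : EN 1 σ, e F = F 0 := fun F => rfl
  -- one component
  have hdv : ∀ (i : σ) (y : σ → ℂ) (F : EN 1 σ),
      dvN (eu (0 : Fin 1)) i y F = dv i y (F 0) := fun i y F => dvN_eu 0 i y F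
  -- the trace
  have hTr' : Z (HN 1 (lo o A)) (trf o (fun _ : IA => eu (0 : Fin 1)) a
      (fun _ : IB => (0 : Fin 1)) b) = ⊥ := by
    rw [eq_bot_iff]
    intro F hF
    rw [mem_Z] at hF
    obtain ⟨h1, h2⟩ := hF
    have h3 : F 0 ∈ Z (Z (H (lo o A)) (rowf (J0 o) Finset.univ a)) (fun k => ev (b k)) := by
      rw [mem_Z, mem_Z_rowf]
      refine ⟨⟨mem_HN.1 h1 0, fun k => h2 (Sum.inl (k, Sum.inl 0)), fun k _ j hj => ?_⟩,
        fun k => h2 (Sum.inr k)⟩
      rw [← hdv]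
      exact h2 (Sum.inl (k, Sum.inr ⟨j, mem_J0.1 hj⟩))
    rw [hTr, Submodule.mem_bot] at h3
    rw [Submodule.mem_bot]
    funext l
    rw [Subsingleton.elim l 0]
    exact h3
  -- the limit residual space
  have hRes' : finrank ℂ (Z (HN 1 (dw o A)) (resf o (fun _ : IA => eu (0 : Fin 1)) a
      (fun _ : IB => (0 : Fin 1)) b (fun _ : IC => eu (0 : Fin 1)) c)) ≤ δ := by
    refine le_trans ?_ hRes
    rw [← LinearEquiv.finrank_map_eq e]
    refine Submodule.finrank_mono ?_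
    rintro f ⟨F, hF, rfl⟩
    have hF' : F ∈ Z (HN 1 (dw o A)) (resf o (fun _ : IA => eu (0 : Fin 1)) a
      (fun _ : IB => (0 : Fin 1)) b (fun _ : IC => eu (0 : Fin 1)) c) := hF
    rw [mem_Z] at hF'
    obtain ⟨h1, h2⟩ := hF'
    change F 0 ∈ _
    rw [mem_Z, mem_Z_rowf, mem_Z_rowf]
    refine ⟨⟨⟨mem_HN.1 h1 0, fun k => h2 (Sum.inr (Sum.inl (k, Sum.inl 0))),
      fun k _ j hj => ?_⟩, fun k => h2 (Sum.inr (Sum.inr (k, Sum.inl 0))),
      fun k _ j _ => ?_⟩, fun k => ?_⟩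
    · rw [← hdv]
      exact h2 (Sum.inr (Sum.inl (k, Sum.inr ⟨j, mem_J0.1 hj⟩)))
    · rw [← hdv]
      exact h2 (Sum.inr (Sum.inr (k, Sum.inr j)))
    · have h3 : evu (eu (0 : Fin 1)) (a k) F = 0 := h2 (Sum.inl k)
      rw [evu_apply] at h3
      simpa [eu] using h3
  -- the step
  obtain ⟨s, hs⟩ := step o A (fun _ : IA => eu (0 : Fin 1)) a ha (fun _ : IB => (0 : Fin 1)) b hb
    (fun _ : IC => eu (0 : Fin 1)) c hc δ hTr' hRes'
  have hcard : Fintype.card (IA ⊕ (IB ⊕ IC)) = r := by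
    rw [Fintype.card_sum, Fintype.card_sum, ← hr, add_assoc]
  refine (kap_le' (H A) Finset.univ
    (Sum.elim a (Sum.elim (fun k => Function.update (b k) o s) c)) hcard).trans (le_trans ?_ hs)
  rw [← LinearEquiv.finrank_map_eq e]
  refine Submodule.finrank_mono ?_
  intro f hf
  rw [mem_Z_rowf] at hf
  obtain ⟨h1, h2, h3⟩ := hf
  refine ⟨fun _ => f, ?_, rfl⟩
  change (fun _ => f : EN 1 σ) ∈ Z (HN 1 A) _
  rw [mem_Z_full]
  refine ⟨mem_HN.2 fun _ => h1, fun k _ => h2 k, fun k i => ?_⟩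
  have hu : (Sum.elim (fun _ : IA => eu (0 : Fin 1))
      (Sum.elim (fun _ : IB => eu (0 : Fin 1)) fun _ : IC => eu (0 : Fin 1))) k =
      eu (0 : Fin 1) := by
    rcases k with k | k | k <;> rfl
  rw [hu]
  have h4 := h3 k (Finset.mem_univ _) i (Finset.mem_univ _)
  simpa [eu] using h4

end Pool.Agent.SV.A
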