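import Pool.Agent.Lib.MP_b54217_ag.A.Cut2

/-!
# THEOREM B.  The Horace method on the hyperplane `x_o = 0`
-/

set_option autoImplicit false

namespace Pool.Agent.SV.A

open MvPolynomial Module Pool.Agent.SV.E

/-- `a` points on `x_o = 0`, `g` points off it.  `F = G + x_o F'`: `G` is double (directions
`J - o`) at the `a` points; if `G = 0` then `F'` is double at the `g` points and zero at the `a`
points; these values cut one by one (`cut2`) until `F' = x_o F''`, `F''` double at the `g` points.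
Choose first the `g` points `c` (`kap_gen` for `H (dw o A)`, `J` and for `H (dw o (dw o A))`, `J2`
and `c_o ≠ 0`), then the `a` points: `Gen` for `kap_gen_lo` and for the cut. -/
theorem zh {σ : Type} [DecidableEq σ] (A : Finset (σ →₀ ℕ)) (J J2 : Finset σ) {o : σ}
    (ho : o ∈ J) (hJ : J2 ⊆ J) (a g : ℕ) :
    kap (H A) J (a + g) ≤ kap (H (lo o A)) (J.erase o) a +
      max (kap (H (dw o A)) J g - a) (kap (H (dw o (dw o A))) J2 g) := by
  classical
  -- the points `c`
  have G3 : Gen fun p : Fin g × σ → ℂ => finrank ℂ (Z (H (dw o A)) (rowf J Finset.univ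
      fun (k : Fin g) i => p (k, i))) ≤ kap (H (dw o A)) J g :=
    kap_gen _ J (Fintype.card_fin g) (fun p k i => p (k, i)) (fun k i => IsPol.coord _)
      fun y0 => ⟨fun x => y0 x.1 x.2, rfl⟩
  have G4 : Gen fun p : Fin g × σ → ℂ => finrank ℂ (Z (H (dw o (dw o A)))
      (rowf J Finset.univ fun (k : Fin g) i => p (k, i))) ≤ kap (H (dw o (dw o A))) J g :=
    kap_gen _ J (Fintype.card_fin g) (fun p k i => p (k, i)) (fun k i => IsPol.coord _)
      fun y0 => ⟨fun x => y0 x.1 x.2, rfl⟩
  have G5 : Gen fun p : Fin g × σ → ℂ => ∀ k : Fin g, p (k, o) ≠ 0 :=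
    Gen.forall fun k => ⟨fun p => p (k, o), IsPol.coord _, ⟨fun _ => 1, one_ne_zero⟩,
      fun p hp => hp⟩
  obtain ⟨pc, hpc1, hpc2, hpc3⟩ := (G3.and (G4.and G5)).exists
  set c : Fin g → σ → ℂ := fun k i => pc (k, i) with hc
  set V' := Z (H (dw o A)) (rowf J Finset.univ c) with hV'
  set U'' := Z (H (dw o (dw o A))) (rowf J Finset.univ c) with hU''
  let μ : MvPolynomial σ ℂ →ₗ[ℂ] MvPolynomial σ ℂ := LinearMap.mulLeft ℂ (X o)
  have hμ : ∀ F, μ F = X o * F := fun F => rfl
  -- cutting by the values on `T`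
  obtain ⟨a1, ha1⟩ := cut2 (P := σ → ℂ) V' (U''.map μ) (fun y => ev (Function.update y o 0))
    (fun F hF hcon => by
      have hF1 : F ∈ Z (H (dw o A)) (rowf J Finset.univ c) := hF
      rw [mem_Z_rowf] at hF1
      obtain ⟨F'', h6, h7, h8, h9⟩ := of_T o (dw o A) J c hpc3 hF1.1 hF1.2.1
        (fun k i hi => hF1.2.2 k (Finset.mem_univ _) i hi) hcon
      refine ⟨F'', ?_, h7.symm⟩
      change F'' ∈ Z (H (dw o (dw o A))) (rowf J Finset.univ c)
      rw [mem_Z_rowf]
      exact ⟨h6, h8, fun k _ i hi => h9 k i hi⟩) a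
  have hcut : finrank ℂ (Z V' fun k => ev (Function.update (a1 k) o 0)) ≤
      max (kap (H (dw o A)) J g - a) (kap (H (dw o (dw o A))) J2 g) := by
    refine ha1.trans (max_le_max (by omega) ?_)
    exact (Submodule.finrank_map_le μ U'').trans (hpc2.trans (kap_anti_dir _ hJ g))
  -- general points `a`
  have G6 : Gen fun p : Fin a × σ → ℂ => finrank ℂ (Z V' fun k => ev (onT o p k)) ≤
      max (kap (H (dw o A)) J g - a) (kap (H (dw o (dw o A))) J2 g) :=
    semi_gen V' (fun k (p : Fin a × σ → ℂ) => ev (onT o p k))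
      (fun k f _ => IsPol.ev f fun i => isPol_onT o k i) (fun x => a1 x.1 x.2) _ hcut
  have G7 : Gen fun p : Fin a × σ → ℂ => finrank ℂ (Z (H (lo o A))
      (rowf (J.erase o) Finset.univ (onT o p))) ≤ kap (H (lo o A)) (J.erase o) a := by
    refine kap_gen_lo o A (J.erase o) (Fintype.card_fin a) (fun p => onT o p)
      (fun k i => isPol_onT o k i) fun y0 => ⟨fun x => y0 x.1 x.2, fun k i hi => ?_⟩
    simp [onT, hi]
  obtain ⟨pa, hpa1, hpa2⟩ := (G6.and G7).exists
  -- all points
  refine (kap_le' (H A) J (Sum.elim (onT o pa) c) (r := a + g) (by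
    simp only [Fintype.card_sum, Fintype.card_fin])).trans ?_
  rw [finrank_le_map_add _ (th o 0).toLinearMap]
  refine add_le_add (le_trans (Submodule.finrank_mono ?_) hpa2)
    (le_trans (le_trans (Submodule.finrank_mono ?_) (Submodule.finrank_map_le μ
      (Z V' fun k => ev (onT o pa k)))) hpa1)
  · rintro _ ⟨F, hF, rfl⟩
    have hF' : F ∈ Z (H A) (rowf J Finset.univ (Sum.elim (onT o pa) c)) := hF
    rw [mem_Z_rowf] at hF'
    obtain ⟨hFA, hF1, hF2⟩ := hF'
    obtain ⟨G, hG, F', hF', hFG⟩ := exists_decomp o hFA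
    have hth : (th o 0).toLinearMap F = G := by
      rw [AlgHom.toLinearMap_apply, hFG, map_add, th_lo hG, th_mul, add_zero]
    rw [hth, mem_Z_rowf]
    refine ⟨hG, fun k => ?_, fun k _ i hi => ?_⟩
    · have := hF1 (Sum.inl k)
      rw [Sum.elim_inl, hFG, map_add, ev_Xmul, onT_o, zero_mul, add_zero] at this
      exact this
    · have := hF2 (Sum.inl k) (Finset.mem_univ _) i (Finset.mem_of_mem_erase hi)
      rw [Sum.elim_inl, hFG, map_add, dv_Xmul, if_neg (Finset.ne_of_mem_erase hi), onT_o,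
        zero_mul, add_zero, add_zero] at this
      exact this
  · rintro F ⟨hF, hker⟩
    have hF' : F ∈ Z (H A) (rowf J Finset.univ (Sum.elim (onT o pa) c)) := hF
    rw [mem_Z_rowf] at hF'
    obtain ⟨hFA, hF1, hF2⟩ := hF'
    obtain ⟨G, hG, F', hF', hFG⟩ := exists_decomp o hFA
    have hth : (th o 0).toLinearMap F = G := by
      rw [AlgHom.toLinearMap_apply, hFG, map_add, th_lo hG, th_mul, add_zero]
    have hG0 : G = 0 := by
      rw [← hth]
      exact LinearMap.mem_ker.1 hker
    rw [hG0, zero_add] at hFG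
    refine ⟨F', ?_, hFG.symm⟩
    have hev : ∀ k, ev (c k) F' = 0 := by
      intro k
      have := hF1 (Sum.inr k)
      rw [Sum.elim_inr, hFG, ev_Xmul] at this
      exact (mul_eq_zero.1 this).resolve_left (hpc3 k)
    change F' ∈ Z V' fun k => ev (onT o pa k)
    rw [mem_Z]
    refine ⟨?_, fun k => ?_⟩
    · rw [hV', mem_Z_rowf]
      refine ⟨hF', hev, fun k _ i hi => ?_⟩
      have := hF2 (Sum.inr k) (Finset.mem_univ _) i hi
      rw [Sum.elim_inr, hFG, dv_Xmul, hev k, ite_self, zero_add] at this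
      exact (mul_eq_zero.1 this).resolve_left (hpc3 k)
    · have := hF2 (Sum.inl k) (Finset.mem_univ _) o ho
      rw [Sum.elim_inl, hFG, dv_Xmul, if_pos rfl, onT_o, zero_mul, add_zero] at this
      exact this

end Pool.Agent.SV.A
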