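import Mathlib

/-!
# THEOREM B.  Arithmetic of the Horace step in a block

`A, A0, A1, A2` = numbers of exponents of `A`, `lo o A`, `dw o A`, `dw o (dw o A)`; `e` = the
degree and `b` = the number of variables of the block; `T = |S| + 1`; `κ, κ0, κ1, κ2` are the
dimensions.
-/

set_option autoImplicit false

namespace Pool.Agent.SV.A

/-- the key inequality of `zhnum2` with `T = b + 2 + s` -/
theorem zhnum2_key (b s n : ℕ) :
    2 * ((b + 2 + s) * (b + 1 + s) * n) + (b + 2 + s) * (s + 2) * (n * (b + 1) * b) +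
      (b + 1 + s) * b * (n * (b + 1) * (b + 2)) ≤
      (b + 2 + s) * (b + 1 + s) * (n * (b + 1) * (b + 2)) := by
  have h : (b + 2 + s) * (b + 1 + s) * (n * (b + 1) * (b + 2)) =
      2 * ((b + 2 + s) * (b + 1 + s) * n) + (b + 2 + s) * (s + 2) * (n * (b + 1) * b) +
      (b + 1 + s) * b * (n * (b + 1) * (b + 2)) + n * (s * (b ^ 2 + 3 * b) + 2 * s ^ 2 * b) := by
    ring
  omega

/-- the second case -/
theorem zhnum2_aux (b s n A A0 a g : ℕ) (hA : 2 * A = n * (b + 1) * (b + 2))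
    (hA0 : 2 * A0 = n * (b + 1) * b) (ha : (b + 1 + s) * a ≤ A0)
    (hg : (b + 2 + s) * (a + g) ≤ A) : n + (b + 2 + s) * a + b * g ≤ A := by
  have hk := zhnum2_key b s n
  rw [← hA, ← hA0] at hk
  have h1 : (b + 2 + s) * (s + 2) * ((b + 1 + s) * a) ≤ (b + 2 + s) * (s + 2) * A0 :=
    Nat.mul_le_mul_left _ ha
  have h2 : (b + 1 + s) * b * ((b + 2 + s) * (a + g)) ≤ (b + 1 + s) * b * A :=
    Nat.mul_le_mul_left _ hg
  have h3 : (b + 2 + s) * (b + 1 + s) * (n + (b + 2 + s) * a + b * g) =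
      (b + 2 + s) * (b + 1 + s) * n + (b + 2 + s) * (s + 2) * ((b + 1 + s) * a) +
      (b + 1 + s) * b * ((b + 2 + s) * (a + g)) := by
    ring
  have h4 : 2 * ((b + 2 + s) * (b + 1 + s) * n) + (b + 2 + s) * (s + 2) * (2 * A0) +
      (b + 1 + s) * b * (2 * A) = 2 * ((b + 2 + s) * (b + 1 + s) * n +
        (b + 2 + s) * (s + 2) * A0 + (b + 1 + s) * b * A) := by
    ring
  have h5 : (b + 2 + s) * (b + 1 + s) * (2 * A) = 2 * ((b + 2 + s) * (b + 1 + s) * A) := by ring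
  have h6 : (b + 2 + s) * (b + 1 + s) * (n + (b + 2 + s) * a + b * g) ≤
      (b + 2 + s) * (b + 1 + s) * A := by
    rw [h3]
    omega
  exact Nat.le_of_mul_le_mul_left h6 (by positivity)

/-- `e = 2`: the last system has lost the block, `T - b` instead of `T`.
`a = min (r, A0 / (T - 1))`, `g = r - a`; the point is
`2 T (T - 1) ≤ (T - b) (b + 1) (2 (T - 1) - b)` for `T ≥ b + 2`. -/
theorem zhnum2 {A A0 A1 A2 T b r κ K0 K1 K2 : ℕ} {κ0 κ1 κ2 : ℕ → ℕ}
    (h0 : A0 + A1 = A) (hr1 : A * 2 = A1 * (b + 2)) (hr2 : A1 = A2 * (b + 1))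
    (hb : 1 ≤ b) (hT : b + 2 ≤ T)
    (hκ0 : ∀ a, κ0 a ≤ A0 - (T - 1) * a + K0) (hκ1 : ∀ g, κ1 g ≤ A1 - T * g + K1)
    (hκ10 : κ1 0 ≤ A1) (hκ2 : ∀ g, κ2 g ≤ A2 - (T - b) * g + K2) (hκ20 : κ2 0 ≤ A2)
    (hκ : ∀ a g, a + g = r → κ ≤ κ0 a + max (κ1 g - a) (κ2 g)) (hr : T * r ≤ A) :
    κ ≤ A - T * r + (K0 + K1 + K2 + T) := by
  obtain ⟨s, rfl⟩ := Nat.exists_eq_add_of_le hT
  have e1 : b + 2 + s - 1 = b + 1 + s := by omega
  have e2 : b + 2 + s - b = s + 2 := by omega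
  rw [e1] at hκ0
  rw [e2] at hκ2
  have hA : 2 * A = A2 * (b + 1) * (b + 2) := by
    rw [mul_comm 2 A, hr1, hr2]
  have hA0 : 2 * A0 = A2 * (b + 1) * b := by
    have : A2 * (b + 1) * (b + 2) = A2 * (b + 1) * b + 2 * (A2 * (b + 1)) := by ring
    omega
  have hTr : (b + 2 + s) * r = (b + 1 + s) * r + r := by ring
  rcases le_or_gt r (A0 / (b + 1 + s)) with hc | hc
  · have h1 : (b + 1 + s) * r ≤ A0 := by
      rw [mul_comm]
      exact (Nat.le_div_iff_mul_le (by omega)).1 hc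
    have h2 : 2 * r ≤ A2 * b := by
      have h3 : (b + 1) * r ≤ (b + 1 + s) * r := Nat.mul_le_mul_right _ (by omega)
      have h4 : (b + 1) * (2 * r) ≤ (b + 1) * (A2 * b) := by
        have : (b + 1) * (A2 * b) = A2 * (b + 1) * b := by ring
        have h5 : (b + 1) * (2 * r) = 2 * ((b + 1) * r) := by ring
        omega
      exact Nat.le_of_mul_le_mul_left h4 (by omega)
    have h6 : A1 = A2 * b + A2 := by rw [hr2]; ring
    have h7 := hκ r 0 (by omega)
    have h8 := hκ0 r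
    rcases max_cases (κ1 0 - r) (κ2 0) with ⟨h9, _⟩ | ⟨h9, _⟩
    · rw [h9] at h7
      omega
    · rw [h9] at h7
      omega
  · have h1 : (b + 1 + s) * (A0 / (b + 1 + s)) ≤ A0 := Nat.mul_div_le _ _
    have h2 : A0 < (b + 1 + s) * (A0 / (b + 1 + s)) + (b + 1 + s) := by
      have := Nat.lt_mul_div_succ A0 (show 0 < b + 1 + s by omega)
      rw [mul_add, mul_one] at this
      exact this
    obtain ⟨g, hg⟩ := Nat.exists_eq_add_of_le hc.le
    generalize A0 / (b + 1 + s) = a at *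
    have h7 := hκ a g hg.symm
    have h8 := hκ0 a
    have h9 := hκ1 g
    have h10 := hκ2 g
    have h11 := zhnum2_aux b s A2 A A0 a g hA hA0 h1 (by rw [← hg]; exact hr)
    have h12 : (b + 2 + s) * r = (b + 2 + s) * a + (b + 2 + s) * g := by rw [hg, mul_add]
    have h13 : (b + 2 + s) * a = (b + 1 + s) * a + a := by ring
    have h14 : (b + 2 + s) * g = (s + 2) * g + b * g := by ring
    rcases max_cases (κ1 g - a) (κ2 g) with ⟨h15, _⟩ | ⟨h15, _⟩
    · rw [h15] at h7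
      omega
    · rw [h15] at h7
      omega

end Pool.Agent.SV.A
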