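import Mathlib

/-!
# THEOREM B.  Arithmetic of the Horace step in a block

`A, A0, A1, A2` = numbers of exponents of `A`, `lo o A`, `dw o A`, `dw o (dw o A)`; `e` = the
degree and `b` = the number of variables of the block; `T = |S| + 1`; `κ, κ0, κ1, κ2` are the
dimensions.
-/

set_option autoImplicit false

namespace Pool.Agent.SV.A

/-- `e ≥ 3`: the constant `K` does not grow.  `r = A / T`, `a = A0 / (T - 1)`, `g = r - a`;
`A1 - T g = a + ρ - ε`, `T g - A2 = (A1 - A2) - a - ρ + ε`, `ρ = A - T r`, `ε = A0 - (T - 1) a`;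
`hκ1` for `j = A1 / T` and `hκ2` for `j = A2 / T + 1`; `(b + 2) ((A1 - A2) - a) ≥ A0`. -/
theorem zhnumR {A A0 A1 A2 T b e κ K0 K : ℕ} {κ0 κ1 κ2 : ℕ → ℕ}
    (h0 : A0 + A1 = A) (hr1 : A * e = A1 * (b + e)) (hr2 : A1 * (e - 1) = A2 * (b + (e - 1)))
    (he : 3 ≤ e) (hb : 1 ≤ b) (hT : b + 1 ≤ T) (hT3 : 3 ≤ T)
    (hκ0 : ∀ a, κ0 a ≤ A0 - (T - 1) * a + K0)
    (hκ1 : ∀ g j, g ≤ j → T * j ≤ A1 → κ1 g + T * g ≤ A1 + (K - (j - g)))
    (hκ2 : ∀ g j, j ≤ g → A2 ≤ T * j → κ2 g ≤ K - (g - j))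
    (hκ : ∀ a g, a + g = A / T → κ ≤ κ0 a + max (κ1 g - a) (κ2 g))
    (hK : K0 + 2 * T ≤ K) (hA : (T + 1) * T * (K0 + 2 * T + 2) ≤ A0) :
    κ + T ≤ A - T * (A / T) + K := by
  obtain ⟨f, rfl⟩ : ∃ f, e = f + 1 := ⟨e - 1, by omega⟩
  have hf : 2 ≤ f := by omega
  simp only [Nat.add_sub_cancel] at hr2
  -- integers
  have z0 : (A0 : ℤ) + A1 = A := by exact_mod_cast h0
  have z1 : (A : ℤ) * (f + 1) = A1 * (b + (f + 1)) := by exact_mod_cast hr1
  have z2 : (A1 : ℤ) * f = A2 * (b + f) := by exact_mod_cast hr2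
  have zf : (2 : ℤ) ≤ f := by exact_mod_cast hf
  have zb : (1 : ℤ) ≤ b := by exact_mod_cast hb
  have zT : (b : ℤ) + 1 ≤ T := by exact_mod_cast hT
  have zT3 : (3 : ℤ) ≤ T := by exact_mod_cast hT3
  have zK : (K0 : ℤ) + 2 * T ≤ K := by exact_mod_cast hK
  have zA : ((T : ℤ) + 1) * T * (K0 + 2 * T + 2) ≤ A0 := by exact_mod_cast hA
  have zA0 : (0 : ℤ) ≤ A0 := Int.natCast_nonneg _
  have zA1 : (0 : ℤ) ≤ A1 := Int.natCast_nonneg _
  have zA2 : (0 : ℤ) ≤ A2 := Int.natCast_nonneg _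
  have zK0 : (0 : ℤ) ≤ K0 := Int.natCast_nonneg _
  have zT0 : (0 : ℤ) < T := by linarith only [zT3]
  have zTm : (0 : ℤ) ≤ T - 1 := by linarith only [zT3]
  have zbT : (b : ℤ) ≤ T - 1 := by linarith only [zT]
  have zT2 : (2 : ℤ) ≤ T - 1 := by linarith only [zT3]
  have zb2 : (0 : ℤ) < b + 2 := by linarith only [zb]
  have zKT' : (0 : ℤ) ≤ K0 + 2 * T + 2 := by linarith only [zK0, zT0]
  have zKT : (0 : ℤ) ≤ T * (K0 + 2 * T + 2) := mul_nonneg zT0.le zKT'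
  -- `A0 e = A1 b`
  have q1 : (A0 : ℤ) * (f + 1) = A1 * b := by linear_combination z1 + (f + 1) * z0
  -- `(A1 - A2) (b + f) = A0 e`
  have q2 : ((A1 : ℤ) - A2) * (b + f) = A0 * (f + 1) := by linear_combination z2 - q1
  have q3 : (3 : ℤ) * A0 ≤ (b + 2) * (A1 - A2) := by
    have h1 : (0 : ℤ) < b + f := by linarith only [zb, zf]
    have h2 : (3 : ℤ) * A0 * (b + f) ≤ (b + 2) * (A1 - A2) * (b + f) := by
      have h3 : (b + 2) * ((A1 : ℤ) - A2) * (b + f) = (b + 2) * (A0 * (f + 1)) := by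
        rw [← q2]; ring
      rw [h3]
      have h4 := mul_nonneg zA0 (mul_nonneg (sub_nonneg.2 zb) (sub_nonneg.2 zf))
      linarith only [h4]
    exact le_of_mul_le_mul_right h2 h1
  -- the number `r`
  set r : ℕ := A / T with hr
  have hTpos : 0 < T := by omega
  have r1 : T * r ≤ A := Nat.mul_div_le A T
  have r2 : A < T * r + T := by
    have := Nat.lt_mul_div_succ A hTpos
    rw [mul_add, mul_one] at this
    exact this
  -- the number `a`
  have hT1 : 0 < T - 1 := by omega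
  obtain ⟨a, ha⟩ : ∃ a, a = A0 / (T - 1) := ⟨_, rfl⟩
  have a1 : (T - 1) * a ≤ A0 := by rw [ha]; exact Nat.mul_div_le A0 (T - 1)
  have a2 : A0 < (T - 1) * a + (T - 1) := by
    have := Nat.lt_mul_div_succ A0 hT1
    rw [mul_add, mul_one, ← ha] at this
    exact this
  have zT1 : (((T - 1 : ℕ) : ℤ)) = (T : ℤ) - 1 := by
    rw [Nat.cast_sub (by omega)]; simp
  have za1 : ((T : ℤ) - 1) * a ≤ A0 := by rw [← zT1]; exact_mod_cast a1
  have za2 : (A0 : ℤ) < ((T : ℤ) - 1) * a + (T - 1) := by rw [← zT1]; exact_mod_cast a2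
  have za0 : (0 : ℤ) ≤ a := Int.natCast_nonneg _
  have zr1 : (T : ℤ) * r ≤ A := by exact_mod_cast r1
  have zr2 : (A : ℤ) < T * r + T := by exact_mod_cast r2
  -- `a` is large
  have zal : ((T : ℤ) + 1) * (K0 + 2 * T + 2) ≤ a := by
    by_contra hc
    push Not at hc
    have h1 : (a : ℤ) + 1 ≤ ((T : ℤ) + 1) * (K0 + 2 * T + 2) := hc
    have h2 : ((T : ℤ) - 1) * (a + 1) ≤ (T - 1) * (((T : ℤ) + 1) * (K0 + 2 * T + 2)) :=
      mul_le_mul_of_nonneg_left h1 zTm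
    have h3 : (0 : ℤ) ≤ ((T : ℤ) + 1) * (K0 + 2 * T + 2) :=
      mul_nonneg (by linarith only [zT0]) zKT'
    linarith only [h1, h2, h3, za2, zA]
  -- `a ≤ r`
  have zar : (T : ℤ) * a ≤ A := by
    have h1 : (b : ℤ) * a ≤ A0 := by
      have : (b : ℤ) * a ≤ (T - 1) * a := mul_le_mul_of_nonneg_right zbT za0
      linarith only [this, za1]
    have h2 : (a : ℤ) ≤ A1 := by
      have h3 : (b : ℤ) * a ≤ b * A1 := by
        have : (0 : ℤ) ≤ A0 * f := mul_nonneg zA0 (Int.natCast_nonneg _)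
        linarith only [this, h1, q1]
      exact le_of_mul_le_mul_left h3 (by linarith only [zb])
    linarith only [h2, za1, z0]
  have har : a ≤ r := by
    rw [hr]
    have h : T * a ≤ A := by exact_mod_cast zar
    rw [Nat.le_div_iff_mul_le hTpos, mul_comm]
    exact h
  obtain ⟨g, hg⟩ : ∃ g, a + g = r := ⟨r - a, by omega⟩
  have zg : (a : ℤ) + g = r := by exact_mod_cast hg
  have hκ' := hκ a g hg
  have e0 := hκ0 a
  -- `ε` and `ρ`
  obtain ⟨ε, hε⟩ : ∃ ε, ε = A0 - (T - 1) * a := ⟨_, rfl⟩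
  obtain ⟨ρ, hρ⟩ : ∃ ρ, ρ = A - T * r := ⟨_, rfl⟩
  rw [← hρ]
  rw [← hε] at e0
  have ε1 : (ε : ℤ) = A0 - (T - 1) * a := by
    rw [hε, Nat.cast_sub a1, Nat.cast_mul, zT1]
  have ρ1 : (ρ : ℤ) = A - T * r := by
    rw [hρ, Nat.cast_sub r1, Nat.cast_mul]
  have ε2 : (ε : ℤ) ≤ T - 2 := by linarith only [ε1, za2]
  have ρ2 : (ρ : ℤ) ≤ T - 1 := by linarith only [ρ1, zr2]
  have ε0 : (0 : ℤ) ≤ ε := Int.natCast_nonneg _
  have ρ0 : (0 : ℤ) ≤ ρ := Int.natCast_nonneg _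
  have hTg : (T : ℤ) * g = A1 + ε - ρ - a := by
    have : (g : ℤ) = r - a := by linarith only [zg]
    rw [this]
    linear_combination (-1 : ℤ) * ε1 + ρ1 - z0
  have zaT : (2 : ℤ) * T ≤ a := by linarith only [zal, zKT, zK0, zT0]
  -- the second term
  have s1 : κ0 a + (κ1 g - a) + T ≤ ρ + K := by
    obtain ⟨j, hj⟩ : ∃ j, j = A1 / T := ⟨_, rfl⟩
    have j1 : T * j ≤ A1 := by rw [hj]; exact Nat.mul_div_le A1 T
    have j2 : A1 < T * j + T := by
      have := Nat.lt_mul_div_succ A1 hTpos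
      rw [mul_add, mul_one, ← hj] at this
      exact this
    have zj1 : (T : ℤ) * j ≤ A1 := by exact_mod_cast j1
    have zj2 : (A1 : ℤ) < T * j + T := by exact_mod_cast j2
    have hd : (K0 : ℤ) + T + g ≤ j := by
      have hTT : (0 : ℤ) ≤ T * T := mul_nonneg zT0.le zT0.le
      have h1 : (T : ℤ) * (K0 + T + g) ≤ T * j := by
        linarith only [hTT, zj2, hTg, zal, ε2, ρ0, zK0, zT0, zT3]
      exact le_of_mul_le_mul_left h1 zT0
    have hd' : K0 + T + g ≤ j := by exact_mod_cast hd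
    have h1 := hκ1 g j (by omega) j1
    have h2 : (T : ℤ) * g + a + ρ = A1 + ε := by linarith only [hTg]
    have h3 : T * g + a + ρ = A1 + ε := by exact_mod_cast h2
    have h4 : ε + 2 ≤ T := by
      have : (ε : ℤ) + 2 ≤ T := by linarith only [ε2]
      exact_mod_cast this
    generalize T * g = x at h1 h3
    omega
  have s2 : κ0 a + κ2 g + T ≤ ρ + K := by
    obtain ⟨j, hj⟩ : ∃ j, j = A2 / T + 1 := ⟨_, rfl⟩
    have j1 : A2 ≤ T * j := by
      have := Nat.lt_mul_div_succ A2 hTpos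
      rw [← hj] at this
      exact this.le
    have j2 : T * j ≤ A2 + T := by
      rw [hj, mul_add, mul_one]
      have := Nat.mul_div_le A2 T
      omega
    have zj2 : (T : ℤ) * j ≤ A2 + T := by exact_mod_cast j2
    have h5 : (b + 2 : ℤ) * a ≤ 2 * A0 := by
      have h6 : (b : ℤ) * a ≤ (T - 1) * a := mul_le_mul_of_nonneg_right zbT za0
      have h7 : (2 : ℤ) * a ≤ (T - 1) * a := mul_le_mul_of_nonneg_right zT2 za0
      linarith only [h6, h7, za1]
    have h8 : (A0 : ℤ) ≤ (b + 2) * (A1 - A2 - a) := by linarith only [h5, q3]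
    have h9 : (T : ℤ) * (K0 + 2 * T + 2) ≤ A1 - A2 - a := by
      have h10 : (b + 2 : ℤ) * (T * (K0 + 2 * T + 2)) ≤ (b + 2) * (A1 - A2 - a) := by
        have h11 : (b + 2 : ℤ) * (T * (K0 + 2 * T + 2)) ≤ (T + 1) * (T * (K0 + 2 * T + 2)) :=
          mul_le_mul_of_nonneg_right (by linarith only [zT]) zKT
        linarith only [h11, h8, zA]
      exact le_of_mul_le_mul_left h10 zb2
    have hd : (K0 : ℤ) + 2 * T + j ≤ g := by
      have h1 : (T : ℤ) * (K0 + 2 * T + j) ≤ T * g := by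
        linarith only [h9, hTg, zj2, ρ2, ε0, zT0, zK0]
      exact le_of_mul_le_mul_left h1 zT0
    have hd' : K0 + 2 * T + j ≤ g := by exact_mod_cast hd
    have h1 := hκ2 g j (by omega) j1
    have h4 : ε + 2 ≤ T := by
      have : (ε : ℤ) + 2 ≤ T := by linarith only [ε2]
      exact_mod_cast this
    omega
  rcases le_total (κ1 g - a) (κ2 g) with h | h
  · rw [max_eq_right h] at hκ'
    omega
  · rw [max_eq_left h] at hκ'
    omega

end Pool.Agent.SV.A
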