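import Pool.Agent.Lib.MP_b54217_ag.A.Bas
import Pool.Agent.Lib.MP_b54217_ag.A.ZH
import Pool.Agent.Lib.MP_b54217_ag.A.ZHnum
import Pool.Agent.Lib.MP_b54217_ag.A.ZHnumR

/-!
# THEOREM B.  The Horace step in a block of degree at least two
-/

set_option autoImplicit false

namespace Pool.Agent.SV.A

open MvPolynomial Module Pool.Agent.SV.E
open Pool.Agent.SV.G (Sg DD mem_DD)

variable {k : ℕ} {M : Fin k → ℕ}

theorem lo_DS {S : Finset (Sg M)} {δ : Fin k → ℕ} (o : Sg M) :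
    lo o (DS S δ) = DS (S.erase o) δ := by
  ext a
  rw [mem_lo, mem_DS, mem_DS, and_assoc]
  refine and_congr_right fun _ => ⟨?_, fun h => ⟨fun x hx => ?_, ?_⟩⟩
  · rintro ⟨h1, h2⟩ x hx
    by_cases hxo : x = o
    · rw [hxo, h2]
    · exact h1 x fun h => hx (Finset.mem_erase.2 ⟨hxo, h⟩)
  · exact h x fun h' => hx (Finset.mem_of_mem_erase h')
  · exact h o (Finset.notMem_erase o S)

theorem dw_DS {S : Finset (Sg M)} {δ : Fin k → ℕ} {o : Sg M} (ho : o ∈ S) (hδ : 1 ≤ δ o.1) :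
    dw o (DS S δ) = DS S (dm o.1 δ) := by
  ext a
  rw [mem_dw, mem_DS_add ho hδ]

theorem dm_self (i : Fin k) (δ : Fin k → ℕ) : dm i δ i = δ i - 1 := by
  unfold dm
  rw [if_pos rfl]

theorem bs_pos {S : Finset (Sg M)} {o : Sg M} (ho : o ∈ S) : 1 ≤ bs S o.1 := by
  refine Finset.card_pos.2 ⟨o.2, ?_⟩
  rw [Finset.mem_filter]
  exact ⟨Finset.mem_univ _, ho⟩

/-- Degree two: `zh` with `J2 = wb S o.1`, `ratio`, `zhnum2`, `SB.of_le`;
`dw o (dw o (DS S δ)) = DS (wb S o.1) δ`. -/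
theorem zhSB2 {S : Finset (Sg M)} {δ : Fin k → ℕ} {o : Sg M} {K0 K1 K2 : ℕ} (ho : o ∈ S)
    (hδ : δ o.1 = 2) (hS : bs S o.1 + 1 ≤ S.card)
    (h0 : SB (S.erase o) δ K0) (h1 : SB S (dm o.1 δ) K1) (h2 : SB (wb S o.1) δ K2) :
    SB S δ (K0 + K1 + K2 + 2 * (S.card + 1)) := by
  have hb := bs_pos ho
  have hwb := card_wb S o.1
  have hd1 : dw o (DS S δ) = DS S (dm o.1 δ) := dw_DS ho (by omega)
  have hdm1 : dm o.1 δ o.1 = 1 := by rw [dm_self, hδ]
  have hd2 : dw o (DS S (dm o.1 δ)) = DS (wb S o.1) δ := by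
    rw [dw_DS ho (by omega), DS_wb S o.1 (by rw [dm_self, hdm1])]
    refine DS_congr fun x hx => ?_
    have hx1 := (mem_wb.1 hx).2
    unfold dm
    rw [if_neg (Ne.symm hx1), if_neg (Ne.symm hx1)]
  have hr1 := ratio S δ o.1 (by omega)
  have hr2 := ratio S (dm o.1 δ) o.1 (by omega)
  have hd3 : DS S (dm o.1 (dm o.1 δ)) = DS (wb S o.1) δ := by
    rw [← hd2, dw_DS ho (by omega)]
  rw [hd3, hdm1, mul_one] at hr2
  rw [hδ] at hr1
  have hc0 := card_lo_add_card_dw o (DS S δ)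
  rw [lo_DS, hd1] at hc0
  have hcard : (S.erase o).card + 1 = S.card := Finset.card_erase_add_one ho
  have key : ∀ r, (S.card + 1) * r ≤ (DS S δ).card →
      kS S δ r ≤ (DS S δ).card - (S.card + 1) * r + (K0 + K1 + K2 + (S.card + 1)) := by
    intro r hr
    refine zhnum2 (A := (DS S δ).card) (A0 := (DS (S.erase o) δ).card)
      (A1 := (DS S (dm o.1 δ)).card) (A2 := (DS (wb S o.1) δ).card) (T := S.card + 1)
      (b := bs S o.1) (r := r) (κ := kS S δ r) (K0 := K0) (K1 := K1) (K2 := K2)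
      (κ0 := kS (S.erase o) δ) (κ1 := kS S (dm o.1 δ)) (κ2 := kS (wb S o.1) δ)
      hc0 hr1 hr2 hb (by omega) ?_ ?_ ?_ ?_ ?_ ?_ hr
    · intro a
      have := h0 a
      rwa [hcard] at this
    · exact h1
    · unfold kS
      rw [kap_zero, finrank_H]
    · intro g
      have := h2 g
      have e : S.card + 1 - bs S o.1 = (wb S o.1).card + 1 := by omega
      rwa [e]
    · unfold kS
      rw [kap_zero, finrank_H]
    · intro a g hag
      have := zh (DS S δ) S (wb S o.1) ho (Finset.filter_subset _ _) a g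
      rw [lo_DS, hd1, hd2, hag] at this
      exact this
  have := SB.of_le key
  exact this.mono (by omega)

/-- Degree at least three, the constant `K` does not grow: `zh` with `J2 = S`, `ratio`,
`zhnumR` (`SB.sub`, `SB.super`), `SB.of_crit`. -/
theorem zhSBR {S : Finset (Sg M)} {δ : Fin k → ℕ} {o : Sg M} {K0 K : ℕ} (ho : o ∈ S)
    (hδ : 3 ≤ δ o.1) (hS : 2 ≤ S.card)
    (h0 : SB (S.erase o) δ K0) (h1 : SB S (dm o.1 δ) K) (h2 : SB S (dm o.1 (dm o.1 δ)) K)
    (hK : K0 + 2 * (S.card + 1) ≤ K)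
    (hA : (S.card + 2) * (S.card + 1) * (K0 + 2 * (S.card + 1) + 2) ≤
      (DS (S.erase o) δ).card) :
    SB S δ K := by
  have hb := bs_pos ho
  have hwb := card_wb S o.1
  have hd1 : dw o (DS S δ) = DS S (dm o.1 δ) := dw_DS ho (by omega)
  have hdm1 : dm o.1 δ o.1 = δ o.1 - 1 := dm_self _ _
  have hd2 : dw o (DS S (dm o.1 δ)) = DS S (dm o.1 (dm o.1 δ)) := dw_DS ho (by omega)
  have hr1 := ratio S δ o.1 (by omega)
  have hr2 := ratio S (dm o.1 δ) o.1 (by omega)
  rw [hdm1] at hr2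
  have hc0 := card_lo_add_card_dw o (DS S δ)
  rw [lo_DS, hd1] at hc0
  have hcard : (S.erase o).card + 1 = S.card := Finset.card_erase_add_one ho
  have key := zhnumR (A := (DS S δ).card) (A0 := (DS (S.erase o) δ).card)
      (A1 := (DS S (dm o.1 δ)).card) (A2 := (DS S (dm o.1 (dm o.1 δ))).card) (T := S.card + 1)
      (b := bs S o.1) (e := δ o.1) (κ := kS S δ ((DS S δ).card / (S.card + 1))) (K0 := K0)
      (K := K) (κ0 := kS (S.erase o) δ) (κ1 := kS S (dm o.1 δ))
      (κ2 := kS S (dm o.1 (dm o.1 δ)))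
      hc0 hr1 hr2 hδ hb (by omega) (by omega)
      (by
        intro a
        have := h0 a
        rwa [hcard] at this)
      (fun g j hg hj => h1.sub hg hj)
      (fun g j hg hj => h2.super hg hj)
      (by
        intro a g hag
        have := zh (DS S δ) S S ho (Finset.Subset.refl _) a g
        rw [lo_DS, hd1, hd2, hag] at this
        exact this)
      hK (by
        have e : S.card + 1 + 1 = S.card + 2 := rfl
        rw [e]
        exact hA)
  have h3 := SB.of_crit (S := S) (δ := δ) (K := K - (S.card + 1)) (by omega)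
  exact h3.mono (by omega)

end Pool.Agent.SV.A
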