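import Pool.Agent.Lib.MP_b54217_ag.A.LinW
import Pool.Agent.Lib.MP_b54217_ag.A.ZHW
import Pool.Agent.Lib.MP_b54217_ag.A.Base1

/-!
# THEOREM B.  `W` for all sets of variables which meet the block `j`
-/

set_option autoImplicit false

namespace Pool.Agent.SV.A

open MvPolynomial Module Pool.Agent.SV.E
open Pool.Agent.SV.G (Sg DD mem_DD)

variable {k : ℕ} {M : Fin k → ℕ}

theorem dm_ne {i i' : Fin k} (h : i ≠ i') (δ : Fin k → ℕ) : dm i δ i' = δ i' := by
  unfold dm
  rw [if_neg h]

/-- `S` meets another block `o.1`.  Induction on the degree `t = δ o.1`: `t = 1`: `linSB` and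
`W.psub`; `t = 2`: `zhSB2`; `t ≥ 3`: `zhSBR` (`|DS (S.erase o) δ| ≥ δ j + 1`). -/
theorem W_stepA {j : Fin k} {S : Finset (Sg M)} {o : Sg M} (ho : o ∈ S) (hoj : o.1 ≠ j)
    (hS : ∃ x ∈ S, x.1 = j) (h0 : W j (S.erase o)) (h1 : W j (wb S o.1)) : W j S := by
  classical
  obtain ⟨x, hxS, hxj⟩ := hS
  have hxw : x ∈ wb S o.1 := mem_wb.2 ⟨hxS, by rw [hxj]; exact Ne.symm hoj⟩
  have hxo : x ∈ S.erase o := Finset.mem_erase.2 ⟨by
    rintro rfl
    exact hoj hxj, hxS⟩
  obtain ⟨K1, d1, hlin⟩ := linSB (j := j) (i := o.1) (S := S) ⟨o, ho, rfl⟩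
    (h1.psub ⟨x, hxw, hxj⟩)
  obtain ⟨K0, d2, h0⟩ := h0
  obtain ⟨K2, d3, h1⟩ := h1
  have hcw := card_wb S o.1
  have hcw1 : 1 ≤ (wb S o.1).card := Finset.card_pos.2 ⟨x, hxw⟩
  have hb := bs_pos ho
  set K := K0 + K1 + K2 + 2 * (S.card + 1) with hK
  set D := d1 + d2 + d3 + (S.card + 2) * (S.card + 1) * (K0 + 2 * (S.card + 1) + 2) with hD
  refine ⟨K, D, ?_⟩
  have key : ∀ (t : ℕ) (δ : Fin k → ℕ), δ o.1 = t → Adm j D δ → SB S δ K := by
    intro t
    induction t using Nat.strong_induction_on with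
    | _ t ih =>
      intro δ hδ hA
      have ht1 := hA.2 o.1
      rcases Nat.lt_or_ge t 2 with ht | ht
      · exact (hlin δ (hA.mono (by omega)) (by omega)).mono (by omega)
      rcases Nat.lt_or_ge t 3 with ht3 | ht3
      · have hA1 : Adm j D (dm o.1 δ) := hA.low_ne hoj (by omega)
        exact zhSB2 ho (by omega) (by omega) (h0 δ (hA.mono (by omega)))
          (hlin (dm o.1 δ) (hA1.mono (by omega)) (by rw [dm_self]; omega))
          (h1 δ (hA.mono (by omega)))
      · have hA1 : Adm j D (dm o.1 δ) := hA.low_ne hoj (by omega)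
        have hA2 : Adm j D (dm o.1 (dm o.1 δ)) := hA1.low_ne hoj (by rw [dm_self]; omega)
        refine zhSBR ho (by omega) (by omega) (h0 δ (hA.mono (by omega)))
          (ih (t - 1) (by omega) _ (by rw [dm_self]; omega) hA1)
          (ih (t - 2) (by omega) _ (by rw [dm_self, dm_self]; omega) hA2) (by omega) ?_
        have h4 := card_ge (δ := δ) hxo
        rw [hxj] at h4
        have h5 := hA.1
        omega
  exact fun δ hδ => key _ δ rfl hδ

/-- `S` is contained in one block.  Induction on the degree `d = δ o.1 ≥ d1`: `d = d1, d1 + 1`: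
`SB.triv` (`DS S δ` depends only on `d`: `DS_congr`); `d ≥ d1 + 2`: `zhSBR`. -/
theorem W_stepB {S : Finset (Sg M)} {o : Sg M} (ho : o ∈ S) (hS : ∀ x ∈ S, x.1 = o.1)
    (h2 : 2 ≤ S.card) (h0 : W o.1 (S.erase o)) : W o.1 S := by
  classical
  obtain ⟨K0, d0, h0⟩ := h0
  set D := d0 + (S.card + 2) * (S.card + 1) * (K0 + 2 * (S.card + 1) + 2) + 3 with hD
  set K := K0 + 2 * (S.card + 1) + (DS S fun _ => D).card + (DS S fun _ => D + 1).card with hK
  obtain ⟨x, hx⟩ : (S.erase o).Nonempty := by
    rw [← Finset.card_pos]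
    have := Finset.card_erase_add_one ho
    omega
  have hxj : x.1 = o.1 := hS x (Finset.mem_of_mem_erase hx)
  refine ⟨K, D, ?_⟩
  have key : ∀ (t : ℕ) (δ : Fin k → ℕ), δ o.1 = D + t → (∀ i, 1 ≤ δ i) → SB S δ K := by
    intro t
    induction t using Nat.strong_induction_on with
    | _ t ih =>
      intro δ hδ hA
      rcases Nat.eq_zero_or_pos t with ht | ht
      · have h3 : DS S δ = DS S fun _ => D := DS_congr fun y hy => by
          rw [hS y hy, hδ, ht, add_zero]
        have h4 := SB.triv S δ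
        rw [h3] at h4
        exact h4.mono (by omega)
      rcases Nat.lt_or_ge t 2 with ht2 | ht2
      · have h3 : DS S δ = DS S fun _ => D + 1 := DS_congr fun y hy => by
          rw [hS y hy, hδ]
          omega
        have h4 := SB.triv S δ
        rw [h3] at h4
        exact h4.mono (by omega)
      · have hA1 : Adm o.1 (D + t - 1) (dm o.1 δ) :=
          Adm.low ⟨by omega, hA⟩ (by omega)
        have hA2 : Adm o.1 (D + t - 2) (dm o.1 (dm o.1 δ)) :=
          Adm.low (hA1.mono (by omega)) (by rw [dm_self]; omega)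
        refine zhSBR ho (by omega) h2 (h0 δ ⟨by omega, hA⟩)
          (ih (t - 1) (by omega) _ (by rw [dm_self]; omega) hA1.2)
          (ih (t - 2) (by omega) _ (by rw [dm_self, dm_self]; omega) hA2.2) (by omega) ?_
        have h4 := card_ge (δ := δ) hx
        rw [hxj, hδ] at h4
        omega
  intro δ hδ
  obtain ⟨t, ht⟩ := Nat.exists_eq_add_of_le hδ.1
  exact key t δ ht hδ.2

/-- Strong induction on `|S|`. -/
theorem W_all (j : Fin k) (S : Finset (Sg M)) (hS : ∃ x ∈ S, x.1 = j) : W j S := by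
  classical
  have key : ∀ (n : ℕ) (S : Finset (Sg M)), S.card = n → (∃ x ∈ S, x.1 = j) → W j S := by
    intro n
    induction n using Nat.strong_induction_on with
    | _ n ih =>
      intro S hn hS
      obtain ⟨x, hx, hxj⟩ := hS
      by_cases hA : ∃ o ∈ S, o.1 ≠ j
      · obtain ⟨o, ho, hoj⟩ := hA
        have hxw : x ∈ wb S o.1 := mem_wb.2 ⟨hx, by rw [hxj]; exact Ne.symm hoj⟩
        have hxo : x ∈ S.erase o := Finset.mem_erase.2 ⟨by
          rintro rfl
          exact hoj hxj, hx⟩
        have h1 := Finset.card_erase_add_one ho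
        have h2 := card_wb S o.1
        have h3 := bs_pos ho
        exact W_stepA ho hoj ⟨x, hx, hxj⟩
          (ih _ (by omega) (S.erase o) rfl ⟨x, hxo, hxj⟩)
          (ih _ (by omega) (wb S o.1) rfl ⟨x, hxw, hxj⟩)
      · push Not at hA
        subst hxj
        rcases Nat.lt_or_ge S.card 2 with hc | hc
        · have h1 : S = {x} := by
            have h2 : 1 ≤ S.card := Finset.card_pos.2 ⟨x, hx⟩
            obtain ⟨y, hy⟩ := Finset.card_eq_one.1 (show S.card = 1 by omega)
            rw [hy, Finset.mem_singleton] at hx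
            rw [hy, hx]
          rw [h1]
          exact ⟨0, 0, fun δ _ => base1 x δ⟩
        · obtain ⟨y, hy⟩ : (S.erase x).Nonempty := by
            rw [← Finset.card_pos]
            have := Finset.card_erase_add_one hx
            omega
          have h1 := Finset.card_erase_add_one hx
          exact W_stepB hx hA hc (ih _ (by omega) (S.erase x) rfl
            ⟨y, hy, hA y (Finset.mem_of_mem_erase hy)⟩)
  exact key _ S rfl hS

end Pool.Agent.SV.A
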